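import Pool.Agent.SYS.LT.Rem

/-!
# SYS-LT-CaseB: removal of a leaf edge of a map with one face

`φ (α d) = d`: the vertex of `d` is `{d}`.
-/

namespace SYS
namespace Vm

open Classical SST

variable {D : Type} [Finite D] {X : Set D} {φ α : Equiv.Perm D}

private theorem cb_pow {σ : Equiv.Perm D} {e e' : D} (h : σ.SameCycle e e') {Z : Set D} (he : e ∈ Z)
    (hZ : ∀ u ∈ Z, σ u ∈ Z) : e' ∈ Z := by
  obtain ⟨n, hn⟩ := h.exists_pow_eq'
  have key : ∀ n : ℕ, (σ ^ n) e ∈ Z := by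
    intro n
    induction n with
    | zero => exact he
    | succ n ih =>
      rw [pow_succ', Equiv.Perm.mul_apply]
      exact hZ _ ih
  rw [← hn.2]
  exact key n

private theorem cb_ne (hM : Mp X φ α) {d : D} (hd : d ∈ X) (h : φ (α d) = d) : φ d ≠ d := by
  intro h1
  exact hM.a_on d hd (φ.injective (h.trans h1.symm))

private theorem cb_ne' (hM : Mp X φ α) {d : D} (hd : d ∈ X) (h : φ (α d) = d) (hone : ∀ e ∈ X, φ.SameCycle d e)
    (hX : (rX X α d).Nonempty) : φ d ≠ α d := by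
  have _ := hM
  have _ := hd
  intro h1
  obtain ⟨e, he, hne⟩ := hX
  refine hne (cb_pow (hone e he) (Z := {d, α d}) (Or.inl rfl) ?_)
  rintro u (rfl | hu)
  · exact Or.inr h1
  · rw [hu, h]
    exact Or.inl rfl

private theorem cb_mem (hM : Mp X φ α) {d : D} (hd : d ∈ X) (h : φ (α d) = d) (hone : ∀ e ∈ X, φ.SameCycle d e)
    (hX : (rX X α d).Nonempty) : φ d ∈ rX X α d := by
  refine ⟨(mp_f hM).2 hd, ?_⟩
  rintro (h1 | h1)
  · exact cb_ne hM hd h h1
  · exact cb_ne' hM hd h hone hX h1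

theorem cb_V (hM : Mp X φ α) {d : D} (hd : d ∈ X) (h : φ (α d) = d) (hone : ∀ e ∈ X, φ.SameCycle d e)
    (hX : (rX X α d).Nonempty) : ncycOn (φ * α) (rX X α d) + 1 = ncycOn (φ * α) X := by
  have hs : (φ * α) d = d := h
  have hs' : (φ * α) (α d) = φ d := by
    rw [Equiv.Perm.mul_apply, hM.aa]
  have h1 : ncycOn (φ * α) X = ncycOn (φ * α) (insert d (rX X α d)) := by
    refine ncycOn_meet ?_ ?_
    · rintro e (rfl | he)
      · exact hd
      · exact he.1
    · intro e he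
      by_cases h2 : e ∈ insert d (rX X α d)
      · exact ⟨e, h2, Equiv.Perm.SameCycle.refl _ _⟩
      · have h3 : e = α d := by
          by_contra h4
          refine h2 (Or.inr ⟨he, ?_⟩)
          rintro (h5 | h5)
          · exact h2 (Or.inl h5)
          · exact h4 h5
        refine ⟨φ d, Or.inr (cb_mem hM hd h hone hX), ?_⟩
        rw [h3, ← hs']
        exact Equiv.Perm.sameCycle_apply_right.2 (Equiv.Perm.SameCycle.refl _ _)
  rw [h1]
  unfold ncycOn
  have h2 : {q : Quotient (Equiv.Perm.SameCycle.setoid (φ * α)) | ∃ e ∈ insert d (rX X α d), Quotient.mk _ e = q} =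
      insert (Quotient.mk _ d) {q : Quotient (Equiv.Perm.SameCycle.setoid (φ * α)) |
        ∃ e ∈ rX X α d, Quotient.mk _ e = q} := by
    ext q
    constructor
    · rintro ⟨e, rfl | he, rfl⟩
      · exact Or.inl rfl
      · exact Or.inr ⟨e, he, rfl⟩
    · rintro (rfl | ⟨e, he, rfl⟩)
      · exact ⟨d, Or.inl rfl, rfl⟩
      · exact ⟨e, Or.inr he, rfl⟩
  rw [h2, Set.ncard_insert_of_notMem ?_ (Set.toFinite _)]
  rintro ⟨e, he, h3⟩
  have h4 : (φ * α).SameCycle e d := Quotient.exact h3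
  have h5 : e ∈ ({d} : Set D) := cb_pow h4.symm (Z := {d}) rfl (by
    rintro u rfl
    exact hs)
  exact he.2 (Or.inl h5)

private theorem cb_ret (hM : Mp X φ α) {d : D} (hd : d ∈ X) (h : φ (α d) = d) :
    ret φ ({d}ᶜ : Set D) = φ * Equiv.swap d (α d) := by
  have hne := cb_ne hM hd h
  ext u
  rw [Equiv.Perm.mul_apply]
  by_cases hu : u = d
  · have hdn : d ∉ ({d}ᶜ : Set D) := fun h1 => h1 rfl
    rw [hu, Equiv.swap_apply_left, h, ret_not_mem φ hdn]
  · by_cases hu' : u = α d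
    · rw [hu', Equiv.swap_apply_right]
      have had : α d ∈ ({d}ᶜ : Set D) := fun h1 => hM.a_on d hd h1
      have h2 : (φ ^ (1 + 1)) (α d) = φ d := by
        rw [pow_succ', pow_one, Equiv.Perm.mul_apply, h]
      rw [ret_eq φ had (j := 1) (by rw [h2]; exact fun h1 => hne h1) ?_, h2]
      intro i hi
      have h3 : i = 0 := by omega
      rw [h3, zero_add, pow_one, h]
      exact fun h1 => h1 rfl
    · rw [Equiv.swap_apply_of_ne_of_ne hu hu']
      have hu2 : u ∈ ({d}ᶜ : Set D) := fun h1 => hu h1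
      have h2 : φ u ≠ d := fun h3 => hu' (φ.injective (h3.trans h.symm))
      rw [ret_eq φ hu2 (j := 0) (by rw [zero_add, pow_one]; exact fun h1 => h2 h1)
        (fun i hi => absurd hi (Nat.not_lt_zero i)), zero_add, pow_one]

theorem cb_F (hM : Mp X φ α) {d : D} (hd : d ∈ X) (h : φ (α d) = d) (hone : ∀ e ∈ X, φ.SameCycle d e)
    (hX : (rX X α d).Nonempty) {e e' : D} (he : e ∈ rX X α d) (he' : e' ∈ rX X α d) : (rF X φ α d).SameCycle e e' := by
  have _ := hX
  have h1 : φ.SameCycle e e' := (hone e he.1).symm.trans (hone e' he'.1)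
  have k1 : e ∈ ({d}ᶜ : Set D) := fun h3 => he.2 (Or.inl h3)
  have k2 : e' ∈ ({d}ᶜ : Set D) := fun h3 => he'.2 (Or.inl h3)
  have h2 : (ret φ ({d}ᶜ : Set D)).SameCycle e e' := (ret_same φ k1 k2).2 h1
  rw [cb_ret hM hd h] at h2
  exact (ret_same _ he he').2 h2

theorem cb_T (hM : Mp X φ α) {d : D} (hd : d ∈ X) (h : φ (α d) = d) (hone : ∀ e ∈ X, φ.SameCycle d e)
    (hX : (rX X α d).Nonempty) : Trs (rX X α d) (rF X φ α d) (rA X α d) := by
  rintro Z hZ ⟨z, hz⟩ hc
  refine Set.Subset.antisymm hZ fun e he => ?_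
  exact cb_pow (cb_F hM hd h hone hX (hZ hz) he) hz fun u hu => (hc u hu).2

end Vm
end SYS
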