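import Pool.Agent.SYS.LT.Rem

/-!
# SYS-LT-Leaf: a leaf, the last edge

PLAN.
* `cyc_two`: `X` invariant under `σ` and `σ` without fixed points in `X`: every class which meets `X` is contained in `X` and has at least two elements, so twice the number of
  classes is at most `|X|` (for instance: `X` is the disjoint union of the fibres of `Quotient.mk`, `Finset.card_nsmul_le_card...`, or induction; or: the map
  `(q, i) ↦` (a representative `r q ∈ X`, or `σ (r q)`) from classes × `Bool` to `X` is injective).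
* `exists_leaf`: otherwise `cyc_two` for `σ = φ * α` contradicts `hE`.
* `two_gauge`: `X = {d, α d}`.  If `φ d = α d` then `φ (α d) = d` (`φ` permutes `X`): `k (α d) := l d`, `k d := 1`.  If `φ d = d` then `φ (α d) = α d`; one of `d`, `α d` is not
  in the `φ`-cycle of `x`, so `κ (φ e) = κ e = κ e * l e` gives `l e = 1`, hence `l d = 1 = l (α d)`; `k := 1`.
-/

namespace SYS
namespace Vm

open Classical SST

variable {D : Type} [Finite D] {X : Set D} {φ α : Equiv.Perm D}

theorem cyc_two {σ : Equiv.Perm D} {X : Set D} (hX : ∀ d, σ d ∈ X ↔ d ∈ X) (h : ∀ d ∈ X, σ d ≠ d) : 2 * ncycOn σ X ≤ X.ncard := by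
  have hmk : ∀ d : D, (Quotient.mk (Equiv.Perm.SameCycle.setoid σ) (σ d)) =
      Quotient.mk (Equiv.Perm.SameCycle.setoid σ) d := by
    intro d
    apply Quotient.sound
    show σ.SameCycle (σ d) d
    rw [Equiv.Perm.sameCycle_apply_left]
  obtain ⟨C, hC⟩ : ∃ C : Set (Quotient (Equiv.Perm.SameCycle.setoid σ)),
      C = {q | ∃ d ∈ X, Quotient.mk _ d = q} := ⟨_, rfl⟩
  have key : ∀ q : C, ∃ d, d ∈ X ∧ Quotient.mk (Equiv.Perm.SameCycle.setoid σ) d = q.1 := by
    intro q
    have h1 : q.1 ∈ {q | ∃ d ∈ X, Quotient.mk (Equiv.Perm.SameCycle.setoid σ) d = q} := hC ▸ q.2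
    exact h1
  choose r hr1 hr2 using key
  have hf : Function.Injective (fun p : C × Bool =>
      if p.2 then (⟨r p.1, hr1 p.1⟩ : X) else ⟨σ (r p.1), (hX _).2 (hr1 p.1)⟩) := by
    rintro ⟨q, b⟩ ⟨q', b'⟩ hqq
    have h0 : ∀ (q : C) (b : Bool), Quotient.mk (Equiv.Perm.SameCycle.setoid σ)
        ((if b then (⟨r q, hr1 q⟩ : X) else ⟨σ (r q), (hX _).2 (hr1 q)⟩ : X) : D) = q.1 := by
      intro q b
      cases b
      · exact (hmk _).trans (hr2 q)
      · exact hr2 q
    have h1 : q = q' := by
      apply Subtype.ext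
      rw [← h0 q b, ← h0 q' b']
      exact congrArg (fun z : X => Quotient.mk (Equiv.Perm.SameCycle.setoid σ) (z : D)) hqq
    subst h1
    have h2 : b = b' := by
      cases b
      · cases b'
        · rfl
        · exact absurd (congrArg Subtype.val hqq) (h _ (hr1 q))
      · cases b'
        · exact absurd (congrArg Subtype.val hqq).symm (h _ (hr1 q))
        · rfl
    rw [h2]
  have h3 := Nat.card_le_card_of_injective _ hf
  rw [Nat.card_prod, Nat.card_eq_fintype_card (α := Bool), Fintype.card_bool] at h3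
  have h4 : ncycOn σ X = Nat.card C := by
    unfold ncycOn
    rw [← hC]
    exact (Nat.card_coe_set_eq C).symm
  have h5 : Nat.card X = X.ncard := Nat.card_coe_set_eq X
  have h6 : Nat.card C * 2 ≤ X.ncard := h5 ▸ h3
  rw [h4]
  omega

theorem exists_leaf (hM : Mp X φ α) (hE : 2 * ncycOn (φ * α) X = X.ncard + 2) : ∃ d ∈ X, φ (α d) = d := by
  by_contra hcon
  push Not at hcon
  have h1 := cyc_two (σ := φ * α) (X := X) (fun d => by
    rw [Equiv.Perm.mul_apply, mp_f hM, mp_a hM]) (fun d hd => by
    rw [Equiv.Perm.mul_apply]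
    exact hcon d hd)
  omega

theorem two_gauge (hM : Mp X φ α) {d : D} (hd : d ∈ X) (hX : rX X α d = ∅) {G : Type} [Group G] {l : D → G}
    (hl : ∀ d ∈ X, l (α d) = (l d)⁻¹) {x : D} (hx : x ∈ X) (κ : D → G)
    (hκ : ∀ e ∈ X, ¬ φ.SameCycle x e → κ (φ e) = κ e * l e) : ∃ k : D → G, Gg X φ α l k := by
  have hX' : ∀ e ∈ X, e = d ∨ e = α d := by
    intro e he
    by_contra hne
    have h1 : e ∈ rX X α d := ⟨he, hne⟩
    rw [hX] at h1
    exact h1
  have had : α d ∈ X := (mp_a hM).2 hd
  have hne : α d ≠ d := hM.a_on d hd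
  rcases hX' _ ((mp_f hM).2 hd) with h1 | h1
  · have h2 : φ (α d) = α d := by
      rcases hX' _ ((mp_f hM).2 had) with h3 | h3
      · exact absurd (φ.injective (h3.trans h1.symm)) hne
      · exact h3
    have h3 : l d = 1 := by
      rcases hX' x hx with h4 | h4
      · have h5 := hκ (α d) had (fun h => hne (by
          rw [h4] at h
          exact (h.eq_of_left h1).symm))
        rw [h2, left_eq_mul, hl d hd, inv_eq_one] at h5
        exact h5
      · have h5 := hκ d hd (fun h => hne (by
          rw [h4] at h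
          exact h.eq_of_left h2))
        rw [h1, left_eq_mul] at h5
        exact h5
    refine ⟨fun _ => 1, ?_⟩
    intro e he
    rcases hX' e he with h4 | h4
    · rw [h4, h3, one_mul]
      exact ⟨rfl, rfl⟩
    · rw [h4, hl d hd, h3, inv_one, one_mul]
      exact ⟨rfl, rfl⟩
  · have h2 : φ (α d) = d := by
      rcases hX' _ ((mp_f hM).2 had) with h3 | h3
      · exact h3
      · exact absurd (φ.injective (h3.trans h1.symm)) hne
    refine ⟨fun e => if e = α d then l d else 1, ?_⟩
    intro e he
    have e1 : (fun e => if e = α d then l d else 1) (α d) = l d := if_pos rfl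
    have e2 : (fun e => if e = α d then l d else 1) d = 1 := if_neg hne.symm
    rcases hX' e he with h4 | h4
    · rw [h4, h1, e1, e2, one_mul]
      exact ⟨rfl, rfl⟩
    · rw [h4, h2, hM.aa, e1, e2, hl d hd, mul_inv_cancel]
      exact ⟨rfl, rfl⟩

end Vm
end SYS
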