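import Pool.Agent.SYS.LT.CaseA
import Pool.Agent.SYS.LT.CaseB
import Pool.Agent.SYS.LT.Leaf

/-!
# SYS-LT-Gau0: a labelling of a planar map which is trivial around all faces but one has a gauge

`κ` is a gauge along every face but the face of `x` (this expresses that the product around the face is trivial).

PLAN.  Strong induction on `X.ncard` (for all `φ`, `α`, `x`).
(A) There is `d ∈ X` in the `φ`-cycle of `x` with `α d` not in it.  If `rX X α d = ∅`: `two_gauge`.  Otherwise apply the induction hypothesis to `rX`, `rF`, `rA`: `rem_mp`, `ca_T`,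
Euler: `rem_V`, `ca_V`, `rem_F`, `ca_F`, `rem_card`; `l (α' e) = (l e)⁻¹` (`rA_mem`); the new `x` is the `y` of `ca_meet_f`; the hypothesis on `κ`: `ca_other` (the element is not in the
`φ`-cycle of `d`, hence not in that of `x`).  `rem_back` gives `k` with `k (φ (α e)) = k e` for all `e`, and `k (φ e) = k e * l e`, `k (α e) = k e * l e` for `e ∈ rX`.
It remains to show `k (α d) = k d * l d` and `k (φ e) = k e * l e`, `e = d, α d`.  The face of `α d`: `c e := k e * (κ e)⁻¹` satisfies `c (φ e) = c e` for all `e ≠ α d` in the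
`φ`-cycle of `α d` (these `e` are in `rX`, and not in the cycle of `x`).  `cyc_close`: `c (φ (α d)) = c (α d)`, i.e. `k (φ (α d)) = k (α d) * l (α d)` (`hκ` at `α d`); since
`k (φ (α d)) = k d`: `k d = k (α d) * (l d)⁻¹`.  Then `k (φ d) = k (φ (α (α d))) = k (α d) = k d * l d`, and `k (α (α d)) = k d = k (α d) * l (α d)`.
(B) No such `d`: the `φ`-cycle of `x` is closed under `α`, so it is `X` and `ncycOn φ X = 1`, so `2 * ncycOn (φ * α) X = X.ncard + 2`; `exists_leaf`: `d` with `φ (α d) = d`.
If `rX = ∅`: `two_gauge` (with `κ := 1`-like: no face is excluded, `hκ` as given).  Otherwise the induction hypothesis for `rX` (`cb_V`, `cb_T`, `cb_F`: `ncycOn rF rX = 1`, `κ` arbitrary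
since all elements are in one cycle).  `rem_back` gives `k`; put `k₁ := Function.update k d (k (α d) * l (α d))`.  `d` is the only dart of its vertex: `φ (α e) = d` iff `e = d`.
-/

namespace SYS
namespace Vm

open Classical SST

variable {D : Type} [Finite D]

private theorem g0_one {σ : Equiv.Perm D} {X : Set D} {x : D} (hx : x ∈ X) (h : ∀ e ∈ X, σ.SameCycle x e) : ncycOn σ X = 1 := by
  unfold ncycOn
  rw [Set.ncard_eq_one]
  refine ⟨Quotient.mk _ x, ?_⟩
  ext q
  rw [Set.mem_singleton_iff]
  constructor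
  · rintro ⟨e, he, rfl⟩
    exact Quotient.sound (h e he).symm
  · rintro rfl
    exact ⟨x, hx, rfl⟩

private theorem g0_pow {X : Set D} {φ α : Equiv.Perm D} (hM : Mp X φ α) {u v : D} (hu : u ∈ X) (h : φ.SameCycle u v) : v ∈ X := by
  obtain ⟨n, -, hn⟩ := h.exists_pow_eq'
  rw [← hn]
  have key : ∀ n : ℕ, (φ ^ n) u ∈ X := by
    intro n
    induction n with
    | zero => exact hu
    | succ n ih =>
      rw [pow_succ', Equiv.Perm.mul_apply]
      exact (mp_f hM).2 ih
  exact key n

private theorem g0_cases {X : Set D} {α : Equiv.Perm D} (d : D) {e : D} (he : e ∈ X) : e = d ∨ e = α d ∨ e ∈ rX X α d := by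
  by_cases h1 : e = d
  · exact Or.inl h1
  by_cases h2 : e = α d
  · exact Or.inr (Or.inl h2)
  · refine Or.inr (Or.inr ⟨he, ?_⟩)
    rintro (h3 | h3)
    · exact h1 h3
    · exact h2 h3

theorem gauge0 {G : Type} [Group G] {l : D → G} (κ : D → G) {X : Set D} {φ α : Equiv.Perm D} (hM : Mp X φ α) (hT : Trs X φ α)
    (hE : 2 * (ncycOn (φ * α) X + ncycOn φ X) = X.ncard + 4) (hl : ∀ d ∈ X, l (α d) = (l d)⁻¹) {x : D} (hx : x ∈ X)
    (hκ : ∀ e ∈ X, ¬ φ.SameCycle x e → κ (φ e) = κ e * l e) : ∃ k : D → G, Gg X φ α l k := by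
  obtain ⟨N, hN⟩ : ∃ N, N = X.ncard := ⟨_, rfl⟩
  induction N using Nat.strong_induction_on generalizing X φ α x with
  | _ N ih =>
  by_cases hA : ∃ d ∈ X, φ.SameCycle x d ∧ ¬ φ.SameCycle x (α d)
  · obtain ⟨d, hd, hxd, hxa⟩ := hA
    have h : ¬ φ.SameCycle d (α d) := fun h => hxa (hxd.trans h)
    by_cases hX : (rX X α d).Nonempty
    swap
    · exact two_gauge hM hd (Set.not_nonempty_iff_eq_empty.1 hX) hl hx κ hκ
    obtain ⟨y, hy, hy'⟩ := ca_meet_f hM hT hd h hX
    have hcard := rem_card hM hd
    have hV := (rem_V hM hd).trans (ca_V hM hT hd h hX)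
    have hF := ca_F hM hT hd h hX
    have hF' := rem_F X φ α d
    obtain ⟨k', hk'⟩ := ih (rX X α d).ncard (by omega) (rem_mp hM hd) (ca_T hM hT hd h hX) (by
      rw [hV, hF']
      omega) (fun e he => by
      rw [rA_mem hM d he]
      exact hl e he.1) hy (fun e he hn => by
      obtain ⟨h1, h2, -⟩ := ca_other hM hd h hy hy' he hn
      rw [h1]
      exact hκ e he.1 fun h3 => h2 (hxd.symm.trans h3)) rfl
    obtain ⟨k, hk1, hk2⟩ := rem_back hM hd hl hk'
    have haX : α d ∈ X := (mp_a hM).2 hd
    have hclose := cyc_close φ (α d) (fun e => k e * (κ e)⁻¹) (fun e he hne => by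
      have heX : e ∈ X := g0_pow hM haX he
      have hed : e ≠ d := by
        rintro rfl
        exact h he.symm
      have heX' : e ∈ rX X α d := by
        rcases g0_cases (α := α) d heX with h1 | h1 | h1
        · exact absurd h1 hed
        · exact absurd h1 hne
        · exact h1
      have h1 := (hk2 e heX').1
      have h2 := hκ e heX fun h3 => hxa (h3.trans he.symm)
      rw [h1, h2, mul_inv_rev]
      group)
    have h2 := hκ (α d) haX hxa
    rw [h2, mul_inv_rev, ← mul_assoc, mul_left_inj, mul_inv_eq_iff_eq_mul, hk1 d, hl d hd] at hclose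
    -- `k d = k (α d) * (l d)⁻¹`
    have h3 : k (α d) = k d * l d := by
      rw [hclose, inv_mul_cancel_right]
    refine ⟨k, fun e he => ?_⟩
    rcases g0_cases (α := α) d he with h4 | h4 | h4
    · rw [h4]
      refine ⟨?_, h3⟩
      have h5 := hk1 (α d)
      rw [hM.aa] at h5
      rw [h5, h3]
    · rw [h4, hM.aa, hk1 d, hl d hd]
      exact ⟨hclose, hclose⟩
    · exact hk2 e h4
  · have hall : ∀ e ∈ X, φ.SameCycle x e := by
      have h1 : {e | e ∈ X ∧ φ.SameCycle x e} = X := by
        refine hT _ (fun e he => he.1) ⟨x, hx, Equiv.Perm.SameCycle.refl φ x⟩ ?_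
        rintro e ⟨he, hxe⟩
        refine ⟨⟨(mp_a hM).2 he, ?_⟩, (mp_f hM).2 he, ?_⟩
        · by_contra h2
          exact hA ⟨e, he, hxe, h2⟩
        · exact Equiv.Perm.sameCycle_apply_right.2 hxe
      intro e he
      rw [← h1] at he
      exact he.2
    have hF := g0_one hx hall
    obtain ⟨d, hd, h⟩ := exists_leaf hM (by omega)
    by_cases hX : (rX X α d).Nonempty
    swap
    · exact two_gauge hM hd (Set.not_nonempty_iff_eq_empty.1 hX) hl hx κ hκ
    have hone : ∀ e ∈ X, φ.SameCycle d e := fun e he => (hall d hd).symm.trans (hall e he)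
    obtain ⟨y, hy⟩ := hX
    have hX : (rX X α d).Nonempty := ⟨y, hy⟩
    have hcard := rem_card hM hd
    have hV := rem_V hM hd
    have hV' := cb_V hM hd h hone hX
    have hF' : ncycOn (rF X φ α d) (rX X α d) = 1 :=
      g0_one hy fun e he => cb_F hM hd h hone hX hy he
    obtain ⟨k', hk'⟩ := ih (rX X α d).ncard (by omega) (rem_mp hM hd) (cb_T hM hd h hone hX) (by
      rw [hV, hF']
      omega) (fun e he => by
      rw [rA_mem hM d he]
      exact hl e he.1) hy (fun e he hn => absurd (cb_F hM hd h hone hX hy he) hn) rfl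
    obtain ⟨k, hk1, hk2⟩ := rem_back hM hd hl hk'
    have haX : α d ∈ X := (mp_a hM).2 hd
    have had : α d ≠ d := hM.a_on d hd
    have hfd : φ d ≠ d := by
      intro h1
      apply had
      apply φ.injective
      rw [h1, h]
    have hka : k (φ d) = k (α d) := by
      have h5 := hk1 (α d)
      rwa [hM.aa] at h5
    refine ⟨Function.update k d (k (α d) * l (α d)), fun e he => ?_⟩
    rcases g0_cases (α := α) d he with h4 | h4 | h4
    · rw [h4, Function.update_self, Function.update_of_ne hfd, Function.update_of_ne had, hka, hl d hd,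
        inv_mul_cancel_right]
      exact ⟨rfl, rfl⟩
    · rw [h4, h, hM.aa, Function.update_self, Function.update_of_ne had]
      exact ⟨rfl, rfl⟩
    · have hed : e ≠ d := fun h5 => h4.2 (Or.inl h5)
      have hea : e ≠ α d := fun h5 => h4.2 (Or.inr h5)
      have h5 : φ e ≠ d := by
        intro h6
        apply hea
        apply φ.injective
        rw [h6, h]
      have h6 : α e ≠ d := by
        intro h7
        apply hea
        rw [← h7, hM.aa]
      rw [Function.update_of_ne h5, Function.update_of_ne h6, Function.update_of_ne hed]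
      exact hk2 e h4

end Vm
end SYS
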