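import Pool.Agent.SYS.LT.Defs

/-!
# SYS-LT-Tele: products along cycles

PLAN.
* `tele`: induction on `n` (`List.range_succ`, `hol_append`).
* `mem_cyc`, `cyc_nodup`, `cyc_length`: as `mem_hw`, `hw_nodup` in `Lib/WordA` (`Function.minimalPeriod`, `Equiv.Perm.iterate_eq_pow`).
* `hw_cyc`: `S.per x = Function.minimalPeriod S.nx x` for `x ∈ B` (private `per_eq` in `Lib/WordA`; copy it).
* `cyc_hol`: `tele` with `n` the period.
* `exists_kap`: let `r d` be a chosen dart of the face of `d` (`r` constant on the cycles of `T.f`): `d = r d`, `d = T.f (r d)` or `d = T.f (T.f (r d))`; put `κ (r d) = 1`,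
  `κ (T.f (r d)) = l (r d)`, `κ (T.f (T.f (r d))) = l (r d) * l (T.f (r d))` (the three are different: `T.fne`, `T.fff`); the last identity is `Flat.face`.
-/

namespace SYS
namespace Vm

open Classical SST

variable {D : Type}

private theorem tl_pow (σ : Equiv.Perm D) (n : ℕ) (d : D) : (σ ^ (n + 1)) d = σ ((σ ^ n) d) := by
  rw [pow_succ', Equiv.Perm.mul_apply]

theorem tele {G : Type} [Group G] {l k : D → G} (φ : Equiv.Perm D) (d : D) (n : ℕ)
    (h : ∀ i < n, k (φ ((φ ^ i) d)) = k ((φ ^ i) d) * l ((φ ^ i) d)) :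
    hol l ((List.range n).map fun i => (φ ^ i) d) = (k d)⁻¹ * k ((φ ^ n) d) := by
  induction n with
  | zero =>
    rw [List.range_zero, List.map_nil, hol_nil, pow_zero, Equiv.Perm.one_apply, inv_mul_cancel]
  | succ n ih =>
    rw [List.range_succ, List.map_append, hol_append, ih fun i hi => h i (by omega), List.map_cons, List.map_nil,
      hol_cons, hol_nil, mul_one, tl_pow, h n (by omega), mul_assoc]

private theorem kap_cases (T : Tri D) (e : D) :
    e = (T.fc e).out ∨ e = T.f (T.fc e).out ∨ e = T.f (T.f (T.fc e).out) := by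
  have h1 : T.fc ((T.fc e).out) = T.fc e := Quotient.out_eq _
  exact (T.fc_eq_iff _ _).1 h1

theorem exists_kap {G : Type} [Group G] {T : Tri D} {l : D → G} (hl : Flat T l) : ∃ κ : D → G, ∀ e, κ (T.f e) = κ e * l e := by
  refine ⟨fun e => if e = (T.fc e).out then 1 else if e = T.f (T.fc e).out then l (T.fc e).out else
    l (T.fc e).out * l (T.f (T.fc e).out), fun e => ?_⟩
  have h0 : T.fc (T.f e) = T.fc e := T.fc_f e
  have h1 := kap_cases T e
  dsimp only
  rw [h0]
  generalize (T.fc e).out = r at *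
  have n1 : T.f r ≠ r := T.fne r
  have n2 : T.f (T.f r) ≠ T.f r := T.fne _
  have n3 : T.f (T.f r) ≠ r := by
    intro h2
    have h3 := T.fff r
    rw [h2] at h3
    exact n1 h3
  rcases h1 with h1 | h1 | h1
  · rw [h1, if_neg n1, if_pos rfl, if_pos rfl, one_mul]
  · rw [h1, if_neg n3, if_neg n2, if_neg n1, if_pos rfl]
  · rw [h1, T.fff, if_pos rfl, if_neg n3, if_neg n2]
    exact (hl.face r).symm

variable [Finite D]

private theorem tl_pos (σ : Equiv.Perm D) (x : D) : 0 < Function.minimalPeriod σ x := by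
  refine Function.IsPeriodicPt.minimalPeriod_pos (n := orderOf σ) (orderOf_pos σ) ?_
  unfold Function.IsPeriodicPt Function.IsFixedPt
  rw [Equiv.Perm.iterate_eq_pow, pow_orderOf_eq_one]
  rfl

omit [Finite D] in
private theorem tl_mod (σ : Equiv.Perm D) (x : D) (i : ℕ) : (σ ^ (i % Function.minimalPeriod σ x)) x = (σ ^ i) x := by
  rw [← Equiv.Perm.iterate_eq_pow, ← Equiv.Perm.iterate_eq_pow]
  exact Function.iterate_mod_minimalPeriod_eq

omit [Finite D] in
private theorem tl_self (σ : Equiv.Perm D) (x : D) : (σ ^ Function.minimalPeriod σ x) x = x := by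
  rw [← Equiv.Perm.iterate_eq_pow]
  exact Function.iterate_minimalPeriod

omit [Finite D] in
private theorem tl_inj (σ : Equiv.Perm D) (x : D) {i j : ℕ} (hi : i < Function.minimalPeriod σ x)
    (hj : j < Function.minimalPeriod σ x) (h : (σ ^ i) x = (σ ^ j) x) : i = j := by
  rw [← Equiv.Perm.iterate_eq_pow, ← Equiv.Perm.iterate_eq_pow] at h
  exact Function.iterate_injOn_Iio_minimalPeriod (f := σ) (x := x) hi hj h

private theorem tl_same (σ : Equiv.Perm D) (x e : D) :
    σ.SameCycle x e ↔ ∃ i < Function.minimalPeriod σ x, (σ ^ i) x = e := by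
  constructor
  · intro h
    obtain ⟨i, hi⟩ := h.exists_nat_pow_eq
    exact ⟨i % Function.minimalPeriod σ x, Nat.mod_lt _ (tl_pos σ x), by rw [tl_mod, hi]⟩
  · rintro ⟨i, -, h⟩
    exact ⟨i, by rw [zpow_natCast]; exact h⟩

theorem mem_cyc (φ : Equiv.Perm D) (d e : D) : e ∈ cyc φ d ↔ φ.SameCycle d e := by
  rw [tl_same]
  unfold cyc
  rw [List.mem_map]
  constructor
  · rintro ⟨i, hi, h⟩
    exact ⟨i, List.mem_range.1 hi, h⟩
  · rintro ⟨i, hi, h⟩
    exact ⟨i, List.mem_range.2 hi, h⟩

theorem cyc_nodup (φ : Equiv.Perm D) (d : D) : (cyc φ d).Nodup := by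
  unfold cyc
  refine List.Nodup.map_on ?_ List.nodup_range
  intro i hi j hj hij
  rw [List.mem_range] at hi hj
  exact tl_inj φ d hi hj hij

theorem cyc_ne (φ : Equiv.Perm D) (d : D) : cyc φ d ≠ [] := by
  intro h
  have h1 : d ∈ cyc φ d := (mem_cyc φ d d).2 (Equiv.Perm.SameCycle.refl φ d)
  rw [h] at h1
  exact absurd h1 List.not_mem_nil

theorem cyc_hol {G : Type} [Group G] {l k : D → G} (φ : Equiv.Perm D) (d : D)
    (h : ∀ e, φ.SameCycle d e → k (φ e) = k e * l e) : hol l (cyc φ d) = 1 := by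
  unfold cyc
  rw [tele φ d _ fun i _ => h _ ⟨i, by rw [zpow_natCast]⟩, tl_self, inv_mul_cancel]

private theorem tl_nxmem (S : Part D) {d : D} (hd : d ∈ S.B) (i : ℕ) : (S.nx ^ i) d ∈ S.B := by
  induction i with
  | zero => exact hd
  | succ i ih =>
    rw [tl_pow, Part.nx_mem]
    exact ih

private theorem tl_hole (S : Part D) {x e : D} (hx : x ∈ S.B) :
    e ∈ S.hole x ↔ ∃ i < Function.minimalPeriod S.nx x, (S.nx ^ i) x = e := by
  constructor
  · rintro ⟨h1, h2⟩
    exact (tl_same S.nx x e).1 ((ret_same S.s hx h1).2 h2)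
  · intro h
    obtain ⟨i, hi, rfl⟩ := h
    refine ⟨tl_nxmem S hx i, ?_⟩
    exact (ret_same S.s hx (tl_nxmem S hx i)).1 ((tl_same S.nx x _).2 ⟨i, hi, rfl⟩)

private theorem tl_per (S : Part D) {x : D} (hx : x ∈ S.B) : S.per x = Function.minimalPeriod S.nx x := by
  have h : S.hole x = (fun i => (S.nx ^ i) x) '' (Finset.range (Function.minimalPeriod S.nx x) : Set ℕ) := by
    ext e
    rw [tl_hole S hx]
    constructor
    · rintro ⟨i, hi, h⟩
      exact ⟨i, Finset.mem_coe.2 (Finset.mem_range.2 hi), h⟩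
    · rintro ⟨i, hi, h⟩
      exact ⟨i, Finset.mem_range.1 (Finset.mem_coe.1 hi), h⟩
  unfold Part.per
  rw [h, Set.InjOn.ncard_image, Set.ncard_coe_finset, Finset.card_range]
  intro i hi j hj hij
  exact tl_inj S.nx x (Finset.mem_range.1 (Finset.mem_coe.1 hi))
    (Finset.mem_range.1 (Finset.mem_coe.1 hj)) hij

theorem hw_cyc (S : Part D) {x : D} (hx : x ∈ S.B) : S.hw x = cyc S.nx x := by
  unfold Part.hw cyc
  rw [tl_per S hx]

/-- A cycle of darts in which the next dart starts where the last one ends is a closed walk. -/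
theorem cyc_walk {T : Tri D} {φ : Equiv.Perm D} {d : D} (h : ∀ e, φ.SameCycle d e → T.tl (φ e) = T.hd e) :
    T.IsWalk (T.tl d) (cyc φ d) (T.tl d) := by
  have key : ∀ n : ℕ, T.IsWalk (T.tl d) ((List.range n).map fun i => (φ ^ i) d) (T.tl ((φ ^ n) d)) := by
    intro n
    induction n with
    | zero => exact rfl
    | succ n ih =>
      rw [List.range_succ, List.map_append, List.map_cons, List.map_nil, tl_pow, h _ ⟨n, by rw [zpow_natCast]⟩]
      exact T.walk_append ih (T.walk_single _)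
  have h1 := key (Function.minimalPeriod φ d)
  rw [tl_self] at h1
  exact h1

end Vm
end SYS
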