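import Pool.Agent.SYS.LT.Vert
import Pool.Agent.SYS.LT.Tele

/-!
# SYS-LT-GauW: the gauge along the boundary, jumps

PLAN.
* `gau_s`: `d ∈ R \ B`: `S.s d = S.f (S.a d)`, `S.a d ≠ d`, `T.a d = S.a d ∈ R`, `T.f (S.a d) = S.f (S.a d)`: `k (S.s d) = k (T.a d) * l (T.a d) = k d * l d * (l d)⁻¹` (`Flat.inv`).
* `gau_nx`: `S.s d = T.f d` for `d ∈ B`, then `gau_s` up to the first return.
* `gau_nu`: induction on `ps`: `nuL (p :: ps) b = swap p.1 p.2 (nuL ps b)`; `k (swap p.1 p.2 e) * (k e)⁻¹` is `1`, `k p.1 * (k p.2)⁻¹` or its inverse.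
* `gau_word`: induction on `i` (`List.range_succ`).
* `corner`: every `c ∈ R` either has a dart `b ∈ B` with `T.tl b = T.tl c`, `k b = k c` (first return of `S.s`; `gau_s`, `T.tl_s`, `le_s`), or no dart of its `S.s`-cycle is in `B`, then the
  `T.s`-cycle is the `S.s`-cycle and all darts of the vertex are in it, `k` is constant on it.
* `jump`: induction on the walk `c` (for all `x`): `[]`: `corner_jump`; `d :: c`: `k x * l d * ..`: `k x * (k d)⁻¹ ∈ H` (`corner_jump`, `T.tl d = T.tl x`), `k d * l d = k (T.f d)`, `T.f d ∈ R`,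
  `T.tl (T.f d) = T.hd d`, and the induction hypothesis for `T.f d`.
-/

namespace SYS
namespace Part

open Classical SST Vm

variable {D : Type} [Finite D] {S : Part D} {T : Tri D} {G : Type} [Group G] {l k : D → G}

private theorem gauw_pow (σ : Equiv.Perm D) (n : ℕ) (d : D) : (σ ^ (n + 1)) d = σ ((σ ^ n) d) := by
  rw [pow_succ', Equiv.Perm.mul_apply]

theorem gau_s (h : S.Le T) (hl : Flat T l) (hk : S.Gau T l k) {d : D} (hd : d ∈ S.R) (hd' : d ∉ S.B) : k (S.s d) = k d := by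
  have h1 : S.a d ≠ d := fun e => hd' ⟨hd, e⟩
  have h2 : S.a d ∈ S.R := (mem_R_a S d).2 hd
  have h3 : T.a d = S.a d := h.2 d h1
  have h4 : T.f (S.a d) = S.f (S.a d) := h.1 _ h2
  rw [s_apply, ← h4, hk.f _ h2, ← h3, hk.a d hd hd', hl.inv, mul_inv_cancel_right]

theorem gau_nx (h : S.Le T) (hl : Flat T l) (hk : S.Gau T l k) {d : D} (hd : d ∈ S.B) : k (S.nx d) = k d * l d := by
  obtain ⟨j, h1, h2, h3⟩ := ret_spec S.s hd
  have h0 : S.s d = T.f d := by
    rw [s_apply, hd.2]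
    exact (h.1 d hd.1).symm
  have key : ∀ i ≤ j, (S.s ^ (i + 1)) d ∈ S.R ∧ k ((S.s ^ (i + 1)) d) = k d * l d := by
    intro i
    induction i with
    | zero =>
      intro _
      rw [zero_add, pow_one]
      refine ⟨(mem_R_s S d).2 hd.1, ?_⟩
      rw [h0, hk.f d hd.1]
    | succ i ih =>
      intro hi
      obtain ⟨h4, h5⟩ := ih (by omega)
      rw [gauw_pow]
      refine ⟨(mem_R_s S _).2 h4, ?_⟩
      rw [gau_s h hl hk h4 (h3 i (by omega)), h5]
  have h4 := (key j le_rfl).2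
  rw [← h1] at h4
  exact h4

theorem gau_nu (h : S.Le T) (hl : Flat T l) (hk : S.Gau T l k) {H : Subgroup G} {ps : List (D × D)}
    (hps : ∀ p ∈ ps, p.1 ∈ S.B ∧ p.2 ∈ S.B) (hC : Clo k H ps) {b : D} (hb : b ∈ S.B) :
    ∃ g ∈ H, k (S.nuL ps b) = g * (k b * l b) := by
  induction ps with
  | nil =>
    refine ⟨1, H.one_mem, ?_⟩
    rw [one_mul]
    exact gau_nx h hl hk hb
  | cons p ps ih =>
    obtain ⟨g, hg, hg'⟩ := ih (fun q hq => hps q (List.mem_cons_of_mem _ hq)) (fun q hq => hC q (List.mem_cons_of_mem _ hq))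
    have hp := hC p List.mem_cons_self
    have h0 : S.nuL (p :: ps) b = Equiv.swap p.1 p.2 (S.nuL ps b) := rfl
    rw [h0]
    by_cases h1 : S.nuL ps b = p.1
    · rw [h1, Equiv.swap_apply_left]
      refine ⟨(k p.1 * (k p.2)⁻¹)⁻¹ * g, H.mul_mem (H.inv_mem hp) hg, ?_⟩
      rw [mul_assoc, ← hg', h1]
      group
    · by_cases h2 : S.nuL ps b = p.2
      · rw [h2, Equiv.swap_apply_right]
        refine ⟨(k p.1 * (k p.2)⁻¹) * g, H.mul_mem hp hg, ?_⟩
        rw [mul_assoc, ← hg', h2]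
        group
      · rw [Equiv.swap_apply_of_ne_of_ne h1 h2]
        exact ⟨g, hg, hg'⟩

theorem gau_word (h : S.Le T) (hl : Flat T l) (hk : S.Gau T l k) {H : Subgroup G} {ps : List (D × D)}
    (hps : ∀ p ∈ ps, p.1 ∈ S.B ∧ p.2 ∈ S.B) (hC : Clo k H ps) {b : D} (hb : b ∈ S.B) (i : ℕ) :
    ∃ g ∈ H, k ((S.nuL ps ^ i) b) = g * (k b * hol l ((List.range i).map fun i => (S.nuL ps ^ i) b)) := by
  have hB : ∀ i : ℕ, (S.nuL ps ^ i) b ∈ S.B := by
    intro i
    induction i with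
    | zero => exact hb
    | succ i ih =>
      rw [gauw_pow]
      exact (nuL_mem hps).2 ih
  induction i with
  | zero =>
    refine ⟨1, H.one_mem, ?_⟩
    rw [List.range_zero, List.map_nil, hol_nil, one_mul, mul_one]
    rfl
  | succ i ih =>
    obtain ⟨g, hg, hg'⟩ := ih
    obtain ⟨g', hg2, hg3⟩ := gau_nu h hl hk hps hC (hB i)
    refine ⟨g' * g, H.mul_mem hg2 hg, ?_⟩
    rw [gauw_pow, hg3, hg', List.range_succ, List.map_append, hol_append, List.map_cons, List.map_nil, hol_cons,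
      hol_nil, mul_one]
    simp only [mul_assoc]

/-- Iterates of `S.s` before the boundary is met. -/
private theorem gauw_it (h : S.Le T) (hl : Flat T l) (hk : S.Gau T l k) {c : D} (hc : c ∈ S.R) (n : ℕ)
    (hn : ∀ i < n, (S.s ^ i) c ∉ S.B) : (S.s ^ n) c ∈ S.R ∧ (S.s ^ n) c = (T.s ^ n) c ∧ k ((S.s ^ n) c) = k c := by
  induction n with
  | zero => exact ⟨hc, rfl, rfl⟩
  | succ n ih =>
    obtain ⟨h1, h2, h3⟩ := ih fun i hi => hn i (by omega)
    have h4 := hn n (by omega)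
    rw [gauw_pow, gauw_pow]
    refine ⟨(mem_R_s S _).2 h1, ?_, ?_⟩
    · rw [← le_s h h1 h4, h2]
    · rw [gau_s h hl hk h1 h4, h3]

private theorem gauw_tl (T : Tri D) (c : D) (n : ℕ) : T.tl ((T.s ^ n) c) = T.tl c :=
  ((T.tl_eq_iff _ _).2 ⟨n, by rw [zpow_natCast]⟩).symm

private theorem gauw_B (h : S.Le T) (hl : Flat T l) (hk : S.Gau T l k) {c e : D} (hc : c ∈ S.R) (he : e ∈ S.X) (hce : T.tl c = T.tl e) :
    ∃ b ∈ S.B, T.tl b = T.tl c ∧ S.s.SameCycle c b ∧ k b = k c := by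
  by_cases hex : ∃ i : ℕ, (S.s ^ i) c ∈ S.B
  · have h1 := Nat.find_spec hex
    have h2 := fun i (hi : i < Nat.find hex) => Nat.find_min hex hi
    generalize Nat.find hex = n at *
    obtain ⟨h3, h4, h5⟩ := gauw_it h hl hk hc n h2
    refine ⟨_, h1, ?_, ⟨n, by rw [zpow_natCast]⟩, h5⟩
    rw [h4, gauw_tl]
  · exfalso
    have hex' : ∀ i : ℕ, (S.s ^ i) c ∉ S.B := fun i hi => hex ⟨i, hi⟩
    obtain ⟨n, -, hn⟩ := ((T.tl_eq_iff _ _).1 hce).exists_pow_eq'
    obtain ⟨h3, h4, -⟩ := gauw_it h hl hk hc n fun i _ => hex' i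
    have h5 := hex' n
    rw [h4, hn] at h3 h5
    rcases he with h6 | h6
    · exact h6 h3
    · exact h5 h6

/-- Two corners of one vertex. -/
theorem corner_jump (h : S.Le T) (hl : Flat T l) (hk : S.Gau T l k) {H : Subgroup G}
    (hJ : ∀ b ∈ S.B, ∀ b' ∈ S.B, T.tl b = T.tl b' → k b * (k b')⁻¹ ∈ H) {c c' : D} (hc : c ∈ S.R) (hc' : c' ∈ S.R)
    (hcc : T.tl c = T.tl c') : k c * (k c')⁻¹ ∈ H := by
  by_cases hex : ∃ e ∈ S.X, T.tl c = T.tl e
  · obtain ⟨e, he, hce⟩ := hex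
    obtain ⟨b, hb, hb1, -, hb2⟩ := gauw_B h hl hk hc he hce
    obtain ⟨b', hb', hb1', -, hb2'⟩ := gauw_B h hl hk hc' he (hcc.symm.trans hce)
    rw [← hb2, ← hb2']
    exact hJ b hb b' hb' (hb1.trans (hcc.trans hb1'.symm))
  · have hn : ∀ e, T.tl c = T.tl e → e ∈ S.R ∧ e ∉ S.B := by
      intro e he
      have h1 : e ∉ S.X := fun h2 => hex ⟨e, h2, he⟩
      exact ⟨not_not.1 fun h2 => h1 (Or.inl h2), fun h2 => h1 (Or.inr h2)⟩
    have key : ∀ n : ℕ, k ((T.s ^ n) c) = k c := by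
      intro n
      induction n with
      | zero => rfl
      | succ n ih =>
        obtain ⟨h1, h2⟩ := hn _ (gauw_tl T c n).symm
        rw [gauw_pow, le_s h h1 h2, gau_s h hl hk h1 h2, ih]
    obtain ⟨n, -, hn'⟩ := ((T.tl_eq_iff _ _).1 hcc).exists_pow_eq'
    rw [← hn', key n, mul_inv_cancel]
    exact H.one_mem

theorem jump (h : S.Le T) (hl : Flat T l) (hk : S.Gau T l k) {H : Subgroup G}
    (hJ : ∀ b ∈ S.B, ∀ b' ∈ S.B, T.tl b = T.tl b' → k b * (k b')⁻¹ ∈ H) {x y : D} (hx : x ∈ S.R) (hy : y ∈ S.R)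
    {c : List D} (hc : T.IsWalk (T.tl x) c (T.tl y)) (hcR : ∀ d ∈ c, d ∈ S.R) : k x * hol l c * (k y)⁻¹ ∈ H := by
  induction c generalizing x with
  | nil =>
    rw [hol_nil, mul_one]
    exact corner_jump h hl hk hJ hx hy hc
  | cons d c ih =>
    have hd : d ∈ S.R := hcR d List.mem_cons_self
    have h1 : T.tl x = T.tl d := hc.1.symm
    have h2 : T.IsWalk (T.tl (T.f d)) c (T.tl y) := by
      rw [T.tl_f]
      exact hc.2
    have h3 := ih ((le_f_mem h d).2 hd) h2 fun e he => hcR e (List.mem_cons_of_mem _ he)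
    have h4 := corner_jump h hl hk hJ hx hd h1
    rw [hk.f d hd] at h3
    have h5 := H.mul_mem h4 h3
    rw [hol_cons]
    have h6 : k x * (k d)⁻¹ * (k d * l d * hol l c * (k y)⁻¹) = k x * (l d * hol l c) * (k y)⁻¹ := by
      group
    rw [h6] at h5
    exact h5

/-- A dart of the boundary at the vertex of a revealed corner, if the vertex is not an inner vertex. -/
theorem corner_B (h : S.Le T) (hl : Flat T l) (hk : S.Gau T l k) {c e : D} (hc : c ∈ S.R) (he : e ∈ S.X) (hce : T.tl c = T.tl e) :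
    ∃ b ∈ S.B, T.tl b = T.tl c ∧ S.s.SameCycle c b ∧ k b = k c :=
  gauw_B h hl hk hc he hce

end Part
end SYS
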