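import Pool.Agent.SYS.LT.FillV
import Pool.Agent.SYS.LT.Gau0
import Pool.Agent.SYS.LT.GauW

/-!
# SYS-LT-FillG: a hole filled by a disc: gauge

PLAN.  `H := {d | d ∈ S.hw z}` is a hole (`HUn`, `mem_hw`), one `S.nx`-cycle (`ret_same`).  `W := S'.R \ S.R`.
* `fill_gauge`: `gauge0` for `X := W ∪ H`, `φ := rs S'.f W * rs S.nx H`, `α := rs S'.a X` (`Mp`: `fv_inv`), `x := z`; `κ` of `exists_kap` (`S'.f = T.f` on `S'.R`; a dart which is not in the `φ`-cycle of `z` is in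
  `W`).  Euler: `ncycOn (φ * α) X = V` (`fv_V`), `ncycOn φ X = F + 1` (`ncyc_three` on `W`, one cycle on `H`; `W` and `H` are invariant and disjoint), `X.ncard = 3 F + |hw|` (`fv_card`, `hw_nodup`).
  `S'.a d = T.a d` for `d ∈ X` (`S'.a d ≠ d`).
* `fill_hol`: `hw_cyc`, `cyc_hol` with the `k1` of `fill_gauge`.
* `fill_gau`: both `k` and `k1` satisfy `k (nx d) = k d * l d` on `H` (`gau_nx`), so `k d = g * k1 d` on `H` with `g := k z * (k1 z)⁻¹` (induction along the cycle).  `k' d := k d` on `S.R`,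
  `g * k1 d` otherwise.  Check `Gau.f`: on `S.R` (closed under `T.f`), on `W`.  `Gau.a` for `d ∈ S'.R`, `d ∉ S'.B = S.B \ H`: `d ∈ S.R \ S.B`: `T.a d = S.a d ∈ S.R`; `d ∈ X`: `T.a d ∈ X` and on `X` `k' = g * k1`.
-/

namespace SYS
namespace Part

open Classical SST Vm

variable {D : Type} [Finite D] {S S' : Part D} {T : Tri D} {G : Type} [Group G] {l k : D → G} {F V : ℕ} {z : D}

private theorem fg_HUn (hz : z ∈ S.B) : S.HUn {d | d ∈ S.hw z} := by
  refine ⟨fun d hd => ((mem_hw S hz).1 hd).1, fun d hd e he hde => ?_⟩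
  exact (mem_hw S hz).2 ⟨he, ((mem_hw S hz).1 hd).2.trans hde⟩

private theorem fg_nx (hz : z ∈ S.B) {d : D} : d ∈ S.hw z ↔ S.nx.SameCycle z d := by
  rw [hw_cyc S hz, mem_cyc]

private theorem fg_one {σ : Equiv.Perm D} {X : Set D} {x : D} (hx : x ∈ X) (h : ∀ e ∈ X, σ.SameCycle x e) : ncycOn σ X = 1 := by
  unfold ncycOn
  rw [Set.ncard_eq_one]
  refine ⟨Quotient.mk _ x, ?_⟩
  ext q
  rw [Set.mem_singleton_iff]
  constructor
  · rintro ⟨e, he, rfl⟩
    exact Quotient.sound (h e he).symm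
  · rintro rfl
    exact ⟨x, hx, rfl⟩

private theorem fg_pow (σ : Equiv.Perm D) (n : ℕ) (d : D) : (σ ^ (n + 1)) d = σ ((σ ^ n) d) := by
  rw [pow_succ', Equiv.Perm.mul_apply]

private theorem fg_union {σ : Equiv.Perm D} {A B : Set D} (hA : ∀ d, σ d ∈ A ↔ d ∈ A) (hAB : Disjoint A B) :
    ncycOn σ (A ∪ B) = ncycOn σ A + ncycOn σ B := by
  unfold ncycOn
  have h1 : {q : Quotient (Equiv.Perm.SameCycle.setoid σ) | ∃ d ∈ A ∪ B, Quotient.mk _ d = q} =
      {q | ∃ d ∈ A, Quotient.mk _ d = q} ∪ {q | ∃ d ∈ B, Quotient.mk _ d = q} := by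
    ext q
    constructor
    · rintro ⟨d, hd | hd, rfl⟩
      · exact Or.inl ⟨d, hd, rfl⟩
      · exact Or.inr ⟨d, hd, rfl⟩
    · rintro (⟨d, hd, rfl⟩ | ⟨d, hd, rfl⟩)
      · exact ⟨d, Or.inl hd, rfl⟩
      · exact ⟨d, Or.inr hd, rfl⟩
  rw [h1]
  refine Set.ncard_union_eq ?_ (Set.toFinite _) (Set.toFinite _)
  rw [Set.disjoint_left]
  rintro q ⟨a, ha, rfl⟩ ⟨b, hb, hab⟩
  have h2 : σ.SameCycle b a := Quotient.exact hab
  obtain ⟨n, -, hn⟩ := h2.symm.exists_pow_eq'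
  have key : ∀ n : ℕ, (σ ^ n) a ∈ A := by
    intro n
    induction n with
    | zero => exact ha
    | succ n ih =>
      rw [fg_pow]
      exact (hA _).2 ih
  have h3 := key n
  rw [hn] at h3
  exact Set.disjoint_left.1 hAB h3 hb

theorem fill_gauge (h' : S'.Le T) (hl : Flat T l) (hz : z ∈ S.B) (hE : 2 * V = 2 + F + (S.hw z).length)
    (hf : S.FillBy S' {d | d ∈ S.hw z} F V) :
    ∃ k1 : D → G, (∀ d ∈ S'.R \ S.R, k1 (T.f d) = k1 d * l d ∧ k1 (T.a d) = k1 d * l d) ∧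
      ∀ d ∈ S.hw z, k1 (S.nx d) = k1 d * l d ∧ k1 (T.a d) = k1 d * l d := by
  have hH := fg_HUn hz
  obtain ⟨i1, i2, i3, i4⟩ := fv_inv hH hf
  have hV := fv_V hH hf
  have hTr := fv_trs hH hf
  have hcard := fv_card hf
  have hzH : z ∈ {d | d ∈ S.hw z} := (fg_nx hz).2 (Equiv.Perm.SameCycle.refl _ _)
  have hHn : ∀ e, e ∈ {d | d ∈ S.hw z} ↔ S.nx.SameCycle z e := fun e => fg_nx hz
  have hHc : ({d | d ∈ S.hw z} : Set D).ncard = (S.hw z).length := by
    have h1 : ({d | d ∈ S.hw z} : Set D) = ((S.hw z).toFinset : Set D) := by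
      ext d
      rw [Finset.mem_coe, List.mem_toFinset]
      exact Iff.rfl
    rw [h1, Set.ncard_coe_finset, List.toFinset_card_of_nodup (hw_nodup S hz)]
  generalize hHd : ({d | d ∈ S.hw z} : Set D) = H at *
  have hWf : ∀ d ∈ S'.R \ S.R, S'.f d ≠ d := fun d hd => hd.1
  have hWT : ∀ d ∈ S'.R \ S.R, S'.f d = T.f d := fun d hd => (h'.1 d hd.1).symm
  generalize hWd : S'.R \ S.R = W at *
  have hWH : Disjoint W H := by
    rw [Set.disjoint_left]
    intro d hd hd'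
    rw [← hWd] at hd
    exact hd.2 (B_sub_R S (hH.1 hd'))
  have hnW : ∀ d ∈ H, d ∉ W := fun d hd hd' => Set.disjoint_left.1 hWH hd' hd
  have hnH : ∀ d ∈ W, d ∉ H := fun d hd hd' => Set.disjoint_left.1 hWH hd hd'
  have hφW : ∀ d ∈ W, (rs S'.f W * rs S.nx H) d = S'.f d := by
    intro d hd
    rw [Equiv.Perm.mul_apply, rs_not_mem (hnH d hd), rs_mem i1 hd]
  have hφH : ∀ d ∈ H, (rs S'.f W * rs S.nx H) d = S.nx d := by
    intro d hd
    rw [Equiv.Perm.mul_apply, rs_mem i2 hd, rs_not_mem (hnW _ ((i2 d).2 hd))]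
  have hα : ∀ d ∈ W ∪ H, rs S'.a (W ∪ H) d = T.a d := by
    intro d hd
    rw [rs_mem i3 hd]
    exact (h'.2 d (i4 d hd)).symm
  have hM : Mp (W ∪ H) (rs S'.f W * rs S.nx H) (rs S'.a (W ∪ H)) := by
    refine ⟨fun d hd => ?_, fun d hd => rs_not_mem hd, fun d hd => ?_, fun d => ?_⟩
    · rw [Equiv.Perm.mul_apply, rs_not_mem (fun h => hd (Or.inr h)), rs_not_mem (fun h => hd (Or.inl h))]
    · rw [rs_mem i3 hd]
      exact i4 d hd
    · by_cases hd : d ∈ W ∪ H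
      · rw [rs_mem i3 hd, rs_mem i3 ((i3 _).2 hd), S'.aa]
      · rw [rs_not_mem hd, rs_not_mem hd]
  have hWinv : ∀ d, (rs S'.f W * rs S.nx H) d ∈ W ↔ d ∈ W := by
    intro d
    by_cases hd : d ∈ W
    · rw [hφW d hd, i1]
    · by_cases hd' : d ∈ H
      · rw [hφH d hd']
        exact ⟨fun h => absurd h (hnW _ ((i2 d).2 hd')), fun h => absurd h hd⟩
      · rw [hM.f_off d (by rintro (h | h); exacts [hd h, hd' h])]
  have hcW : ncycOn (rs S'.f W * rs S.nx H) W = F := by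
    have h1 : ncycOn (rs S'.f W * rs S.nx H) W = ncycOn (rs S'.f W) W :=
      ncycOn_congr (fun d => by
        by_cases hd : d ∈ W
        · rw [rs_mem i1 hd, i1]
        · rw [rs_not_mem hd]) fun d hd => by rw [hφW d hd, rs_mem i1 hd]
    have h2 := ncyc_three (f := rs S'.f W) (W := W) (fun d => by
        by_cases hd : d ∈ W
        · rw [rs_mem i1 hd, i1]
        · rw [rs_not_mem hd]) (fun d hd => by
        rw [rs_mem i1 hd]
        exact hWf d hd) fun d => by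
        by_cases hd : d ∈ W
        · rw [rs_mem i1 hd, rs_mem i1 ((i1 _).2 hd), rs_mem i1 ((i1 _).2 ((i1 _).2 hd)), S'.fff]
        · rw [rs_not_mem hd, rs_not_mem hd, rs_not_mem hd]
    omega
  have hcH : ncycOn (rs S'.f W * rs S.nx H) H = 1 := by
    rw [ncycOn_congr (σ := S.nx) i2 hφH]
    exact fg_one hzH fun e he => (hHn e).1 he
  have hcX : (W ∪ H).ncard = 3 * F + (S.hw z).length := by
    rw [Set.ncard_union_eq hWH (Set.toFinite _) (Set.toFinite _), hcard, hHc]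
  have hsame : ∀ e ∈ H, (rs S'.f W * rs S.nx H).SameCycle z e := by
    intro e he
    obtain ⟨n, -, hn⟩ := ((hHn e).1 he).exists_pow_eq'
    have key : ∀ n : ℕ, ((rs S'.f W * rs S.nx H) ^ n) z = (S.nx ^ n) z ∧ (S.nx ^ n) z ∈ H := by
      intro n
      induction n with
      | zero => exact ⟨rfl, hzH⟩
      | succ n ih =>
        rw [fg_pow, fg_pow, ih.1, hφH _ ih.2]
        exact ⟨rfl, (i2 _).2 ih.2⟩
    refine ⟨(n : ℤ), ?_⟩
    rw [zpow_natCast, (key n).1, hn]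
  obtain ⟨κ, hκ⟩ := exists_kap hl
  obtain ⟨k1, hk1⟩ := gauge0 (l := l) κ hM hTr (by
    rw [hV, fg_union hWinv hWH, hcW, hcH, hcX]
    omega) (fun d hd => by
    rw [hα d hd]
    exact hl.inv d) (x := z) (Or.inr hzH) (fun e he hn => by
    rcases he with he | he
    · rw [hφW e he, hWT e he]
      exact hκ e
    · exact absurd (hsame e he) hn)
  refine ⟨k1, fun d hd => ?_, fun d hd => ?_⟩
  · obtain ⟨h1, h2⟩ := hk1 d (Or.inl hd)
    rw [hφW d hd, hWT d hd] at h1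
    rw [hα d (Or.inl hd)] at h2
    exact ⟨h1, h2⟩
  · have hd' : d ∈ H := by
      rw [← hHd]
      exact hd
    obtain ⟨h1, h2⟩ := hk1 d (Or.inr hd')
    rw [hφH d hd'] at h1
    rw [hα d (Or.inr hd')] at h2
    exact ⟨h1, h2⟩

theorem fill_hol (h' : S'.Le T) (hl : Flat T l) (hz : z ∈ S.B) (hE : 2 * V = 2 + F + (S.hw z).length)
    (hf : S.FillBy S' {d | d ∈ S.hw z} F V) : hol l (S.hw z) = 1 := by
  obtain ⟨k1, -, h2⟩ := fill_gauge h' hl hz hE hf
  rw [hw_cyc S hz]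
  exact cyc_hol S.nx z fun e he => (h2 e ((fg_nx hz).2 he)).1

theorem fill_gau (h' : S'.Le T) (hl : Flat T l) (hk : S.Gau T l k) (hz : z ∈ S.B) (hE : 2 * V = 2 + F + (S.hw z).length)
    (hf : S.FillBy S' {d | d ∈ S.hw z} F V) : ∃ k' : D → G, S'.Gau T l k' ∧ ∀ d ∈ S.R, k' d = k d := by
  have hle : S.Le T := sub_le hf.sub h'
  have hH := fg_HUn hz
  obtain ⟨i1, i2, i3, i4⟩ := fv_inv hH hf
  obtain ⟨k1, h1, h2⟩ := fill_gauge h' hl hz hE hf
  have hg : ∀ d ∈ S.hw z, k d = k z * (k1 z)⁻¹ * k1 d := by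
    intro d hd
    obtain ⟨n, -, hn⟩ := ((fg_nx hz).1 hd).exists_pow_eq'
    rw [← hn]
    have key : ∀ n : ℕ, (S.nx ^ n) z ∈ S.hw z ∧ k ((S.nx ^ n) z) = k z * (k1 z)⁻¹ * k1 ((S.nx ^ n) z) := by
      intro n
      induction n with
      | zero =>
        refine ⟨(fg_nx hz).2 (Equiv.Perm.SameCycle.refl _ _), ?_⟩
        rw [pow_zero, Equiv.Perm.one_apply, inv_mul_cancel_right]
      | succ n ih =>
        rw [fg_pow]
        refine ⟨(i2 _).2 ih.1, ?_⟩
        have h3 := ((mem_hw S hz).1 ih.1).1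
        rw [gau_nx hle hl hk h3, (h2 _ ih.1).1, ih.2, mul_assoc]
    exact (key n).2
  have hX : ∀ d ∈ (S'.R \ S.R) ∪ {d | d ∈ S.hw z}, (if d ∈ S.R then k d else k z * (k1 z)⁻¹ * k1 d) =
      k z * (k1 z)⁻¹ * k1 d := by
    rintro d (hd | hd)
    · rw [if_neg hd.2]
    · rw [if_pos (B_sub_R S ((mem_hw S hz).1 hd).1), hg d hd]
  have hXa : ∀ d ∈ (S'.R \ S.R) ∪ {d | d ∈ S.hw z}, k1 (T.a d) = k1 d * l d := by
    rintro d (hd | hd)
    · exact (h1 d hd).2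
    · exact (h2 d hd).2
  refine ⟨fun d => if d ∈ S.R then k d else k z * (k1 z)⁻¹ * k1 d, ⟨fun d hd => ?_, fun d hd hd' => ?_⟩, fun d hd => if_pos hd⟩
  · by_cases hR : d ∈ S.R
    · show (if T.f d ∈ S.R then k (T.f d) else _) = (if d ∈ S.R then k d else _) * l d
      rw [if_pos ((le_f_mem hle d).2 hR), if_pos hR]
      exact hk.f d hR
    · show (if T.f d ∈ S.R then _ else k z * (k1 z)⁻¹ * k1 (T.f d)) = (if d ∈ S.R then _ else k z * (k1 z)⁻¹ * k1 d) * l d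
      rw [if_neg (fun h3 => hR ((le_f_mem hle d).1 h3)), if_neg hR, (h1 d ⟨hd, hR⟩).1]
      simp only [mul_assoc]
  · have hcases : (d ∈ S.R ∧ d ∉ S.B) ∨ d ∈ (S'.R \ S.R) ∪ {d | d ∈ S.hw z} := by
      by_cases hR : d ∈ S.R
      · by_cases hB : d ∈ S.B
        · right
          right
          by_contra h3
          rw [hf.B] at hd'
          exact hd' ⟨hB, h3⟩
        · exact Or.inl ⟨hR, hB⟩
      · exact Or.inr (Or.inl ⟨hd, hR⟩)
    rcases hcases with ⟨hR, hB⟩ | hdX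
    · have h3 : S.a d ≠ d := fun h4 => hB ⟨hR, h4⟩
      have h4 : T.a d ∈ S.R := by
        rw [hle.2 d h3]
        exact (mem_R_a S d).2 hR
      show (if T.a d ∈ S.R then k (T.a d) else _) = (if d ∈ S.R then k d else _) * l d
      rw [if_pos h4, if_pos hR]
      exact hk.a d hR hB
    · have h3 : T.a d ∈ (S'.R \ S.R) ∪ {d | d ∈ S.hw z} := by
        rw [h'.2 d (i4 d hdX)]
        exact (i3 d).2 hdX
      show (if T.a d ∈ S.R then k (T.a d) else k z * (k1 z)⁻¹ * k1 (T.a d)) =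
        (if d ∈ S.R then k d else k z * (k1 z)⁻¹ * k1 d) * l d
      rw [hX _ h3, hX d hdX, hXa d hdX]
      simp only [mul_assoc]

end Part
end SYS
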