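import Pool.Agent.SYS.LT.RetX

/-!
# SYS-LT-SwapL: a permutation multiplied by a transposition on the left

PLAN.  `(swap x y * σ)⁻¹ = σ⁻¹ * swap x y`, and `SameCycle` for a permutation and its inverse is the same relation (`Equiv.Perm.sameCycle_inv`), so everything follows from
`SST.sameCycle_swap_diff`, `sameCycle_swap_same`, `not_sameCycle_swap`, `sameCycle_swap_other`, `ncyc_swap_diff`, `ncyc_swap_same` (`Pool/Agent/SST/S/NCyc.lean`).
* `swapL_old`: `σ = swap x y * (swap x y * σ)`, in `τ := swap x y * σ` the elements `x`, `y` are in different cycles (`swapL_not`), so `swapL_diff` for `τ` gives: `σ.SameCycle u v` iff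
  `τ.SameCycle u v` or both in the union of the `τ`-cycles of `x` and `y`.
* `swapL_nc`, `swapL_nc'`: `ncyc_split` for both permutations and `X` (`x, y ∈ X`, so `X` is invariant under `swap x y * σ` too; off `X` they agree: `ncycOn_congr`), and the statements for `ncyc`
  (`ncyc σ = ncyc σ⁻¹`: the setoids are equal).
* `swap_path`: let `j` be the least positive number with `(σ ^ j) x = y` (exists: `x ≠ y`, finite); for `0 < i < j`: `(σ ^ i) x ≠ x` (otherwise a smaller `j`) and `≠ y`.  Then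
  `((swap x y * σ) ^ i) x = (σ ^ i) x` for `i < j` by induction and the `j`-th power gives `swap x y y = x`.
-/

namespace SYS
namespace Vm

open Classical SST

variable {D : Type} [Finite D]

private theorem swapL_inv (σ : Equiv.Perm D) (x y : D) : (Equiv.swap x y * σ)⁻¹ = σ⁻¹ * Equiv.swap x y := by
  rw [mul_inv_rev, Equiv.swap_inv]

private theorem swapL_sc (σ : Equiv.Perm D) (x y u v : D) :
    (Equiv.swap x y * σ).SameCycle u v ↔ (σ⁻¹ * Equiv.swap x y).SameCycle u v := by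
  rw [← swapL_inv, Equiv.Perm.sameCycle_inv]

private theorem swapL_ncyc_inv (σ : Equiv.Perm D) : ncyc σ⁻¹ = ncyc σ := by
  have h : Equiv.Perm.SameCycle.setoid σ⁻¹ = Equiv.Perm.SameCycle.setoid σ :=
    Setoid.ext fun a b => Equiv.Perm.sameCycle_inv
  unfold ncyc
  rw [h]

private theorem swapL_step (τ : Equiv.Perm D) (u : D) (n : ℕ) : τ.SameCycle u ((τ ^ n) u) :=
  ⟨(n : ℤ), by rw [zpow_natCast]⟩

private theorem swapL_nat {τ : Equiv.Perm D} {u v : D} (h : τ.SameCycle u v) : ∃ n : ℕ, (τ ^ n) u = v := by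
  obtain ⟨n, hn⟩ := h.exists_pow_eq'
  exact ⟨n, hn.2⟩

theorem swapL_diff (σ : Equiv.Perm D) {x y : D} (h : ¬ σ.SameCycle x y) (u v : D) :
    (Equiv.swap x y * σ).SameCycle u v ↔ σ.SameCycle u v ∨
      ((σ.SameCycle x u ∨ σ.SameCycle y u) ∧ (σ.SameCycle x v ∨ σ.SameCycle y v)) := by
  have h1 : ¬ (σ⁻¹).SameCycle x y := fun h2 => h (Equiv.Perm.sameCycle_inv.1 h2)
  rw [swapL_sc, sameCycle_swap_diff σ⁻¹ h1 u v]
  simp only [Equiv.Perm.sameCycle_inv]

theorem swapL_same (σ : Equiv.Perm D) {x y : D} (h : σ.SameCycle x y) {u v : D}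
    (h' : (Equiv.swap x y * σ).SameCycle u v) : σ.SameCycle u v := by
  rw [swapL_sc] at h'
  exact Equiv.Perm.sameCycle_inv.1 (sameCycle_swap_same σ⁻¹ (Equiv.Perm.sameCycle_inv.2 h) h')

theorem swapL_not (σ : Equiv.Perm D) {x y : D} (hne : x ≠ y) (h : σ.SameCycle x y) :
    ¬ (Equiv.swap x y * σ).SameCycle x y := by
  rw [swapL_sc]
  exact not_sameCycle_swap σ⁻¹ hne (Equiv.Perm.sameCycle_inv.2 h)

theorem swapL_old (σ : Equiv.Perm D) {x y : D} (hne : x ≠ y) (h : σ.SameCycle x y) (u v : D) :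
    σ.SameCycle u v ↔ (Equiv.swap x y * σ).SameCycle u v ∨
      (((Equiv.swap x y * σ).SameCycle x u ∨ (Equiv.swap x y * σ).SameCycle y u) ∧
        ((Equiv.swap x y * σ).SameCycle x v ∨ (Equiv.swap x y * σ).SameCycle y v)) := by
  have h1 := swapL_diff (Equiv.swap x y * σ) (swapL_not σ hne h) u v
  rw [← mul_assoc, Equiv.swap_mul_self, one_mul] at h1
  exact h1

private theorem swapL_X {σ : Equiv.Perm D} {X : Set D} (hX : ∀ d, σ d ∈ X ↔ d ∈ X) {x y : D} (hx : x ∈ X) (hy : y ∈ X) :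
    ∀ d, (Equiv.swap x y * σ) d ∈ X ↔ d ∈ X := by
  intro d
  rw [Equiv.Perm.mul_apply, ← hX d]
  by_cases h1 : σ d = x
  · rw [h1, Equiv.swap_apply_left]
    exact ⟨fun _ => hx, fun _ => hy⟩
  · by_cases h2 : σ d = y
    · rw [h2, Equiv.swap_apply_right]
      exact ⟨fun _ => hy, fun _ => hx⟩
    · rw [Equiv.swap_apply_of_ne_of_ne h1 h2]

private theorem swapL_off {σ : Equiv.Perm D} {X : Set D} (hX : ∀ d, σ d ∈ X ↔ d ∈ X) {x y : D} (hx : x ∈ X) (hy : y ∈ X) :
    ncycOn (Equiv.swap x y * σ) Xᶜ = ncycOn σ Xᶜ := by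
  refine ncycOn_congr (fun d => ?_) fun d hd => ?_
  · rw [Set.mem_compl_iff, Set.mem_compl_iff, hX d]
  · have h1 : σ d ∉ X := fun h => hd ((hX d).1 h)
    rw [Equiv.Perm.mul_apply]
    exact Equiv.swap_apply_of_ne_of_ne (fun h => h1 (h ▸ hx)) (fun h => h1 (h ▸ hy))

theorem swapL_nc (σ : Equiv.Perm D) {X : Set D} (hX : ∀ d, σ d ∈ X ↔ d ∈ X) {x y : D} (hx : x ∈ X) (hy : y ∈ X) (hne : x ≠ y)
    (h : σ.SameCycle x y) : ncycOn (Equiv.swap x y * σ) X = ncycOn σ X + 1 := by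
  have h1 : ncyc (Equiv.swap x y * σ) = ncyc σ + 1 := by
    rw [← swapL_ncyc_inv, swapL_inv, ncyc_swap_same σ⁻¹ hne (Equiv.Perm.sameCycle_inv.2 h), swapL_ncyc_inv]
  have h2 := ncyc_split σ hX
  have h3 := ncyc_split (Equiv.swap x y * σ) (swapL_X hX hx hy)
  have h4 := swapL_off hX hx hy
  omega

theorem swapL_nc' (σ : Equiv.Perm D) {X : Set D} (hX : ∀ d, σ d ∈ X ↔ d ∈ X) {x y : D} (hx : x ∈ X) (hy : y ∈ X)
    (h : ¬ σ.SameCycle x y) : ncycOn (Equiv.swap x y * σ) X + 1 = ncycOn σ X := by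
  have h1 : ncyc (Equiv.swap x y * σ) + 1 = ncyc σ := by
    rw [← swapL_ncyc_inv, swapL_inv,
      ncyc_swap_diff σ⁻¹ (fun h2 => h (Equiv.Perm.sameCycle_inv.1 h2)), swapL_ncyc_inv]
  have h2 := ncyc_split σ hX
  have h3 := ncyc_split (Equiv.swap x y * σ) (swapL_X hX hx hy)
  have h4 := swapL_off hX hx hy
  omega

/-- The cycle of `x` after the swap is the old path from `x` to `y`. -/
theorem swap_path (σ : Equiv.Perm D) {x y : D} (hne : x ≠ y) (h : σ.SameCycle x y) :
    ∃ j : ℕ, 0 < j ∧ (σ ^ j) x = y ∧ (∀ i < j, (σ ^ i) x ≠ y) ∧ ((Equiv.swap x y * σ) ^ j) x = x ∧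
      (∀ i < j, ((Equiv.swap x y * σ) ^ i) x = (σ ^ i) x) ∧
      ∀ e, (Equiv.swap x y * σ).SameCycle x e ↔ ∃ i < j, (σ ^ i) x = e := by
  have hex : ∃ n : ℕ, (σ ^ n) x = y := swapL_nat h
  have hk := Nat.find_spec hex
  have hmin : ∀ i, i < Nat.find hex → (σ ^ i) x ≠ y := fun i hi he => Nat.find_min hex hi he
  generalize Nat.find hex = j at hk hmin
  have hj0 : 0 < j := by
    rcases Nat.eq_zero_or_pos j with h0 | h0
    · rw [h0, pow_zero] at hk
      exact absurd hk hne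
    · exact h0
  have hx : ∀ i, 0 < i → i ≤ j → (σ ^ i) x ≠ x := by
    intro i hi hij he
    have e : (σ ^ (j - i)) x = y := by
      have h1 : (σ ^ (j - i + i)) x = y := by
        rw [Nat.sub_add_cancel hij]
        exact hk
      rw [pow_add, Equiv.Perm.mul_apply, he] at h1
      exact h1
    exact hmin _ (by omega) e
  have hpow : ∀ i < j, ((Equiv.swap x y * σ) ^ i) x = (σ ^ i) x := by
    intro i
    induction i with
    | zero => intro _; rfl
    | succ i ih =>
      intro hi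
      have e1 : ((Equiv.swap x y * σ) ^ (i + 1)) x =
          (Equiv.swap x y * σ) (((Equiv.swap x y * σ) ^ i) x) := by
        rw [pow_succ', Equiv.Perm.mul_apply]
      have e2 : (σ ^ (i + 1)) x = σ ((σ ^ i) x) := by
        rw [pow_succ', Equiv.Perm.mul_apply]
      rw [e1, ih (by omega), Equiv.Perm.mul_apply, ← e2]
      exact Equiv.swap_apply_of_ne_of_ne (hx _ (Nat.succ_pos _) hi.le) (hmin _ hi)
  have hclose : ((Equiv.swap x y * σ) ^ j) x = x := by
    obtain ⟨m, rfl⟩ : ∃ m, j = m + 1 := ⟨j - 1, by omega⟩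
    have e1 : ((Equiv.swap x y * σ) ^ (m + 1)) x =
        (Equiv.swap x y * σ) (((Equiv.swap x y * σ) ^ m) x) := by
      rw [pow_succ', Equiv.Perm.mul_apply]
    have e2 : (σ ^ (m + 1)) x = σ ((σ ^ m) x) := by
      rw [pow_succ', Equiv.Perm.mul_apply]
    rw [e1, hpow m (Nat.lt_succ_self m), Equiv.Perm.mul_apply, ← e2, hk, Equiv.swap_apply_right]
  refine ⟨j, hj0, hk, hmin, hclose, hpow, fun e => ⟨fun he => ?_, ?_⟩⟩
  · obtain ⟨n, hn⟩ := swapL_nat he
    refine ⟨n % j, Nat.mod_lt n hj0, ?_⟩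
    rw [← hpow _ (Nat.mod_lt n hj0), ← hn]
    have h1 : ∀ k : ℕ, ((Equiv.swap x y * σ) ^ (j * k)) x = x := by
      intro k
      induction k with
      | zero => rfl
      | succ k ih => rw [Nat.mul_succ, pow_add, Equiv.Perm.mul_apply, hclose, ih]
    have h2 : ((Equiv.swap x y * σ) ^ n) x = ((Equiv.swap x y * σ) ^ (n % j + j * (n / j))) x := by
      rw [Nat.mod_add_div]
    rw [h2, pow_add, Equiv.Perm.mul_apply, h1]
  · rintro ⟨i, hi, rfl⟩
    rw [← hpow i hi]
    exact swapL_step _ x i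

/-- Distinct elements of the path. -/
theorem path_inj (σ : Equiv.Perm D) {x y : D} {j : ℕ} (hj : (σ ^ j) x = y) (h : ∀ i < j, (σ ^ i) x ≠ y) : ((List.range j).map fun i => (σ ^ i) x).Nodup := by
  refine List.Nodup.map_on ?_ List.nodup_range
  have key : ∀ a b, a < b → b < j → (σ ^ a) x ≠ (σ ^ b) x := by
    intro a b hab hb he
    have e : (σ ^ (j - b + a)) x = y := by
      rw [pow_add, Equiv.Perm.mul_apply, he, ← Equiv.Perm.mul_apply, ← pow_add, Nat.sub_add_cancel hb.le]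
      exact hj
    exact h _ (by omega) e
  intro a ha b hb he
  rw [List.mem_range] at ha hb
  rcases lt_trichotomy a b with h1 | h1 | h1
  · exact absurd he (key a b h1 hb)
  · exact h1
  · exact absurd he.symm (key b a h1 ha)

end Vm
end SYS
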