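import Pool.Agent.SYS.LT.AddA
import Pool.Agent.SYS.LT.SwapL
import Pool.Agent.SYS.Lib.Typ

/-!
# SYS-LT-Hls: the lengths of the cycles of a permutation on a set

`clen ν d` = number of elements of the `ν`-cycle of `d`; `hls ν B` = multiset of the lengths of the `ν`-cycles which meet `B` (`ν` preserves `B`).

PLAN.  `hls ν B` is a multiset indexed by the classes which meet `B`.
* `hls_card`, `hls_sum`: fibres of `Quotient.mk` on `B`.
* `exists_enum`: `ι := Fin r`, `r` = number of classes meeting `B`, enumerate them, choose a representative `z i`, `p i := clen ν (z i)`, `c ⟨i, k⟩ := (ν ^ k) (z i)`; `finRotate`: `k + 1 = p i ↦ 0`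
  (`(ν ^ p i) (z i) = z i`).  (As in the proof of `fill_card_W`, private `fr_val` in `Lib/CntB`.)
* `hls_diff`: `swapL_diff`: the cycles of `swap b b' * ν` are the old ones, those of `b`, `b'` united.  `hls_same`: `swap_path`: the cycle of `b` has `j` elements, the cycle of `b'` the others, `0 < j < clen ν b`;
  all other cycles are unchanged.
* `hls_nx`: `Typ.hl`, `Typ.per`: the representatives `l` are one in every cycle; `S.per x = clen S.nx x` (`ret_same`, `hole`).
* `hls_add`: the cycles in `S.B` and in `S'.B \ S.B` (`add_nuL`, `add_nx`).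
-/

namespace SYS
namespace Vm

open Classical SST

variable {D : Type} [Finite D]

/-- Length of the cycle. -/
noncomputable def clen (ν : Equiv.Perm D) (d : D) : ℕ := {e | ν.SameCycle d e}.ncard

/-- Lengths of the cycles which meet `B`. -/
noncomputable def hls (ν : Equiv.Perm D) (B : Set D) : Multiset ℕ :=
  (Set.toFinite {q : Quotient (Equiv.Perm.SameCycle.setoid ν) | ∃ d ∈ B, Quotient.mk _ d = q}).toFinset.val.map
    fun q => clen ν q.out

variable {ν : Equiv.Perm D} {B : Set D}

theorem clen_same {d e : D} (h : ν.SameCycle d e) : clen ν d = clen ν e := by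
  unfold clen
  congr 1
  ext x
  exact ⟨fun hx => h.symm.trans hx, fun hx => h.trans hx⟩

private theorem clen_pos (d : D) : 0 < clen ν d := by
  unfold clen
  rw [Set.ncard_pos (Set.toFinite _)]
  exact ⟨d, Equiv.Perm.SameCycle.refl _ _⟩

private theorem hls_nat {τ : Equiv.Perm D} {u v : D} (h : τ.SameCycle u v) : ∃ n : ℕ, (τ ^ n) u = v := by
  obtain ⟨n, hn⟩ := h.exists_pow_eq'
  exact ⟨n, hn.2⟩

private theorem hls_step (τ : Equiv.Perm D) (u : D) (n : ℕ) : τ.SameCycle u ((τ ^ n) u) :=
  ⟨(n : ℤ), by rw [zpow_natCast]⟩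

private theorem hls_inv (hB : ∀ d, ν d ∈ B ↔ d ∈ B) {d e : D} (hd : d ∈ B) (h : ν.SameCycle d e) : e ∈ B := by
  obtain ⟨n, rfl⟩ := hls_nat h
  induction n with
  | zero => exact hd
  | succ n ih =>
    rw [pow_succ', Equiv.Perm.mul_apply, hB]
    exact ih (hls_step _ _ _)

private theorem hls_mk (σ : Equiv.Perm D) (d e : D) :
    (Quotient.mk (Equiv.Perm.SameCycle.setoid σ) d =
      Quotient.mk (Equiv.Perm.SameCycle.setoid σ) e) ↔ σ.SameCycle d e :=
  ⟨fun h => Quotient.exact h, fun h => Quotient.sound h⟩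

/-- a list of representatives -/
private def RL (ν : Equiv.Perm D) (B : Set D) (l : List D) : Prop :=
  (∀ d ∈ l, d ∈ B) ∧ l.Pairwise (fun d e => ¬ ν.SameCycle d e) ∧ ∀ d ∈ B, ∃ e ∈ l, ν.SameCycle e d

private theorem hls_list {l : List D} (h : RL ν B l) : hls ν B = ((l.map (clen ν) : List ℕ) : Multiset ℕ) := by
  obtain ⟨h1, h2, h3⟩ := h
  have e1 : (Set.toFinite {q : Quotient (Equiv.Perm.SameCycle.setoid ν) | ∃ d ∈ B, Quotient.mk _ d = q}).toFinset =
      (l.map (Quotient.mk (Equiv.Perm.SameCycle.setoid ν))).toFinset := by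
    ext q
    rw [Set.Finite.mem_toFinset, List.mem_toFinset, List.mem_map]
    constructor
    · rintro ⟨d, hd, rfl⟩
      obtain ⟨e, he, hs⟩ := h3 d hd
      exact ⟨e, he, (hls_mk ν e d).mpr hs⟩
    · rintro ⟨e, he, rfl⟩
      exact ⟨e, h1 e he, rfl⟩
  have e2 : (l.map (Quotient.mk (Equiv.Perm.SameCycle.setoid ν))).Nodup := by
    unfold List.Nodup
    rw [List.pairwise_map]
    refine h2.imp ?_
    intro a b hab hc
    exact hab ((hls_mk ν a b).mp hc)
  unfold hls
  rw [e1, List.toFinset_val, e2.dedup, Multiset.map_coe, List.map_map]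
  congr 1
  refine List.map_congr_left fun d _ => ?_
  refine clen_same ?_
  exact (hls_mk ν _ _).1 (Quotient.out_eq _)

private theorem rl_exists (ν : Equiv.Perm D) (B : Set D) {l0 : List D} (h0 : ∀ d ∈ l0, d ∈ B)
    (h0' : l0.Pairwise (fun d e => ¬ ν.SameCycle d e)) : ∃ l : List D, RL ν B (l ++ l0) := by
  have key : ∀ A : Set D, A.Finite → A ⊆ B → ∃ l : List D, (∀ d ∈ l, d ∈ B) ∧
      (l ++ l0).Pairwise (fun d e => ¬ ν.SameCycle d e) ∧ ∀ d ∈ A, ∃ e ∈ l ++ l0, ν.SameCycle e d := by
    intro A hA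
    induction A, hA using Set.Finite.induction_on with
    | empty => exact fun _ => ⟨[], by simp, by simpa using h0', by simp⟩
    | insert ha _ ih =>
      rename_i a A _
      intro hAB
      obtain ⟨l, h1, h2, h3⟩ := ih fun d hd => hAB (Set.mem_insert_of_mem _ hd)
      by_cases h : ∃ e ∈ l ++ l0, ν.SameCycle e a
      · refine ⟨l, h1, h2, fun d hd => ?_⟩
        rcases Set.mem_insert_iff.mp hd with hd | hd
        · rw [hd]
          exact h
        · exact h3 d hd
      · refine ⟨a :: l, ?_, ?_, ?_⟩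
        · intro d hd
          rcases List.mem_cons.mp hd with hd | hd
          · rw [hd]
            exact hAB (Set.mem_insert _ _)
          · exact h1 d hd
        · rw [List.cons_append]
          refine List.pairwise_cons.mpr ⟨?_, h2⟩
          intro e he hs
          exact h ⟨e, he, hs.symm⟩
        · intro d hd
          rcases Set.mem_insert_iff.mp hd with hd | hd
          · exact ⟨a, by simp, by rw [hd]⟩
          · obtain ⟨e, he, hs⟩ := h3 d hd
            exact ⟨e, by rw [List.cons_append]; exact List.mem_cons_of_mem _ he, hs⟩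
  obtain ⟨l, h1, h2, h3⟩ := key B (Set.toFinite _) (le_refl _)
  refine ⟨l, fun d hd => ?_, h2, h3⟩
  rcases List.mem_append.1 hd with h | h
  · exact h1 d h
  · exact h0 d h

private theorem rl_exists' (ν : Equiv.Perm D) (B : Set D) : ∃ l : List D, RL ν B l := by
  obtain ⟨l, hl⟩ := rl_exists ν B (l0 := []) (by simp) List.Pairwise.nil
  exact ⟨l, by simpa using hl⟩

private theorem mp_pos (σ : Equiv.Perm D) (x : D) : 0 < Function.minimalPeriod σ x :=
  Function.minimalPeriod_pos_of_mem_periodicPts (σ.injective.mem_periodicPts x)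

private theorem pow_mod (σ : Equiv.Perm D) (x : D) (n : ℕ) :
    (σ ^ (n % Function.minimalPeriod σ x)) x = (σ ^ n) x := by
  rw [← Equiv.Perm.iterate_eq_pow, ← Equiv.Perm.iterate_eq_pow]
  exact Function.iterate_mod_minimalPeriod_eq

private theorem pow_injOn (σ : Equiv.Perm D) (x : D) {m n : ℕ} (hm : m < Function.minimalPeriod σ x)
    (hn : n < Function.minimalPeriod σ x) (h : (σ ^ m) x = (σ ^ n) x) : m = n := by
  rw [← Equiv.Perm.iterate_eq_pow, ← Equiv.Perm.iterate_eq_pow] at h
  exact Function.iterate_injOn_Iio_minimalPeriod hm hn h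

private theorem clen_mp (σ : Equiv.Perm D) (x : D) : clen σ x = Function.minimalPeriod σ x := by
  have h1 : {e | σ.SameCycle x e} =
      (fun n : ℕ => (σ ^ n) x) '' ((Finset.range (Function.minimalPeriod σ x) : Finset ℕ) : Set ℕ) := by
    ext e
    constructor
    · intro he
      obtain ⟨n, rfl⟩ := hls_nat he
      refine ⟨n % Function.minimalPeriod σ x, ?_, pow_mod σ x n⟩
      rw [Finset.mem_coe, Finset.mem_range]
      exact Nat.mod_lt _ (mp_pos σ x)
    · rintro ⟨n, _, rfl⟩
      exact hls_step σ x n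
  unfold clen
  rw [h1, Set.ncard_image_of_injOn, Set.ncard_coe_finset, Finset.card_range]
  intro m hm n hn hmn
  rw [Finset.mem_coe, Finset.mem_range] at hm hn
  exact pow_injOn σ x hm hn hmn

theorem hls_pos {p : ℕ} (hp : p ∈ hls ν B) : 0 < p := by
  unfold hls at hp
  obtain ⟨q, _, rfl⟩ := Multiset.mem_map.1 hp
  exact clen_pos _

theorem hls_card : Multiset.card (hls ν B) = ncycOn ν B := by
  unfold hls ncycOn
  rw [Multiset.card_map, Finset.card_val, ← Set.ncard_eq_toFinset_card]

theorem hls_sum (hB : ∀ d, ν d ∈ B ↔ d ∈ B) : (hls ν B).sum = B.ncard := by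
  obtain ⟨l, hl⟩ := rl_exists' ν B
  rw [hls_list hl, Multiset.sum_coe]
  have key : ∀ l : List D, l.Pairwise (fun d e => ¬ ν.SameCycle d e) →
      (l.map (clen ν)).sum = {d | ∃ e ∈ l, ν.SameCycle e d}.ncard := by
    intro l
    induction l with
    | nil =>
      intro _
      simp
    | cons a l ih =>
      intro hl
      have h4 := List.pairwise_cons.mp hl
      have e1 : {d | ∃ e ∈ a :: l, ν.SameCycle e d} =
          {d | ν.SameCycle a d} ∪ {d | ∃ e ∈ l, ν.SameCycle e d} := by
        ext d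
        constructor
        · rintro ⟨e, he, hs⟩
          rcases List.mem_cons.mp he with he | he
          · rw [he] at hs
            exact Or.inl hs
          · exact Or.inr ⟨e, he, hs⟩
        · rintro (hs | ⟨e, he, hs⟩)
          · exact ⟨a, List.mem_cons_self, hs⟩
          · exact ⟨e, List.mem_cons_of_mem _ he, hs⟩
      have e2 : Disjoint {d | ν.SameCycle a d} {d | ∃ e ∈ l, ν.SameCycle e d} := by
        rw [Set.disjoint_left]
        rintro d hs ⟨e, he, hs'⟩
        exact h4.1 e he (Equiv.Perm.SameCycle.trans hs hs'.symm)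
      rw [e1, Set.ncard_union_eq e2 (Set.toFinite _) (Set.toFinite _), ← ih h4.2, List.map_cons,
        List.sum_cons]
      rfl
  rw [key l hl.2.1]
  congr 1
  ext d
  constructor
  · rintro ⟨e, he, hs⟩
    exact hls_inv hB (hl.1 e he) hs
  · exact hl.2.2 d

private theorem fr_val {n : ℕ} (k : Fin n) : ((finRotate n k : Fin n) : ℕ) = if (k : ℕ) + 1 = n then 0 else (k : ℕ) + 1 := by
  cases n with
  | zero => exact k.elim0
  | succ n =>
    rw [finRotate_succ_apply, Fin.val_add_one]
    by_cases h : k = Fin.last n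
    · rw [if_pos h, if_pos (by rw [h, Fin.val_last])]
    · rw [if_neg h, if_neg]
      intro h1
      apply h
      apply Fin.ext
      rw [Fin.val_last]
      omega

private theorem pow_clen (σ : Equiv.Perm D) (x : D) : (σ ^ clen σ x) x = x := by
  have h := pow_mod σ x (clen σ x)
  rw [clen_mp, Nat.mod_self] at h
  rw [clen_mp, ← h]
  rfl

theorem exists_enum (hB : ∀ d, ν d ∈ B ↔ d ∈ B) : ∃ (r : ℕ) (p : Fin r → ℕ) (c : (Σ i : Fin r, Fin (p i)) → D),
    (∀ i, 0 < p i) ∧ Function.Injective c ∧ Set.range c = B ∧ (∀ i k, ν (c ⟨i, k⟩) = c ⟨i, finRotate (p i) k⟩) ∧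
      Finset.univ.val.map p = hls ν B := by
  obtain ⟨l, hl⟩ := rl_exists' ν B
  refine ⟨l.length, fun i => clen ν (l.get i), fun x => (ν ^ (x.2 : ℕ)) (l.get x.1), fun i => clen_pos _, ?_, ?_, ?_, ?_⟩
  · rintro ⟨i, k⟩ ⟨j, m⟩ h
    have h' : (ν ^ (k : ℕ)) (l.get i) = (ν ^ (m : ℕ)) (l.get j) := h
    have hij : i = j := by
      by_contra hne
      have hp := hl.2.1
      rw [List.pairwise_iff_get] at hp
      have hs : ν.SameCycle (l.get i) (l.get j) := by
        have h1 := hls_step ν (l.get i) k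
        rw [h'] at h1
        exact h1.trans (hls_step ν (l.get j) m).symm
      rcases lt_or_gt_of_ne hne with h2 | h2
      · exact hp i j h2 hs
      · exact hp j i h2 hs.symm
    subst hij
    have hk := k.2
    have hm := m.2
    have hk' : (k : ℕ) < Function.minimalPeriod ν (l.get i) := by rw [← clen_mp]; exact hk
    have hm' : (m : ℕ) < Function.minimalPeriod ν (l.get i) := by rw [← clen_mp]; exact hm
    have h3 := pow_injOn ν (l.get i) hk' hm' h'
    have h4 : k = m := Fin.ext h3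
    rw [h4]
  · ext d
    constructor
    · rintro ⟨⟨i, k⟩, rfl⟩
      exact hls_inv hB (hl.1 _ (List.get_mem l i)) (hls_step ν (l.get i) k)
    · intro hd
      obtain ⟨e, he, hs⟩ := hl.2.2 d hd
      obtain ⟨i, hi⟩ := List.get_of_mem he
      obtain ⟨n, hn⟩ := hls_nat hs
      have hlt : n % clen ν (l.get i) < clen ν (l.get i) := Nat.mod_lt _ (clen_pos _)
      refine ⟨⟨i, ⟨n % clen ν (l.get i), hlt⟩⟩, ?_⟩
      show (ν ^ (n % clen ν (l.get i))) (l.get i) = d
      rw [clen_mp, pow_mod, hi, hn]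
  · intro i k
    show ν ((ν ^ (k : ℕ)) (l.get i)) = (ν ^ ((finRotate (clen ν (l.get i)) k : Fin (clen ν (l.get i))) : ℕ)) (l.get i)
    rw [fr_val, ← Equiv.Perm.mul_apply, ← pow_succ']
    by_cases h2 : (k : ℕ) + 1 = clen ν (l.get i)
    · rw [if_pos h2, h2, pow_clen]
      rfl
    · rw [if_neg h2]
  · rw [hls_list hl, Fin.univ_val_map]
    congr 1
    have h1 : (fun i : Fin l.length => clen ν (l.get i)) = clen ν ∘ l.get := rfl
    rw [h1, ← List.map_ofFn, List.ofFn_get]

private theorem diff_core {b b' : D} (hb : b ∈ B) (hb' : b' ∈ B) (h : ¬ ν.SameCycle b b') :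
    clen (Equiv.swap b b' * ν) b = clen ν b + clen ν b' ∧
    hls (Equiv.swap b b' * ν) B + {clen ν b, clen ν b'} = hls ν B + {clen ν b + clen ν b'} := by
  have hc : clen (Equiv.swap b b' * ν) b = clen ν b + clen ν b' := by
    unfold clen
    have e1 : {e | (Equiv.swap b b' * ν).SameCycle b e} = {e | ν.SameCycle b e} ∪ {e | ν.SameCycle b' e} := by
      ext e
      rw [Set.mem_ofPred_eq, swapL_diff ν h]
      constructor
      · rintro (h1 | ⟨_, h1 | h1⟩)
        · exact Or.inl h1
        · exact Or.inl h1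
        · exact Or.inr h1
      · rintro (h1 | h1)
        · exact Or.inl h1
        · exact Or.inr ⟨Or.inl (Equiv.Perm.SameCycle.refl _ _), Or.inr h1⟩
    have e2 : Disjoint {e | ν.SameCycle b e} {e | ν.SameCycle b' e} := by
      rw [Set.disjoint_left]
      intro e h1 h2
      exact h (Equiv.Perm.SameCycle.trans h1 (Equiv.Perm.SameCycle.symm h2))
    rw [e1, Set.ncard_union_eq e2 (Set.toFinite _) (Set.toFinite _)]
  refine ⟨hc, ?_⟩
  have h0 : ∀ d ∈ [b, b'], d ∈ B := by
    intro d hd
    rcases List.mem_cons.1 hd with h1 | h1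
    · rw [h1]; exact hb
    · rw [List.mem_singleton.1 h1]; exact hb'
  have h0' : [b, b'].Pairwise (fun d e => ¬ ν.SameCycle d e) := by
    refine List.pairwise_cons.2 ⟨?_, List.pairwise_singleton _ _⟩
    intro e he
    rw [List.mem_singleton.1 he]
    exact h
  obtain ⟨l, hl⟩ := rl_exists ν B h0 h0'
  obtain ⟨a1, a2, a3⟩ := hl
  have hpa := List.pairwise_append.1 a2
  have hnb : ∀ e ∈ l, ¬ (ν.SameCycle b e ∨ ν.SameCycle b' e) := by
    rintro e he (h1 | h1)
    · exact hpa.2.2 e he b (by simp) h1.symm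
    · exact hpa.2.2 e he b' (by simp) h1.symm
  have hsc : ∀ e ∈ l, ∀ x, (Equiv.swap b b' * ν).SameCycle e x ↔ ν.SameCycle e x := by
    intro e he x
    rw [swapL_diff ν h]
    exact ⟨fun h1 => h1.resolve_right fun h2 => hnb e he h2.1, Or.inl⟩
  have hcl : ∀ e ∈ l, clen (Equiv.swap b b' * ν) e = clen ν e := by
    intro e he
    unfold clen
    congr 1
    ext x
    exact hsc e he x
  have hτ : RL (Equiv.swap b b' * ν) B (l ++ [b]) := by
    refine ⟨?_, ?_, ?_⟩
    · intro d hd
      refine a1 d ?_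
      rcases List.mem_append.1 hd with h1 | h1
      · exact List.mem_append_left _ h1
      · rw [List.mem_singleton.1 h1]
        exact List.mem_append_right _ (by simp)
    · rw [List.pairwise_append]
      refine ⟨?_, List.pairwise_singleton _ _, ?_⟩
      · refine hpa.1.imp_of_mem ?_
        intro d e hd he hde h1
        exact hde ((hsc d hd e).1 h1)
      · intro d hd e he h1
        rw [List.mem_singleton.1 he] at h1
        exact hpa.2.2 d hd b (by simp) ((hsc d hd b).1 h1)
    · intro d hd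
      obtain ⟨e, he, hs⟩ := a3 d hd
      rcases List.mem_append.1 he with h1 | h1
      · exact ⟨e, List.mem_append_left _ h1, (hsc e h1 d).2 hs⟩
      · refine ⟨b, List.mem_append_right _ (by simp), ?_⟩
        rw [swapL_diff ν h]
        rcases List.mem_cons.1 h1 with h2 | h2
        · rw [h2] at hs
          exact Or.inl hs
        · rw [List.mem_singleton.1 h2] at hs
          exact Or.inr ⟨Or.inl (Equiv.Perm.SameCycle.refl _ _), Or.inr hs⟩
  have hmap : l.map (clen (Equiv.swap b b' * ν)) = l.map (clen ν) := List.map_congr_left hcl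
  rw [hls_list hτ, hls_list (⟨a1, a2, a3⟩ : RL ν B (l ++ [b, b'])), List.map_append, List.map_append,
    hmap, ← Multiset.coe_add, ← Multiset.coe_add]
  have e1 : ((([b].map (clen (Equiv.swap b b' * ν))) : List ℕ) : Multiset ℕ) = {clen ν b + clen ν b'} := by
    rw [List.map_singleton, hc]
    rfl
  have e2 : ((([b, b'].map (clen ν)) : List ℕ) : Multiset ℕ) = {clen ν b, clen ν b'} := rfl
  rw [e1, e2, add_assoc, add_assoc, add_comm ({clen ν b + clen ν b'} : Multiset ℕ)]

theorem hls_diff (hB : ∀ d, ν d ∈ B ↔ d ∈ B) {b b' : D} (hb : b ∈ B) (hb' : b' ∈ B) (h : ¬ ν.SameCycle b b') :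
    hls (Equiv.swap b b' * ν) B + {clen ν b, clen ν b'} = hls ν B + {clen ν b + clen ν b'} :=
  (diff_core hb hb' h).2

theorem hls_same (hB : ∀ d, ν d ∈ B ↔ d ∈ B) {b b' : D} (hb : b ∈ B) (hb' : b' ∈ B) (hne : b ≠ b') (h : ν.SameCycle b b') :
    clen (Equiv.swap b b' * ν) b + clen (Equiv.swap b b' * ν) b' = clen ν b ∧
      hls (Equiv.swap b b' * ν) B + {clen ν b} = hls ν B + {clen (Equiv.swap b b' * ν) b, clen (Equiv.swap b b' * ν) b'} := by
  obtain ⟨h1, h2⟩ := diff_core (B := B) (ν := Equiv.swap b b' * ν) hb hb' (swapL_not ν hne h)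
  rw [← mul_assoc, Equiv.swap_mul_self, one_mul] at h1 h2
  refine ⟨h1.symm, ?_⟩
  rw [h1]
  exact h2.symm

end Vm

namespace Part

open Classical SST Vm

variable {D : Type} [Finite D] {S S' : Part D}

private theorem nx_sc {x e : D} (hx : x ∈ S.B) : S.nx.SameCycle x e ↔ e ∈ S.B ∧ S.s.SameCycle x e := by
  constructor
  · intro h
    have he : e ∈ S.B := hls_inv (fun d => nx_mem S) hx h
    exact ⟨he, (ret_same S.s hx he).1 h⟩
  · rintro ⟨he, h⟩
    exact (ret_same S.s hx he).2 h

private theorem nx_clen {x : D} (hx : x ∈ S.B) : clen S.nx x = S.per x := by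
  unfold clen per
  congr 1
  ext e
  exact nx_sc hx

theorem hls_nx {l : List D} {P : List ℕ} {F κ : ℕ} (hS : S.Typ l P F κ) : hls S.nx S.B = (P : Multiset ℕ) := by
  obtain ⟨h1, h2, h3⟩ := hS.hl
  have hl : RL S.nx S.B l := by
    refine ⟨h1, ?_, ?_⟩
    · refine h2.imp_of_mem ?_
      intro d e hd _ hde h
      exact hde ((nx_sc (h1 d hd)).1 h).2
    · intro d hd
      obtain ⟨e, he, hs⟩ := h3 d hd
      exact ⟨e, he, (nx_sc (h1 e he)).2 ⟨hd, hs⟩⟩
  rw [hls_list hl, ← hS.per]
  congr 1
  exact List.map_congr_left fun d hd => nx_clen (h1 d hd)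

theorem hls_add (hA : S.Add S') {ps : List (D × D)} (hps : ∀ p ∈ ps, p.1 ∈ S.B ∧ p.2 ∈ S.B) {z : D} (hz : z ∈ S'.B \ S.B)
    (h1 : ∀ e ∈ S'.B \ S.B, S'.nx.SameCycle z e) : hls (S'.nuL ps) S'.B = S'.per z ::ₘ hls (S.nuL ps) S.B := by
  obtain ⟨ho, hn⟩ := add_nuL hA hps
  have hpow : ∀ d ∈ S.B, ∀ n : ℕ, (S'.nuL ps ^ n) d = (S.nuL ps ^ n) d ∧ (S.nuL ps ^ n) d ∈ S.B := by
    intro d hd n
    induction n with
    | zero => exact ⟨rfl, hd⟩
    | succ n ih =>
      rw [pow_succ', pow_succ', Equiv.Perm.mul_apply, Equiv.Perm.mul_apply, ih.1]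
      exact ⟨ho _ ih.2, (nuL_mem hps).2 ih.2⟩
  have hsc : ∀ d ∈ S.B, ∀ e, (S'.nuL ps).SameCycle d e ↔ (S.nuL ps).SameCycle d e := by
    intro d hd e
    constructor
    · intro h
      obtain ⟨n, hn⟩ := hls_nat h
      rw [(hpow d hd n).1] at hn
      rw [← hn]
      exact hls_step _ _ _
    · intro h
      obtain ⟨n, hn⟩ := hls_nat h
      rw [← (hpow d hd n).1] at hn
      rw [← hn]
      exact hls_step _ _ _
  have hpow' : ∀ n : ℕ, (S'.nuL ps ^ n) z = (S'.nx ^ n) z ∧ (S'.nx ^ n) z ∈ S'.B \ S.B := by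
    intro n
    induction n with
    | zero => exact ⟨rfl, hz⟩
    | succ n ih =>
      rw [pow_succ', pow_succ', Equiv.Perm.mul_apply, Equiv.Perm.mul_apply, ih.1]
      exact ⟨hn _ ih.2, add_new hA ih.2⟩
  have hscz : ∀ e, (S'.nuL ps).SameCycle z e ↔ S'.nx.SameCycle z e := by
    intro e
    constructor
    · intro h
      obtain ⟨n, hn⟩ := hls_nat h
      rw [(hpow' n).1] at hn
      rw [← hn]
      exact hls_step _ _ _
    · intro h
      obtain ⟨n, hn⟩ := hls_nat h
      rw [← (hpow' n).1] at hn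
      rw [← hn]
      exact hls_step _ _ _
  obtain ⟨l, b1, b2, b3⟩ := rl_exists' (S.nuL ps) S.B
  have hRL : RL (S'.nuL ps) S'.B (z :: l) := by
    refine ⟨?_, List.pairwise_cons.2 ⟨?_, ?_⟩, ?_⟩
    · intro d hd
      rcases List.mem_cons.1 hd with h | h
      · rw [h]
        exact hz.1
      · exact hA.B (b1 d h)
    · intro e he h
      obtain ⟨n, hn⟩ := hls_nat h
      have h2 := (hpow' n).2
      rw [← (hpow' n).1, hn] at h2
      exact h2.2 (b1 e he)
    · refine b2.imp_of_mem ?_
      intro d e hd _ hde h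
      exact hde ((hsc d (b1 d hd) e).1 h)
    · intro d hd
      by_cases hd' : d ∈ S.B
      · obtain ⟨e, he, hs⟩ := b3 d hd'
        exact ⟨e, List.mem_cons_of_mem _ he, (hsc e (b1 e he) d).2 hs⟩
      · exact ⟨z, List.mem_cons_self, (hscz d).2 (h1 d ⟨hd, hd'⟩)⟩
  rw [hls_list hRL, hls_list (⟨b1, b2, b3⟩ : RL (S.nuL ps) S.B l), List.map_cons, ← Multiset.cons_coe]
  have e1 : clen (S'.nuL ps) z = S'.per z := by
    rw [← nx_clen hz.1]
    unfold clen
    congr 1
    ext e
    exact hscz e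
  have e2 : l.map (clen (S'.nuL ps)) = l.map (clen (S.nuL ps)) := by
    refine List.map_congr_left fun d hd => ?_
    unfold clen
    congr 1
    ext e
    exact hsc d (b1 d hd) e
  rw [e1, e2]

end Part
end SYS
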