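import Pool.Agent.SYS.LT.Vtx
import Pool.Agent.SYS.LT.Hls

/-!
# SYS-LT-CntV: number of triangulations with given swaps and connected hidden part

PLAN.  `ν := S.nuL ps`, `W := S.Rᶜ`, `H := S.B`, `W ∪ H = S.X`, disjoint.
* `vir_count`: the map `T ↦ (rs T.f W, rs T.a S.X)` is injective on `{T | S.Le T}` (on `S.R` resp. off `S.X` the values of `T` are those of `S`: `S.Le T`) and its values satisfy
  `PairOn W H ν V` (`f_on`: `T.fne`; `a_on`: `T.ane`; `conn`: `VConn`, `f * ν = vphi`, check that a set closed under `f` and `ν` is closed under the product and conversely on `W ∪ H`; `V`: `vir_V` with `vs = f * ν * α`).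
  `pair_card` (`Lib/CntA`) with the enumeration `c` of `exists_enum`.
* `vir_muG`: `exists_enum` for `ν`, `B`; if the set is empty there is nothing to prove; otherwise `V := ncycOn (vs ..) X` of an element satisfies `2 V + 4 h + 2 card = 4 + F + |B|` (`vir_V`, `Typ.eul`, `Typ.vol`, `hls_sum`,
  `hls_nx` and the hypothesis `hh`), so `muG (hls ν B) F h` is by definition the coefficient `V` of `muP`, and `mu p F V = coeff V (muP ..)` by `A.mu_eq` (see the proof of `typ_card` in `Lib/Typ`).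
-/

namespace SYS
namespace Part

open Classical SST Vm

private theorem cv_X {D : Type} (S : Part D) : S.Rᶜ ∪ S.B = S.X := by
  ext d
  exact Iff.rfl

private theorem cv_Rc {D : Type} {S : Part D} {T : Tri D} (h : S.Le T) (d : D) : T.f d ∈ S.Rᶜ ↔ d ∈ S.Rᶜ :=
  not_congr (le_f_mem h d)

theorem vir_count {n g F V : ℕ} (S : Part (Fin (6 * n))) {ps : List (Fin (6 * n) × Fin (6 * n))}
    (hps : ∀ p ∈ ps, p.1 ∈ S.B ∧ p.2 ∈ S.B) {ι : Type} [Fintype ι] (p : ι → ℕ) (hp : ∀ i, 0 < p i)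
    (c : (Σ i : ι, Fin (p i)) → Fin (6 * n)) (hc : Function.Injective c) (hr : Set.range c = S.B)
    (hν : ∀ i k, S.nuL ps (c ⟨i, k⟩) = c ⟨i, finRotate (p i) k⟩) (hF : S.R.ncard + 3 * F = 6 * n)
    (hV : V + S.inn + 2 * g = n + 2 + ps.length) :
    (({T | T ∈ S.Ext g ∧ S.Vir T ps ∧ S.VConn T (S.nuL ps)}.ncard : ℕ) : ℚ) ≤ ((3 * F).factorial : ℚ) * mu p F V := by
  have hW : (S.Rᶜ).ncard = 3 * F := by
    have h1 := Set.ncard_add_ncard_compl S.R
    rw [Nat.card_fin] at h1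
    omega
  have hWH : Disjoint S.Rᶜ S.B := by
    rw [Set.disjoint_left]
    intro d hd hd'
    exact hd (B_sub_R S hd')
  rw [← pair_card hWH hW (nuL_off hps) p hp c hc hr hν V]
  have hfin : Finite (Equiv.Perm (Fin (6 * n)) × Equiv.Perm (Fin (6 * n))) := inferInstance
  have key : {T | T ∈ S.Ext g ∧ S.Vir T ps ∧ S.VConn T (S.nuL ps)}.ncard ≤
      {q : Equiv.Perm (Fin (6 * n)) × Equiv.Perm (Fin (6 * n)) | PairOn S.Rᶜ S.B (S.nuL ps) V q.1 q.2}.ncard := by
    refine Set.ncard_le_ncard_of_injOn (fun T => (rs T.f S.Rᶜ, rs T.a S.X)) ?_ ?_ (Set.toFinite _)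
    · rintro T ⟨hT, hVir, hVC⟩
      have hle : S.Le T := hT.2
      have hf := cv_Rc hle
      have ha := X_a hle
      refine ⟨fun d hd => rs_not_mem hd, fun d hd => ?_, fun d => ?_, fun d hd => ?_, fun d hd => ?_, fun d => ?_, ?_, ?_⟩
      · show rs T.f S.Rᶜ d ≠ d
        rw [rs_mem hf hd]
        exact T.fne d
      · show rs T.f S.Rᶜ (rs T.f S.Rᶜ (rs T.f S.Rᶜ d)) = d
        by_cases hd : d ∈ S.Rᶜ
        · rw [rs_mem hf hd, rs_mem hf ((hf _).2 hd), rs_mem hf ((hf _).2 ((hf _).2 hd)), T.fff]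
        · rw [rs_not_mem hd, rs_not_mem hd, rs_not_mem hd]
      · show rs T.a S.X d = d
        rw [cv_X] at hd
        exact rs_not_mem hd
      · show rs T.a S.X d ≠ d
        rw [cv_X] at hd
        rw [rs_mem ha hd]
        exact T.ane d
      · show rs T.a S.X (rs T.a S.X d) = d
        by_cases hd : d ∈ S.X
        · rw [rs_mem ha hd, rs_mem ha ((ha _).2 hd), T.aa]
        · rw [rs_not_mem hd, rs_not_mem hd]
      · rw [cv_X]
        intro Z hZ hne hcl
        refine hVC Z hZ hne fun d hd => ⟨(hcl d hd).1, ?_⟩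
        exact (hcl _ (hcl d hd).2.2).2.1
      · rw [cv_X]
        have h1 := vir_V hT hVir
        have h2 : ncycOn (S.vs T (S.nuL ps)) S.X = V := by omega
        exact h2
    · rintro T ⟨hT, -, -⟩ T' ⟨hT', -, -⟩ hTT
      obtain ⟨h1, h2⟩ := Prod.mk.inj hTT
      have hle : S.Le T := hT.2
      have hle' : S.Le T' := hT'.2
      refine le_antisymm_R hle hle' (fun d hd => ?_) fun d hd => ?_
      · have h3 := congrArg (fun σ : Equiv.Perm (Fin (6 * n)) => σ d) h1
        rw [rs_mem (cv_Rc hle) (show d ∈ S.Rᶜ from hd), rs_mem (cv_Rc hle') (show d ∈ S.Rᶜ from hd)] at h3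
        exact h3
      · have h3 := congrArg (fun σ : Equiv.Perm (Fin (6 * n)) => σ d) h2
        rw [rs_mem (X_a hle) (show d ∈ S.X from hd), rs_mem (X_a hle') (show d ∈ S.X from hd)] at h3
        exact h3
  exact_mod_cast key

theorem vir_muG {n g h F κ : ℕ} {S : Part (Fin (6 * n))} {l : List (Fin (6 * n))} {P : List ℕ} (hS : S.Typ l P F κ)
    {ps : List (Fin (6 * n) × Fin (6 * n))} (hps : ∀ p ∈ ps, p.1 ∈ S.B ∧ p.2 ∈ S.B)
    (hh : 2 * h + 2 * κ + ps.length + Multiset.card (hls (S.nuL ps) S.B) = 2 * g + P.length) :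
    (({T | T ∈ S.Ext g ∧ S.Vir T ps ∧ S.VConn T (S.nuL ps)}.ncard : ℕ) : ℝ) ≤
      ((3 * F).factorial : ℝ) * Num.muG (hls (S.nuL ps) S.B) F h := by
  have hnn : 0 ≤ Num.muG (hls (S.nuL ps) S.B) F h := by
    unfold Num.muG
    split_ifs
    · exact_mod_cast SYS.A.muP_nonneg _ F _
    · exact le_rfl
  rcases Set.eq_empty_or_nonempty {T | T ∈ S.Ext g ∧ S.Vir T ps ∧ S.VConn T (S.nuL ps)} with he | he
  · rw [he, Set.ncard_empty, Nat.cast_zero]
    exact mul_nonneg (Nat.cast_nonneg _) hnn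
  obtain ⟨T, hT, hVir, -⟩ := he
  have hV := vir_V hT hVir
  have hB : ∀ d, S.nuL ps d ∈ S.B ↔ d ∈ S.B := fun d => nuL_mem hps
  obtain ⟨r, p, c, hp, hc, hr, hν, hm⟩ := exists_enum hB
  have hvol := hS.vol
  rw [Nat.card_fin] at hvol
  have heul := hS.eul
  have hlP : l.length = P.length := by rw [← hS.per, List.length_map]
  have hBs : S.B.ncard = P.sum := by
    rw [← hls_sum (ν := S.nx) (fun d => nx_mem S), hls_nx hS, Multiset.sum_coe]
  have hs : (hls (S.nuL ps) S.B).sum = P.sum := by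
    rw [hls_sum hB, hBs]
  generalize hVV : ncycOn (S.vs T (S.nuL ps)) S.X = V at hV
  have h1 := vir_count (g := g) (F := F) (V := V) S hps p hp c hc hr hν hvol hV
  have hne : Nonempty (Fin r) ∨ 0 < F := by
    rcases hS.ne with h2 | h2
    · left
      obtain ⟨d, hd⟩ := List.exists_mem_of_ne_nil l h2
      have h3 : d ∈ S.B := hS.hl.1 d hd
      rw [← hr] at h3
      obtain ⟨⟨i, k⟩, -⟩ := h3
      exact ⟨i⟩
    · exact Or.inr h2
  rw [A.mu_eq p F V hne, hm] at h1
  have hcard : 2 * V + 4 * h + 2 * Multiset.card (hls (S.nuL ps) S.B) = 4 + F + P.sum := by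
    rw [hlP] at heul
    omega
  have h2 : Num.muG (hls (S.nuL ps) S.B) F h = (((SYS.A.muP (hls (S.nuL ps) S.B) F).coeff V : ℚ) : ℝ) := by
    unfold Num.muG
    rw [hs, if_pos]
    · congr 3
      omega
    · constructor
      · rw [Nat.even_iff]
        omega
      · omega
  rw [h2]
  have h3 : ((({T | T ∈ S.Ext g ∧ S.Vir T ps ∧ S.VConn T (S.nuL ps)}.ncard : ℕ) : ℚ) : ℝ) ≤
      ((((3 * F).factorial : ℚ) * (SYS.A.muP (hls (S.nuL ps) S.B) F).coeff V : ℚ) : ℝ) := by
    exact_mod_cast h1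
  push_cast at h3
  exact h3

end Part
end SYS
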