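import Pool.Agent.SYS.LT.Basic
import Pool.Agent.SYS.LT.SwapL

/-!
# SYS-LT-Vert: vertices of the virtual hidden map
-/

namespace SYS
namespace Part

open Classical SST Vm

variable {D : Type} [Finite D] {S : Part D} {T : Tri D}

private theorem same_closed {τ : Equiv.Perm D} (R : D → D → Prop) (hr : ∀ u, R u u)
    (ht : ∀ u v w, R u v → R v w → R u w) (hs : ∀ u, R u (τ u)) {u v : D}
    (h : τ.SameCycle u v) : R u v := by
  obtain ⟨n, _, hn⟩ := h.exists_pow_eq'
  have key : ∀ n : ℕ, R u ((τ ^ n) u) := by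
    intro n
    induction n with
    | zero => exact hr u
    | succ n ih =>
      have e : (τ ^ (n + 1)) u = τ ((τ ^ n) u) := by
        rw [pow_succ', Equiv.Perm.mul_apply]
      rw [e]
      exact ht _ _ _ ih (hs _)
  rw [← hn]
  exact key n

private theorem nx_off (S : Part D) : ∀ d ∉ S.B, S.nx d = d := fun _ hd => ret_not_mem S.s hd

theorem vs_eq (h : S.Le T) : S.vs T S.nx = ret T.s S.X := by
  refine Equiv.ext fun d => ?_
  by_cases hd : d ∈ S.X
  · obtain ⟨e, he⟩ : ∃ e, e = T.a d := ⟨_, rfl⟩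
    have heX : e ∈ S.X := by
      rw [he]
      exact (X_a h d).2 hd
    have h1 : S.vs T S.nx d = S.vphi T S.nx e := by
      show S.vphi T S.nx (S.valp T d) = _
      rw [valp_X h hd, he]
    have h2 : T.f e = T.s d := by
      rw [he]
      rfl
    by_cases heR : e ∈ S.R
    · have heB : e ∈ S.B := heX.resolve_left (fun h' => h' heR)
      rw [h1, vphi_B (nx_off S) heB]
      obtain ⟨j, h3, h4, h5⟩ := ret_spec S.s heB
      have h0 : S.s e = T.s d := by
        rw [s_apply, heB.2, ← h2]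
        exact (h.1 e heR).symm
      have key : ∀ i ≤ j, (S.s ^ (i + 1)) e = (T.s ^ (i + 1)) d ∧ (S.s ^ (i + 1)) e ∈ S.R := by
        intro i
        induction i with
        | zero =>
          intro _
          rw [zero_add, pow_one, pow_one]
          exact ⟨h0, (mem_R_s S e).2 heR⟩
        | succ i ih =>
          intro hi
          obtain ⟨h6, h7⟩ := ih (by omega)
          have h8 : (S.s ^ (i + 1 + 1)) e = S.s ((S.s ^ (i + 1)) e) := by
            rw [pow_succ', Equiv.Perm.mul_apply]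
          have h9 : (T.s ^ (i + 1 + 1)) d = T.s ((T.s ^ (i + 1)) d) := by
            rw [pow_succ', Equiv.Perm.mul_apply]
          rw [h8, h9]
          refine ⟨?_, (mem_R_s S _).2 h7⟩
          rw [← le_s h h7 (h5 i (by omega)), h6]
      have h6 : S.nx e = (T.s ^ (j + 1)) d := h3.trans (key j le_rfl).1
      rw [h6]
      refine (ret_eq T.s hd ?_ ?_).symm
      · rw [← h6]
        exact Or.inr h4
      · intro i hi hX
        obtain ⟨h7, h8⟩ := key i (by omega)
        rw [← h7] at hX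
        exact h5 i hi (hX.resolve_left (fun h' => h' h8))
    · rw [h1, vphi_R h (nx_off S) heR, h2]
      have h3 : (T.s ^ (0 + 1)) d = T.s d := by rw [zero_add, pow_one]
      rw [← h3]
      refine (ret_eq T.s hd ?_ (fun i hi => absurd hi (Nat.not_lt_zero i))).symm
      rw [h3, ← h2]
      exact Or.inl (fun h' => heR ((le_f_mem h e).1 h'))
  · rw [ret_not_mem T.s hd]
    show S.vphi T S.nx (S.valp T d) = d
    rw [valp_off hd, vphi_off (nx_off S) hd]

theorem same_nx (h : S.Le T) {d e : D} (hd : d ∈ S.X) (he : e ∈ S.X) : (S.vs T S.nx).SameCycle d e ↔ T.tl d = T.tl e := by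
  rw [vs_eq h, ret_same T.s hd he, T.tl_eq_iff]

theorem vs_X (h : S.Le T) {ν : Equiv.Perm D} (hν : ∀ d ∉ S.B, ν d = d) {d : D} : S.vs T ν d ∈ S.X ↔ d ∈ S.X := by
  show S.vphi T ν (S.valp T d) ∈ S.X ↔ d ∈ S.X
  exact (mp_f (vmp h hν)).trans (mp_a (vmp h hν))

theorem vs_tl (h : S.Le T) {ps : List (D × D)} (hV : S.Vir T ps) {d e : D} (hde : (S.vs T (S.nuL ps)).SameCycle d e) :
    T.tl d = T.tl e := by
  induction ps with
  | nil =>
    have h1 : (S.vs T S.nx).SameCycle d e := hde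
    rw [vs_eq h] at h1
    refine same_closed (τ := ret T.s S.X) (fun u v => T.tl u = T.tl v) (fun _ => rfl)
      (fun _ _ _ h2 h3 => h2.trans h3) (fun u => ?_) h1
    show T.tl u = T.tl (ret T.s S.X u)
    by_cases hu : u ∈ S.X
    · obtain ⟨j, h2, -⟩ := ret_spec T.s hu
      rw [h2, T.tl_eq_iff]
      exact ⟨((j + 1 : ℕ) : ℤ), by rw [zpow_natCast]⟩
    · rw [ret_not_mem T.s hu]
  | cons p ps ih =>
    obtain ⟨h1, h2, h3, _, h5⟩ := hV
    have h6 : (S.vs T (Equiv.swap p.1 p.2 * S.nuL ps)).SameCycle d e := hde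
    rw [vs_swap h2 h3] at h6
    exact ih h1 (swapL_same _ h5 h6)

theorem vs_gen (h : S.Le T) {ps : List (D × D)} (hV : S.Vir T ps) {d e : D} (hd : d ∈ S.X) (he : e ∈ S.X) (hde : T.tl d = T.tl e) :
    Relation.EqvGen (fun u v => (S.vs T (S.nuL ps)).SameCycle u v ∨ (u, v) ∈ ps) d e := by
  induction ps with
  | nil => exact Relation.EqvGen.rel _ _ (Or.inl ((same_nx h hd he).2 hde))
  | cons p ps ih =>
    obtain ⟨h1, h2, h3, h4, h5⟩ := hV
    have h6 : S.vs T (S.nuL (p :: ps)) = Equiv.swap p.1 p.2 * S.vs T (S.nuL ps) := vs_swap h2 h3 _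
    have h7 := ih h1
    rw [h6]
    clear ih hd he hde
    induction h7 with
    | rel u v huv =>
      rcases huv with huv | huv
      · rcases (swapL_old _ h4 h5 u v).1 huv with h8 | ⟨h8, h9⟩
        · exact Relation.EqvGen.rel _ _ (Or.inl h8)
        · have hx : Relation.EqvGen (fun u v => (Equiv.swap p.1 p.2 * S.vs T (S.nuL ps)).SameCycle u v ∨
              (u, v) ∈ p :: ps) p.1 p.2 :=
            Relation.EqvGen.rel _ _ (Or.inr List.mem_cons_self)
          have hu : Relation.EqvGen (fun u v => (Equiv.swap p.1 p.2 * S.vs T (S.nuL ps)).SameCycle u v ∨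
              (u, v) ∈ p :: ps) p.1 u := by
            rcases h8 with h8 | h8
            · exact Relation.EqvGen.rel _ _ (Or.inl h8)
            · exact Relation.EqvGen.trans _ _ _ hx (Relation.EqvGen.rel _ _ (Or.inl h8))
          have hv : Relation.EqvGen (fun u v => (Equiv.swap p.1 p.2 * S.vs T (S.nuL ps)).SameCycle u v ∨
              (u, v) ∈ p :: ps) p.1 v := by
            rcases h9 with h9 | h9
            · exact Relation.EqvGen.rel _ _ (Or.inl h9)
            · exact Relation.EqvGen.trans _ _ _ hx (Relation.EqvGen.rel _ _ (Or.inl h9))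
          exact Relation.EqvGen.trans _ _ _ (Relation.EqvGen.symm _ _ hu) hv
      · exact Relation.EqvGen.rel _ _ (Or.inr (List.mem_cons_of_mem _ huv))
    | refl u => exact Relation.EqvGen.refl _
    | symm u v _ ih => exact Relation.EqvGen.symm _ _ ih
    | trans u v w _ _ ih1 ih2 => exact Relation.EqvGen.trans _ _ _ ih1 ih2

theorem vs_card (h : S.Le T) {ps : List (D × D)} (hV : S.Vir T ps) :
    ncycOn (S.vs T (S.nuL ps)) S.X = ncycOn (S.vs T S.nx) S.X + ps.length := by
  induction ps with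
  | nil => rfl
  | cons p ps ih =>
    obtain ⟨h1, h2, h3, h4, h5⟩ := hV
    have h6 : S.vs T (S.nuL (p :: ps)) = Equiv.swap p.1 p.2 * S.vs T (S.nuL ps) := vs_swap h2 h3 _
    rw [h6, swapL_nc _ (fun d => vs_X h (nuL_off (vir_B h1))) (Or.inr h2) (Or.inr h3) h4 h5, ih h1,
      List.length_cons, add_assoc]

theorem nx_tl (h : S.Le T) {b : D} (hb : b ∈ S.B) : T.tl (S.nx b) = T.hd b := by
  obtain ⟨j, h1, h2, h3⟩ := ret_spec S.s hb
  have h0 : S.s b = T.f b := by
    rw [s_apply, hb.2]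
    exact (h.1 b hb.1).symm
  have key : ∀ i ≤ j, (S.s ^ (i + 1)) b ∈ S.R ∧ T.tl ((S.s ^ (i + 1)) b) = T.hd b := by
    intro i
    induction i with
    | zero =>
      intro _
      rw [zero_add, pow_one]
      refine ⟨(mem_R_s S b).2 hb.1, ?_⟩
      rw [h0, SST.Tri.tl_f]
    | succ i ih =>
      intro hi
      obtain ⟨h4, h5⟩ := ih (by omega)
      have h6 : (S.s ^ (i + 1 + 1)) b = S.s ((S.s ^ (i + 1)) b) := by
        rw [pow_succ', Equiv.Perm.mul_apply]
      rw [h6]
      refine ⟨(mem_R_s S _).2 h4, ?_⟩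
      rw [← le_s h h4 (h3 i (by omega)), SST.Tri.tl_s, h5]
  have h4 := (key j le_rfl).2
  rw [← h1] at h4
  exact h4

theorem nuL_tl (h : S.Le T) {ps : List (D × D)} (hV : S.Vir T ps) {b : D} (hb : b ∈ S.B) : T.tl (S.nuL ps b) = T.hd b := by
  induction ps with
  | nil => exact nx_tl h hb
  | cons p ps ih =>
    obtain ⟨h1, h2, h3, h4, h5⟩ := hV
    have h6 := ih h1
    have h7 : T.tl p.1 = T.tl p.2 := vs_tl h h1 h5
    show T.tl (Equiv.swap p.1 p.2 (S.nuL ps b)) = T.hd b
    by_cases ha : S.nuL ps b = p.1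
    · rw [ha, Equiv.swap_apply_left, ← h7, ← ha, h6]
    · by_cases hc : S.nuL ps b = p.2
      · rw [hc, Equiv.swap_apply_right, h7, ← hc, h6]
      · rw [Equiv.swap_apply_of_ne_of_ne ha hc, h6]

/-- First change of the vertex: a dart of a vertex which is not in a swapped pair is in one (virtual) vertex with `d` or with a dart of a swapped pair of this vertex. -/
theorem vs_near (h : S.Le T) {ps : List (D × D)} (hV : S.Vir T ps) {d e : D} (hd : d ∈ S.X) (he : e ∈ S.X) (hde : T.tl d = T.tl e)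
    (hn : ∀ p ∈ ps, p.1 ≠ e ∧ p.2 ≠ e) :
    ∃ b, (b = d ∨ ∃ p ∈ ps, b = p.1 ∨ b = p.2) ∧ T.tl b = T.tl d ∧ (S.vs T (S.nuL ps)).SameCycle b e := by
  have hpt : ∀ p ∈ ps, T.tl p.1 = T.tl p.2 := by
    clear hn
    induction ps with
    | nil =>
      intro p hp
      exact absurd hp List.not_mem_nil
    | cons q ps ih =>
      intro p hp
      obtain ⟨h1, _, _, _, h5⟩ := hV
      rcases List.mem_cons.1 hp with rfl | hp
      · exact vs_tl h h1 h5
      · exact ih h1 p hp
  have key : ∀ u v, Relation.EqvGen (fun u v => (S.vs T (S.nuL ps)).SameCycle u v ∨ (u, v) ∈ ps) u v →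
      ((∃ b, (b = d ∨ ∃ p ∈ ps, b = p.1 ∨ b = p.2) ∧ T.tl b = T.tl d ∧ (S.vs T (S.nuL ps)).SameCycle b u) ↔
      ∃ b, (b = d ∨ ∃ p ∈ ps, b = p.1 ∨ b = p.2) ∧ T.tl b = T.tl d ∧ (S.vs T (S.nuL ps)).SameCycle b v) := by
    intro u v huv
    induction huv with
    | rel u v huv =>
      rcases huv with huv | huv
      · constructor
        · rintro ⟨b, h1, h2, h3⟩
          exact ⟨b, h1, h2, h3.trans huv⟩
        · rintro ⟨b, h1, h2, h3⟩
          exact ⟨b, h1, h2, h3.trans huv.symm⟩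
      · have ht : T.tl u = T.tl v := hpt _ huv
        constructor
        · rintro ⟨b, h1, h2, h3⟩
          refine ⟨v, Or.inr ⟨(u, v), huv, Or.inr rfl⟩, ?_, Equiv.Perm.SameCycle.refl _ _⟩
          rw [← ht, ← vs_tl h hV h3, h2]
        · rintro ⟨b, h1, h2, h3⟩
          refine ⟨u, Or.inr ⟨(u, v), huv, Or.inl rfl⟩, ?_, Equiv.Perm.SameCycle.refl _ _⟩
          rw [ht, ← vs_tl h hV h3, h2]
    | refl u => exact Iff.rfl
    | symm u v _ ih => exact ih.symm
    | trans u v w _ _ ih1 ih2 => exact ih1.trans ih2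
  exact (key d e (vs_gen h hV hd he hde)).1 ⟨d, Or.inl rfl, rfl, Equiv.Perm.SameCycle.refl _ _⟩

end Part
end SYS
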