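import Pool.Agent.SYS.LT.Vdisc

/-!
# SYS-LT-Closing: a new essential coincidence

If the quotients of the gauge are in `H` for all pairs of boundary darts in one cycle of the virtual vertex permutation then, by `vs_gen`, the same holds for all pairs
of boundary darts at one vertex; `jump` gives the contradiction.
-/

namespace SYS
namespace Part

open Classical SST Vm

variable {D : Type} [Finite D] {S : Part D} {T : Tri D} {G : Type} [Group G] {l k : D → G}

private theorem clo_mul {H : Subgroup G} {a b c : G} (h1 : a * b⁻¹ ∈ H) (h2 : b * c⁻¹ ∈ H) : a * c⁻¹ ∈ H := by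
  have h3 := H.mul_mem h1 h2
  have h4 : a * b⁻¹ * (b * c⁻¹) = a * c⁻¹ := by group
  rwa [h4] at h3

private theorem clo_inv {H : Subgroup G} {a b : G} (h1 : a * b⁻¹ ∈ H) : b * a⁻¹ ∈ H := by
  have h3 := H.inv_mem h1
  rwa [mul_inv_rev, inv_inv] at h3

/-- in one cycle, or through boundary darts with quotient in `H` -/
private def QQ (B : Set D) (σ : Equiv.Perm D) (k : D → G) (H : Subgroup G) (d e : D) : Prop :=
  σ.SameCycle d e ∨ ∃ c ∈ B, ∃ c' ∈ B, σ.SameCycle d c ∧ σ.SameCycle c' e ∧ k c * (k c')⁻¹ ∈ H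

omit [Finite D] in
private theorem QQ_symm {B : Set D} {σ : Equiv.Perm D} {H : Subgroup G} {d e : D} (h : QQ B σ k H d e) :
    QQ B σ k H e d := by
  rcases h with h | ⟨c, hc, c', hc', h1, h2, h3⟩
  · exact Or.inl h.symm
  · exact Or.inr ⟨c', hc', c, hc, h2.symm, h1.symm, clo_inv h3⟩

omit [Finite D] in
private theorem QQ_trans {B : Set D} {σ : Equiv.Perm D} {H : Subgroup G}
    (hJ : ∀ b ∈ B, ∀ b' ∈ B, σ.SameCycle b b' → k b * (k b')⁻¹ ∈ H) {d e f : D} (h : QQ B σ k H d e)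
    (h' : QQ B σ k H e f) : QQ B σ k H d f := by
  rcases h with h | ⟨c, hc, c', hc', h1, h2, h3⟩
  · rcases h' with h' | ⟨a, ha, a', ha', h1', h2', h3'⟩
    · exact Or.inl (h.trans h')
    · exact Or.inr ⟨a, ha, a', ha', h.trans h1', h2', h3'⟩
  · rcases h' with h' | ⟨a, ha, a', ha', h1', h2', h3'⟩
    · exact Or.inr ⟨c, hc, c', hc', h1, h2.trans h', h3⟩
    · exact Or.inr ⟨c, hc, a', ha', h1, h2', clo_mul (clo_mul h3 (hJ c' hc' a ha (h2.trans h1'))) h3'⟩

theorem exists_swap (h : S.Le T) (hl : Flat T l) (hk : S.Gau T l k) {H : Subgroup G} {ps : List (D × D)} (hV : S.Vir T ps)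
    (hC : Clo k H ps) {x y : D} (hx : x ∈ S.R) (hy : y ∈ S.R) {c : List D} (hc : T.IsWalk (T.tl x) c (T.tl y))
    (hcR : ∀ d ∈ c, d ∈ S.R) (hn : k x * hol l c * (k y)⁻¹ ∉ H) :
    ∃ b b' : D, S.Vir T ((b, b') :: ps) ∧ k b * (k b')⁻¹ ∉ H := by
  by_contra hcon
  have hJ' : ∀ b ∈ S.B, ∀ b' ∈ S.B, (S.vs T (S.nuL ps)).SameCycle b b' → k b * (k b')⁻¹ ∈ H := by
    intro b hb b' hb' hs
    by_cases he : b = b'
    · rw [he, mul_inv_cancel]
      exact H.one_mem
    · by_contra hno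
      exact hcon ⟨b, b', ⟨hV, hb, hb', he, hs⟩, hno⟩
  refine hn (jump h hl hk ?_ hx hy hc hcR)
  intro b hb b' hb' ht
  have key : ∀ u v, Relation.EqvGen (fun u v => (S.vs T (S.nuL ps)).SameCycle u v ∨ (u, v) ∈ ps) u v →
      QQ S.B (S.vs T (S.nuL ps)) k H u v := by
    intro u v huv
    induction huv with
    | rel u v huv =>
      rcases huv with huv | huv
      · exact Or.inl huv
      · have h1 := vir_B hV _ huv
        exact Or.inr ⟨u, h1.1, v, h1.2, Equiv.Perm.SameCycle.refl _ _, Equiv.Perm.SameCycle.refl _ _, hC _ huv⟩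
    | refl u => exact Or.inl (Equiv.Perm.SameCycle.refl _ _)
    | symm u v _ ih => exact QQ_symm ih
    | trans u v w _ _ ih1 ih2 => exact QQ_trans hJ' ih1 ih2
  rcases key b b' (vs_gen h hV (Or.inr hb) (Or.inr hb') ht) with h1 | ⟨a, ha, a', ha', h1, h2, h3⟩
  · exact hJ' b hb b' hb' h1
  · exact clo_mul (clo_mul (hJ' b hb a ha h1) h3) (hJ' a' ha' b' hb' h2)

theorem closing (h : S.Le T) (hl : Flat T l) (hk : S.Gau T l k) {H : Subgroup G} {ps : List (D × D)} (hV : S.Vir T ps)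
    (hC : Clo k H ps) (hcn : S.VConn T (S.nuL ps)) {x y : D} (hx : x ∈ S.R) (hy : y ∈ S.R) {c : List D}
    (hc : T.IsWalk (T.tl x) c (T.tl y)) (hcR : ∀ d ∈ c, d ∈ S.R) (hn : k x * hol l c * (k y)⁻¹ ∉ H) :
    ∃ b b' : D, S.Vir T ((b, b') :: ps) ∧ k b * (k b')⁻¹ ∉ H ∧ S.NoDisc T (S.nuL ((b, b') :: ps)) := by
  obtain ⟨b, b', h1, h2⟩ := exists_swap h hl hk hV hC hx hy hc hcR hn
  exact ⟨b, b', h1, h2, no_disc h hl hk hC hcn h1 h2⟩

end Part
end SYS
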