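import Pool.Agent.SYS.LT.GauW

/-!
# SYS-LT-Pivot: walks in the islands, homology of a power
-/

namespace SYS
namespace Part

open Classical SST Vm

variable {D : Type} {S : Part D} {T : Tri D} {G : Type} [Group G] {l k : D → G}

private theorem pv_sub {c c' f : List D} (h : ∀ d, T.chain c' d = T.chain c d + T.chain f d)
    (hf : T.NullHom f) : T.NullHom c ↔ T.NullHom c' := by
  constructor
  · intro hc
    exact T.nullHom_add h hc hf
  · rintro ⟨k1, a1, b1⟩
    obtain ⟨k2, a2, b2⟩ := hf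
    refine ⟨fun d => k1 d - k2 d, fun d => ?_, fun d => ?_⟩
    · show k1 (T.f d) - k2 (T.f d) = k1 d - k2 d
      rw [a1, a2]
    · show T.chain c d = k1 d - k2 d - (k1 (T.a d) - k2 (T.a d))
      have h1 := h d
      rw [b1, b2] at h1
      linarith

private theorem pv_step {x y : List D} (h : T.Step x y) : T.NullHom x ↔ T.NullHom y := by
  cases h with
  | spur u v d =>
    refine pv_sub (f := [d, T.a d]) (fun e => ?_) (T.nullHom_spur d)
    rw [T.chain_append, T.chain_append, T.chain_append]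
    ring
  | face u v d =>
    refine pv_sub (f := [d, T.f d, T.f (T.f d)]) (fun e => ?_) (T.nullHom_face d)
    rw [T.chain_append, T.chain_append, T.chain_append]
    ring

theorem nullHom_of_nullHtp {c : List D} (h : T.NullHtp c) : T.NullHom c := by
  have key : ∀ x y : List D,
      Relation.EqvGen (fun x y => T.Closed x ∧ T.Closed y ∧ T.Step x y) x y →
        (T.NullHom x ↔ T.NullHom y) := by
    intro x y hxy
    induction hxy with
    | rel x y h1 => exact pv_step h1.2.2
    | refl x => exact Iff.rfl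
    | symm x y _ ih => exact ih.symm
    | trans x y z _ _ ih1 ih2 => exact ih1.trans ih2
  exact (key c [] h).2 T.nullHom_nil

theorem chain_hole {c : List D} (hc : c.Nodup) (d : D) :
    T.chain c d = (if d ∈ c then 1 else 0) - (if T.a d ∈ c then 1 else 0) := by
  induction c with
  | nil =>
    rw [T.chain_nil, if_neg List.not_mem_nil, if_neg List.not_mem_nil]
    norm_num
  | cons e c ih =>
    obtain ⟨h1, h2⟩ := List.nodup_cons.1 hc
    have key : ∀ x : D, (if x ∈ e :: c then (1 : ℤ) else 0) = Tri.ind e x + if x ∈ c then 1 else 0 := by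
      intro x
      by_cases hx : e = x
      · rw [← hx, Tri.ind_self, if_pos List.mem_cons_self, if_neg h1, add_zero]
      · rw [Tri.ind_ne hx, zero_add]
        by_cases hx2 : x ∈ c
        · rw [if_pos (List.mem_cons_of_mem _ hx2), if_pos hx2]
        · rw [if_neg hx2, if_neg]
          intro hx3
          rcases List.mem_cons.1 hx3 with hx4 | hx4
          · exact hx hx4.symm
          · exact hx2 hx4
    rw [T.chain_cons, ih h2, key d, key (T.a d)]
    ring

private theorem pv_pown {v : T.V} {Z : List D} (hZ : T.IsWalk v Z v) (n : ℕ) :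
    ∃ Q : List D, T.IsWalk v Q v ∧ hol l Q = (hol l Z) ^ n ∧
      ∀ d, T.chain Q d = (n : ℤ) * T.chain Z d := by
  induction n with
  | zero =>
    refine ⟨[], rfl, by rw [hol_nil, pow_zero], fun d => ?_⟩
    rw [T.chain_nil]
    simp
  | succ n ih =>
    obtain ⟨Q, h1, h2, h3⟩ := ih
    refine ⟨Q ++ Z, T.walk_append h1 hZ, by rw [hol_append, h2, pow_succ], fun d => ?_⟩
    rw [T.chain_append, h3]
    push_cast
    ring

private theorem pv_pow (hl : Flat T l) {v : T.V} {Z : List D} (hZ : T.IsWalk v Z v) (n : ℤ) :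
    ∃ Q : List D, T.IsWalk v Q v ∧ hol l Q = (hol l Z) ^ n ∧
      ∀ d, T.chain Q d = n * T.chain Z d := by
  cases n with
  | ofNat n =>
    obtain ⟨Q, h1, h2, h3⟩ := pv_pown (l := l) hZ n
    refine ⟨Q, h1, ?_, fun d => ?_⟩
    · rw [h2, Int.ofNat_eq_natCast, zpow_natCast]
    · rw [h3, Int.ofNat_eq_natCast]
  | negSucc n =>
    obtain ⟨Q, h1, h2, h3⟩ := pv_pown (l := l) hZ (n + 1)
    refine ⟨(Q.map T.a).reverse, T.walk_rev h1, ?_, fun d => ?_⟩
    · rw [hl.hol_rev, h2, zpow_negSucc]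
    · rw [T.chain_rev, h3, Int.negSucc_eq]
      push_cast
      ring

theorem pivot (hl : Flat T l) (hfaith : ∀ c : List D, T.Closed c → (hol l c = 1 ↔ T.NullHtp c)) {u v : T.V} {W Z P : List D}
    (hW : T.IsWalk u W u) (hZ : T.IsWalk v Z v) (hP : T.IsWalk u P v) (m : ℤ)
    (he : hol l W = hol l P * (hol l Z) ^ m * (hol l P)⁻¹) (hH : T.NullHom W) :
    ∃ F : D → ℤ, (∀ d, F (T.f d) = F d) ∧ ∀ d, F d - F (T.a d) = m * T.chain Z d := by
  obtain ⟨Q, q1, q2, q3⟩ := pv_pow hl hZ (-m)
  have h1 : T.IsWalk u (W ++ P ++ Q ++ (P.map T.a).reverse) u :=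
    T.walk_append (T.walk_append (T.walk_append hW hP) q1) (T.walk_rev hP)
  have h2 : hol l (W ++ P ++ Q ++ (P.map T.a).reverse) = 1 := by
    rw [hol_append, hol_append, hol_append, hl.hol_rev, q2, he, zpow_neg]
    group
  have h3 := nullHom_of_nullHtp ((hfaith _ ⟨u, h1⟩).1 h2)
  obtain ⟨F1, a1, b1⟩ := h3
  obtain ⟨F2, a2, b2⟩ := hH
  refine ⟨fun d => F2 d - F1 d, fun d => ?_, fun d => ?_⟩
  · show F2 (T.f d) - F1 (T.f d) = F2 d - F1 d
    rw [a1, a2]
  · show F2 d - F1 d - (F2 (T.a d) - F1 (T.a d)) = m * T.chain Z d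
    have h4 := b1 d
    rw [T.chain_append, T.chain_append, T.chain_append, T.chain_rev, q3, b2] at h4
    linarith

private theorem pv_pair [Finite D] (h : S.Le T) {ps : List (D × D)} (hV : S.Vir T ps) :
    ∀ p ∈ ps, T.tl p.1 = T.tl p.2 := by
  induction ps with
  | nil => exact fun p hp => absurd hp List.not_mem_nil
  | cons q ps ih =>
    intro p hp
    rcases List.mem_cons.1 hp with h1 | h1
    · rw [h1]
      exact vs_tl h hV.1 hV.2.2.2.2
    · exact ih hV.1 p h1

/-- the relation of `cls_path` -/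
private def PvQ (S : Part D) (T : Tri D) (l k : D → G) (d e : D) : Prop :=
  (d ∈ S.R ↔ e ∈ S.R) ∧
    (d ∈ S.R → ∃ P : List D, T.IsWalk (T.tl d) P (T.tl e) ∧ hol l P = (k d)⁻¹ * k e)

private theorem pvq_refl (d : D) : PvQ S T l k d d := by
  refine ⟨Iff.rfl, fun _ => ⟨[], rfl, ?_⟩⟩
  rw [hol_nil, inv_mul_cancel]

private theorem pvq_symm (hl : Flat T l) {d e : D} (h : PvQ S T l k d e) : PvQ S T l k e d := by
  refine ⟨h.1.symm, fun he => ?_⟩
  obtain ⟨P, h1, h2⟩ := h.2 (h.1.2 he)
  refine ⟨(P.map T.a).reverse, T.walk_rev h1, ?_⟩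
  rw [hl.hol_rev, h2, mul_inv_rev, inv_inv]

private theorem pvq_trans {d e f : D} (h : PvQ S T l k d e) (h' : PvQ S T l k e f) :
    PvQ S T l k d f := by
  refine ⟨h.1.trans h'.1, fun hd => ?_⟩
  obtain ⟨P, h1, h2⟩ := h.2 hd
  obtain ⟨P', h1', h2'⟩ := h'.2 (h.1.1 hd)
  refine ⟨P ++ P', T.walk_append h1 h1', ?_⟩
  rw [hol_append, h2, h2']
  group

private theorem pvq_cn (h : S.Le T) (hl : Flat T l) (hk : S.Gau T l k) {d e : D}
    (hde : S.Cn d e) : PvQ S T l k d e := by
  unfold Cn at hde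
  induction hde with
  | rel a b hab =>
    rcases hab with rfl | rfl
    · by_cases h1 : S.a a = a
      · rw [h1]
        exact pvq_refl a
      · refine ⟨(S.mem_R_a a).symm, fun ha => ⟨[a], ?_, ?_⟩⟩
        · rw [← h.2 a h1]
          exact T.walk_single a
        · have h2 := hk.a a ha (fun hb => h1 hb.2)
          rw [← h.2 a h1, h2, hol_cons, hol_nil, mul_one, inv_mul_cancel_left]
    · refine ⟨(S.mem_R_f a).symm, fun ha => ⟨[a], ?_, ?_⟩⟩
      · rw [← h.1 a ha, T.tl_f]
        exact T.walk_single a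
      · have h2 := hk.f a ha
        rw [← h.1 a ha, h2, hol_cons, hol_nil, mul_one, inv_mul_cancel_left]
  | refl a => exact pvq_refl a
  | symm a b _ ih => exact pvq_symm hl ih
  | trans a b c _ _ ih1 ih2 => exact pvq_trans ih1 ih2

theorem cls_path [Finite D] (h : S.Le T) (hl : Flat T l) (hk : S.Gau T l k) {ps : List (D × D)} (hV : S.Vir T ps) (hC : Clo k ⊥ ps)
    {d e : D} (hd : d ∈ S.R) (hde : S.Cls ps d e) : ∃ P : List D, T.IsWalk (T.tl d) P (T.tl e) ∧ hol l P = (k d)⁻¹ * k e := by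
  have key : ∀ x y : D, S.Cls ps x y → PvQ S T l k x y := by
    intro x y hxy
    unfold Cls at hxy
    induction hxy with
    | rel a b hab =>
      rcases hab with hab | hab
      · exact pvq_cn h hl hk hab
      · obtain ⟨h1, h2⟩ := vir_B hV _ hab
        have h3 := pv_pair h hV _ hab
        have h4 := hC _ hab
        rw [Subgroup.mem_bot, mul_inv_eq_one] at h4
        refine ⟨⟨fun _ => h2.1, fun _ => h1.1⟩, fun _ => ⟨[], h3, ?_⟩⟩
        change k a = k b at h4
        rw [hol_nil, h4, inv_mul_cancel]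
    | refl a => exact pvq_refl a
    | symm a b _ ih => exact pvq_symm hl ih
    | trans a b c _ _ ih1 ih2 => exact pvq_trans ih1 ih2
  exact (key d e hde).2 hd

end Part
end SYS
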