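import Pool.Agent.SYS.LT.Inv
import Pool.Agent.SYS.LT.Pivot

/-!
# SYS-LT-CrossP: after a non separating closing with jump `z` no null-homologous closed walk is a power of `z`

PLAN.  `ν := nuL ps`, `ν' := swap b b' * ν`.  `hone`: `ν.SameCycle b b'`; `swap_path ν`: `j`, `Z := (List.range j).map fun i => (ν ^ i) b` lists the `ν'`-cycle of `b` without repetitions (`path_inj`).  `Z` is a
closed walk at `T.tl b` (`nuL_tl`: `T.tl (ν e) = T.hd e`; the last head is `T.tl b'`, which is `T.tl b` by `vs_tl`).  `gau_word` with `H = ⊥`: `k b' = k b * hol l Z`.  With `z := k b * (k b')⁻¹`: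
`hol l Z = (k b)⁻¹ * z⁻¹ * k b`.  `cls_path`: `P` from `T.tl x` to `T.tl b` with `hol l P = (k x)⁻¹ * k b`.  `hz`: `k x * hol l C * (k x)⁻¹ = z ^ e`; so
`hol l C = hol l P * (hol l Z) ^ (-e) * (hol l P)⁻¹`.  `pivot` with `m := -e`: `F` with `F d - F (T.a d) = m * T.chain Z d = χ d - χ (T.a d)`, `χ d := if d ∈ Z then m else 0` (`chain_hole`).  `χ = 0` off `B`,
`χ` is `ν'`-invariant (`swap_path`, last item).  `cross` for `(b, b') :: ps` (`Cls` is monotone in the list) gives `χ b = χ b'`; `b ∈ Z`, `b' ∉ Z` (`swapL_not`): `m = 0`, so `hol l C = 1`.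
-/

namespace SYS
namespace Part

open Classical SST Vm

variable {D : Type} [Finite D] {S : Part D} {T : Tri D} {G : Type} [Group G] {l k : D → G}

private theorem crp_B {ps : List (D × D)} (hps : ∀ p ∈ ps, p.1 ∈ S.B ∧ p.2 ∈ S.B) {b : D} (hb : b ∈ S.B) (i : ℕ) :
    (S.nuL ps ^ i) b ∈ S.B := by
  induction i with
  | zero => exact hb
  | succ i ih =>
    rw [pow_succ', Equiv.Perm.mul_apply]
    exact (nuL_mem hps).2 ih

private theorem crp_walk (h : S.Le T) {ps : List (D × D)} (hV : S.Vir T ps) {b : D} (hb : b ∈ S.B) (i : ℕ) :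
    T.IsWalk (T.tl b) ((List.range i).map fun i => (S.nuL ps ^ i) b) (T.tl ((S.nuL ps ^ i) b)) := by
  induction i with
  | zero => exact rfl
  | succ i ih =>
    rw [List.range_succ, List.map_append, List.map_cons, List.map_nil]
    refine T.walk_append ih ?_
    have h1 := T.walk_single ((S.nuL ps ^ i) b)
    rw [← nuL_tl h hV (crp_B (vir_B hV) hb i)] at h1
    rw [pow_succ', Equiv.Perm.mul_apply]
    exact h1

private theorem crp_cls {ps : List (D × D)} (p : D × D) {d e : D} (h : S.Cls ps d e) : S.Cls (p :: ps) d e := by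
  unfold Cls at h ⊢
  induction h with
  | rel u v huv =>
    refine Relation.EqvGen.rel _ _ ?_
    rcases huv with h1 | h1
    · exact Or.inl h1
    · exact Or.inr (List.mem_cons_of_mem _ h1)
  | refl u => exact Relation.EqvGen.refl u
  | symm u v _ ih => exact Relation.EqvGen.symm _ _ ih
  | trans u v w _ _ ih1 ih2 => exact Relation.EqvGen.trans _ _ _ ih1 ih2

theorem cross_pivot (h : S.Le T) (hl : Flat T l) (hfaith : ∀ c : List D, T.Closed c → (hol l c = 1 ↔ T.NullHtp c))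
    (hk : S.Gau T l k) {ps : List (D × D)} (hC : Clo k ⊥ ps) (hone : ∀ b ∈ S.B, ∀ b' ∈ S.B, (S.nuL ps).SameCycle b b')
    (hcl : ∀ d ∈ S.R, ∀ e ∈ S.R, S.Cls ps d e) {b b' : D} (hV : S.Vir T ((b, b') :: ps))
    (hc : S.VConn T (S.nuL ((b, b') :: ps))) {x : D} (hx : x ∈ S.R) {C : List D} (hCl : T.IsWalk (T.tl x) C (T.tl x))
    (hH : T.NullHom C) (hz : k x * hol l C * (k x)⁻¹ ∈ Subgroup.zpowers (k b * (k b')⁻¹)) : hol l C = 1 := by
  obtain ⟨hV1, hb, hb', hne, hvs⟩ := hV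
  dsimp only at hb hb' hne hvs
  have hV : S.Vir T ((b, b') :: ps) := ⟨hV1, hb, hb', hne, hvs⟩
  have hps := vir_B hV1
  obtain ⟨j, hj0, hj1, hj2, hj3, hj4, hj5⟩ := swap_path (S.nuL ps) hne (hone b hb b' hb')
  set Z : List D := (List.range j).map fun i => (S.nuL ps ^ i) b with hZ
  have hZn : Z.Nodup := path_inj (S.nuL ps) hj1 hj2
  have htl : T.tl b = T.tl b' := vs_tl h hV1 hvs
  have hZw : T.IsWalk (T.tl b) Z (T.tl b) := by
    have h1 := crp_walk h hV1 hb j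
    rw [hj1, ← htl] at h1
    exact h1
  obtain ⟨g, hg, hgk⟩ := gau_word h hl hk (H := ⊥) hps hC hb j
  rw [Subgroup.mem_bot] at hg
  rw [hj1, hg, one_mul] at hgk
  obtain ⟨P, hP, hPk⟩ := cls_path h hl hk hV1 hC hx (hcl x hx b hb.1)
  obtain ⟨e, he⟩ := Subgroup.mem_zpowers_iff.1 hz
  have hz2 : hol l Z = (k b)⁻¹ * (k b * (k b')⁻¹)⁻¹ * k b := by
    have h1 : hol l Z = (k b)⁻¹ * k b' := by rw [hgk, inv_mul_cancel_left]
    rw [h1]
    group
  have hpow : (hol l Z) ^ (-e) = (k b)⁻¹ * (k b * (k b')⁻¹) ^ e * k b := by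
    have h1 : hol l Z = (k b)⁻¹ * (k b * (k b')⁻¹)⁻¹ * ((k b)⁻¹)⁻¹ := by rw [hz2, inv_inv]
    rw [h1, conj_zpow, inv_zpow', neg_neg, inv_inv]
  have hC2 : hol l C = hol l P * (hol l Z) ^ (-e) * (hol l P)⁻¹ := by
    rw [hpow, he, hPk]
    group
  obtain ⟨F, hF1, hF2⟩ := pivot hl hfaith hCl hZw hP (-e) hC2 hH
  have hmem : ∀ d, d ∈ Z ↔ ∃ i < j, (S.nuL ps ^ i) b = d := by
    intro d
    rw [hZ, List.mem_map]
    constructor
    · rintro ⟨i, hi, h1⟩
      exact ⟨i, List.mem_range.1 hi, h1⟩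
    · rintro ⟨i, hi, h1⟩
      exact ⟨i, List.mem_range.2 hi, h1⟩
  have hmem2 : ∀ d, d ∈ Z ↔ (S.nuL ((b, b') :: ps)).SameCycle b d := fun d => (hmem d).trans (hj5 d).symm
  have hχ := cross h hV hc (fun d hd e he => crp_cls (b, b') (hcl d hd e he)) (F := F)
    (χ := fun d => if d ∈ Z then -e else 0) hF1 (fun d => by
      rw [hF2 d, chain_hole hZn d]
      by_cases h1 : d ∈ Z <;> by_cases h2 : T.a d ∈ Z <;> simp [h1, h2]) (fun d hd => by
      refine if_neg fun h1 => hd ?_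
      obtain ⟨i, -, rfl⟩ := (hmem d).1 h1
      exact crp_B hps hb i) (fun d => by
      have h1 : (S.nuL ((b, b') :: ps)) d ∈ Z ↔ d ∈ Z := by
        rw [hmem2, hmem2]
        exact Equiv.Perm.sameCycle_apply_right
      by_cases h2 : d ∈ Z
      · rw [if_pos (h1.2 h2), if_pos h2]
      · rw [if_neg fun h3 => h2 (h1.1 h3), if_neg h2]) hb hb'
  have h1 : b ∈ Z := (hmem b).2 ⟨0, hj0, rfl⟩
  have h2 : b' ∉ Z := by
    intro h3
    obtain ⟨i, hi, h4⟩ := (hmem b').1 h3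
    exact hj2 i hi h4
  rw [if_pos h1, if_neg h2] at hχ
  rw [hC2, hχ, zpow_zero, mul_one, mul_inv_cancel]

end Part
end SYS
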