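import Pool.Agent.SYS.LT.Basic
import Pool.Agent.SYS.Lib.Fil
import Pool.Agent.SYS.Lib.Inn

/-!
# SYS-LT-FillV: a filled hole as a map

`S'` is `S` with the holes `H` filled (`FillBy`).  `W := S'.R \ S.R`: the new darts.  The filled part is the map with darts `W ∪ H`, edges `S'.a`, faces `S'.f` on `W` and the holes `S.nx` on `H`.
-/

namespace SYS
namespace Part

open Classical SST Vm

section
variable {D : Type} [Finite D]

private theorem fb_nat {τ : Equiv.Perm D} {u v : D} (h : τ.SameCycle u v) : ∃ n : ℕ, (τ ^ n) u = v := by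
  obtain ⟨n, hn⟩ := h.exists_pow_eq'
  exact ⟨n, hn.2⟩

omit [Finite D] in
private theorem fb_pow {τ : Equiv.Perm D} (u : D) (n : ℕ) : τ.SameCycle u ((τ ^ n) u) :=
  ⟨n, by rw [zpow_natCast]⟩

omit [Finite D] in
private theorem fb_step {τ : Equiv.Perm D} (u : D) : τ.SameCycle u (τ u) :=
  ⟨1, by rw [zpow_one]⟩

private theorem fb_union (σ : Equiv.Perm D) {A B : Set D} (h : ∀ d ∈ A, ∀ e ∈ B, ¬ σ.SameCycle d e) :
    ncycOn σ (A ∪ B) = ncycOn σ A + ncycOn σ B := by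
  show ((Quotient.mk (Equiv.Perm.SameCycle.setoid σ)) '' (A ∪ B)).ncard =
    ((Quotient.mk (Equiv.Perm.SameCycle.setoid σ)) '' A).ncard +
      ((Quotient.mk (Equiv.Perm.SameCycle.setoid σ)) '' B).ncard
  rw [Set.image_union, Set.ncard_union_eq ?_ (Set.toFinite _) (Set.toFinite _)]
  rw [Set.disjoint_left]
  rintro _ ⟨d, hd, rfl⟩ ⟨e, he, h1⟩
  exact h d hd e he (Quotient.exact h1.symm)

private theorem fb_eq (σ : Equiv.Perm D) {A B : Set D} (h1 : ∀ d ∈ A, ∃ e ∈ B, σ.SameCycle d e)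
    (h2 : ∀ d ∈ B, ∃ e ∈ A, σ.SameCycle d e) : ncycOn σ A = ncycOn σ B := by
  unfold ncycOn
  congr 1
  ext q
  constructor
  · rintro ⟨d, hd, rfl⟩
    obtain ⟨e, he, h⟩ := h1 d hd
    exact ⟨e, he, Quotient.sound h.symm⟩
  · rintro ⟨d, hd, rfl⟩
    obtain ⟨e, he, h⟩ := h2 d hd
    exact ⟨e, he, Quotient.sound h.symm⟩

omit [Finite D] in
private theorem fb_ncard {A B : Type} (f : D → A) (g : D → B) (X : Set D)
    (h : ∀ d ∈ X, ∀ e ∈ X, f d = f e ↔ g d = g e) : (f '' X).ncard = (g '' X).ncard := by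
  refine Set.ncard_congr (fun a ha => g ha.choose) ?_ ?_ ?_
  · intro a ha
    exact ⟨ha.choose, ha.choose_spec.1, rfl⟩
  · intro a b ha hb hab
    have h1 := (h _ ha.choose_spec.1 _ hb.choose_spec.1).2 hab
    rw [ha.choose_spec.2, hb.choose_spec.2] at h1
    exact h1
  · rintro _ ⟨d, hd, rfl⟩
    have ha : f d ∈ f '' X := ⟨d, hd, rfl⟩
    exact ⟨f d, ha, (h _ ha.choose_spec.1 _ hd).1 ha.choose_spec.2⟩

private theorem fb_agree {σ τ : Equiv.Perm D} {A : Set D}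
    (h : ∀ d ∈ A, ∀ e ∈ A, σ.SameCycle d e ↔ τ.SameCycle d e) : ncycOn σ A = ncycOn τ A := by
  refine fb_ncard (Quotient.mk (Equiv.Perm.SameCycle.setoid σ))
    (Quotient.mk (Equiv.Perm.SameCycle.setoid τ)) A fun d hd e he => ?_
  constructor
  · intro h1
    exact Quotient.sound ((h d hd e he).1 (Quotient.exact h1))
  · intro h1
    exact Quotient.sound ((h d hd e he).2 (Quotient.exact h1))

/-- the part `S'` and the pair `(f, α)` correspond -/
private structure Cor (S S' : Part D) (W H : Set D) (f α : Equiv.Perm D) : Prop where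
  hH : H ⊆ S.B
  hW : ∀ d ∈ W, d ∉ S.R
  ef : ∀ d, S'.f d = S.f (f d)
  ea : ∀ d, S'.a d = S.a (α d)
  f_off : ∀ d ∉ W, f d = d
  f_on : ∀ d ∈ W, f d ≠ d
  a_off : ∀ d ∉ W ∪ H, α d = d
  a_on : ∀ d ∈ W ∪ H, α d ≠ d
  aa : ∀ d, α (α d) = d

section
variable {S S' : Part D} {W H : Set D} {f α : Equiv.Perm D}

omit [Finite D] in
private theorem perm_mem {W : Set D} {f : Equiv.Perm D} (h1 : ∀ d ∉ W, f d = d) (h2 : ∀ d ∈ W, f d ≠ d) {d : D}
    (hd : d ∈ W) : f d ∈ W := by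
  by_contra hc
  exact h2 d hd (f.injective (h1 _ hc))

omit [Finite D] in
private theorem Sf_fix (hW : ∀ d ∈ W, d ∉ S.R) {d : D} (hd : d ∈ W) : S.f d = d := not_not.1 (hW d hd)

omit [Finite D] in
private theorem Sa_fix (hH : H ⊆ S.B) (hW : ∀ d ∈ W, d ∉ S.R) {d : D} (hd : d ∈ W ∪ H) : S.a d = d := by
  rcases hd with hd | hd
  · exact S.af d (Sf_fix hW hd)
  · exact (hH hd).2

omit [Finite D] in
private theorem cf_W (c : Cor S S' W H f α) {d : D} (hd : d ∈ W) : S'.f d = f d := by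
  rw [c.ef, Sf_fix c.hW (perm_mem c.f_off c.f_on hd)]

omit [Finite D] in
private theorem cf_nW (c : Cor S S' W H f α) {d : D} (hd : d ∉ W) : S'.f d = S.f d := by
  rw [c.ef, c.f_off d hd]

omit [Finite D] in
private theorem ca_Y (c : Cor S S' W H f α) {d : D} (hd : d ∈ W ∪ H) : S'.a d = α d := by
  rw [c.ea, Sa_fix c.hH c.hW (perm_mem c.a_off c.a_on hd)]

omit [Finite D] in
private theorem ca_nY (c : Cor S S' W H f α) {d : D} (hd : d ∉ W ∪ H) : S'.a d = S.a d := by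
  rw [c.ea, c.a_off d hd]

omit [Finite D] in
private theorem cor_nW (c : Cor S S' W H f α) {d : D} (hd : d ∈ S.R) : d ∉ W := fun h => c.hW d h hd

omit [Finite D] in
private theorem cor_R (c : Cor S S' W H f α) : S'.R = S.R ∪ W := by
  ext d
  show S'.f d ≠ d ↔ S.f d ≠ d ∨ d ∈ W
  by_cases hd : d ∈ W
  · rw [cf_W c hd]
    exact ⟨fun _ => Or.inr hd, fun _ => c.f_on d hd⟩
  · rw [cf_nW c hd]
    exact ⟨fun h => Or.inl h, fun h => h.resolve_right hd⟩

omit [Finite D] in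
private theorem cor_B (c : Cor S S' W H f α) : S'.B = S.B \ H := by
  ext d
  show (S'.f d ≠ d ∧ S'.a d = d) ↔ (S.f d ≠ d ∧ S.a d = d) ∧ d ∉ H
  by_cases hd : d ∈ W ∪ H
  · rw [ca_Y c hd]
    constructor
    · intro h
      exact absurd h.2 (c.a_on d hd)
    · intro h
      rcases hd with hd | hd
      · exact absurd h.1.1 (c.hW d hd)
      · exact absurd hd h.2
  · rw [ca_nY c hd, cf_nW c (fun h => hd (Or.inl h))]
    exact ⟨fun h => ⟨h, fun h' => hd (Or.inr h')⟩, fun h => h.1⟩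

omit [Finite D] in
private theorem cor_sub (c : Cor S S' W H f α) : S.Sub S' := by
  refine ⟨fun d hd => ?_, fun d hd => ?_⟩
  · exact cf_nW c (cor_nW c hd)
  · exact ca_nY c (fun h => hd (Sa_fix c.hH c.hW h))

omit [Finite D] in
private theorem cor_s (c : Cor S S' W H f α) {d : D} (hd : d ∈ S.R) (hd' : d ∉ H) : S'.s d = S.s d := by
  rw [s_apply, s_apply, ca_nY c (fun h => h.elim (cor_nW c hd) hd'), cf_nW c (cor_nW c ((mem_R_a S d).2 hd))]

private theorem cor_ret (c : Cor S S' W H f α) (hnx : ∀ d, S.nx d ∈ H ↔ d ∈ H) {d : D} (hd : d ∈ W ∪ H) :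
    ret S'.s (W ∪ H) d = (f * restr S.nx H hnx * α) d := by
  rw [Equiv.Perm.mul_apply, Equiv.Perm.mul_apply]
  have he : α d ∈ W ∪ H := perm_mem c.a_off c.a_on hd
  have h0 : S'.s d = S'.f (α d) := by rw [s_apply, ca_Y c hd]
  rcases he with he | he
  · have hH : α d ∉ H := fun h => c.hW _ he (B_sub_R S (c.hH h))
    rw [restr_not_mem S.nx hnx hH]
    rw [cf_W c he] at h0
    have h1 : (S'.s ^ (0 + 1)) d = f (α d) := by rw [zero_add, pow_one, h0]
    rw [← h1]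
    exact ret_eq S'.s hd (by rw [h1]; exact Or.inl (perm_mem c.f_off c.f_on he))
      (fun i hi => absurd hi (Nat.not_lt_zero i))
  · have hB : α d ∈ S.B := c.hH he
    have hnW : ∀ z ∈ H, z ∉ W := fun z hz hz' => c.hW z hz' (B_sub_R S (c.hH hz))
    rw [restr_mem S.nx hnx he, c.f_off _ (hnW _ ((hnx _).2 he))]
    obtain ⟨j, h1, h2, h3⟩ := ret_spec S.s hB
    have h1' : S.nx (α d) = (S.s ^ (j + 1)) (α d) := h1
    have key : ∀ i ≤ j, (S'.s ^ (i + 1)) d = (S.s ^ (i + 1)) (α d) ∧ (S.s ^ (i + 1)) (α d) ∈ S.R := by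
      intro i
      induction i with
      | zero =>
        intro _
        rw [zero_add, pow_one, pow_one, h0, s_apply, hB.2, cf_nW c (hnW _ he)]
        exact ⟨rfl, (mem_R_f S _).2 hB.1⟩
      | succ i ih =>
        intro hi
        obtain ⟨h4, h5⟩ := ih (by omega)
        have h6 := h3 i (by omega)
        rw [pow_succ', pow_succ' S.s, Equiv.Perm.mul_apply, Equiv.Perm.mul_apply, h4]
        refine ⟨cor_s c h5 (fun h => h6 (c.hH h)), (mem_R_s S _).2 h5⟩
    rw [h1', ← (key j le_rfl).1]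
    refine ret_eq S'.s hd ?_ ?_
    · rw [(key j le_rfl).1, ← h1']
      exact Or.inr ((hnx _).2 he)
    · intro i hi
      obtain ⟨h4, h5⟩ := key i (by omega)
      rw [h4]
      rintro (h | h)
      · exact c.hW _ h h5
      · exact h3 i hi (c.hH h)

/-- the union of the classes in `S.R` which do not meet `H` -/
private def Zs (S : Part D) (H : Set D) : Set D := {d | d ∈ S.R ∧ ∀ z ∈ H, ¬ S.s.SameCycle d z}

omit [Finite D] in
private theorem zs_pow (c : Cor S S' W H f α) {d : D} (hd : d ∈ Zs S H) (n : ℕ) :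
    (S'.s ^ n) d = (S.s ^ n) d ∧ (S.s ^ n) d ∈ Zs S H := by
  induction n with
  | zero => exact ⟨rfl, hd⟩
  | succ n ih =>
    obtain ⟨h1, h2, h3⟩ := ih
    rw [pow_succ', pow_succ', Equiv.Perm.mul_apply, Equiv.Perm.mul_apply, h1]
    refine ⟨cor_s c h2 (fun h => h3 _ h (Equiv.Perm.SameCycle.refl _ _)), (mem_R_s S _).2 h2, ?_⟩
    intro z hz h
    exact h3 z hz ((fb_step _).trans h)

private theorem zs_same (c : Cor S S' W H f α) {d e : D} (hd : d ∈ Zs S H) :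
    S'.s.SameCycle d e ↔ S.s.SameCycle d e := by
  constructor
  · intro h
    obtain ⟨n, hn⟩ := fb_nat h
    rw [(zs_pow c hd n).1] at hn
    rw [← hn]
    exact fb_pow d n
  · intro h
    obtain ⟨n, hn⟩ := fb_nat h
    rw [← (zs_pow c hd n).1] at hn
    rw [← hn]
    exact fb_pow d n

private theorem zs_closed (c : Cor S S' W H f α) {d e : D} (hd : d ∈ Zs S H) (h : S.s.SameCycle d e) :
    e ∈ Zs S H := by
  obtain ⟨n, hn⟩ := fb_nat h
  rw [← hn]
  exact (zs_pow c hd n).2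

omit [Finite D] in
private theorem meets (c : Cor S S' W H f α) {z : D} (hz : z ∈ H) :
    ∀ (n : ℕ) (d : D), d ∈ S.R → (S.s ^ n) d = z → ∃ y ∈ W ∪ H, S'.s.SameCycle d y := by
  intro n
  induction n with
  | zero =>
    intro d _ h
    have h' : d = z := h
    rw [h']
    exact ⟨z, Or.inr hz, Equiv.Perm.SameCycle.refl _ _⟩
  | succ n ih =>
    intro d hd h
    by_cases hH : d ∈ H
    · exact ⟨d, Or.inr hH, Equiv.Perm.SameCycle.refl _ _⟩
    · rw [pow_succ, Equiv.Perm.mul_apply] at h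
      obtain ⟨y, hy, h1⟩ := ih (S.s d) ((mem_R_s S d).2 hd) h
      rw [← cor_s c hd hH] at h1
      exact ⟨y, hy, (fb_step d).trans h1⟩

private theorem cor_inn (c : Cor S S' W H f α) (hun : ∀ d ∈ H, ∀ e ∈ S.B, S.s.SameCycle d e → e ∈ H) :
    S'.inn = S.inn + ncycOn S'.s (W ∪ H) := by
  have h1 := inn_eq S'
  have h2 := inn_eq S
  have hR := cor_R c
  have e1 : ncycOn S'.s S'.R = ncycOn S'.s (Zs S H) + ncycOn S'.s (S'.R \ Zs S H) := by
    rw [← fb_union]
    · congr 1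
      ext d
      constructor
      · intro hd
        by_cases hz : d ∈ Zs S H
        · exact Or.inl hz
        · exact Or.inr ⟨hd, hz⟩
      · rintro (hd | hd)
        · rw [hR]
          exact Or.inl hd.1
        · exact hd.1
    · intro d hd e he h
      exact he.2 (zs_closed c hd ((zs_same c hd).1 h))
  have e2 : ncycOn S'.s (S'.R \ Zs S H) = ncycOn S'.s (W ∪ H) := by
    apply fb_eq
    · rintro d ⟨hd, hz⟩
      rw [hR] at hd
      rcases hd with hd | hd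
      · have hz' : ∃ z ∈ H, S.s.SameCycle d z := by
          by_contra hcon
          push Not at hcon
          exact hz ⟨hd, hcon⟩
        obtain ⟨z, hzH, h3⟩ := hz'
        obtain ⟨n, hn⟩ := fb_nat h3
        exact meets c hzH n d hd hn
      · exact ⟨d, Or.inl hd, Equiv.Perm.SameCycle.refl _ _⟩
    · intro d hd
      refine ⟨d, ⟨?_, ?_⟩, Equiv.Perm.SameCycle.refl _ _⟩
      · rw [hR]
        rcases hd with hd | hd
        · exact Or.inr hd
        · exact Or.inl (B_sub_R S (c.hH hd))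
      · rintro ⟨h3, h4⟩
        rcases hd with hd | hd
        · exact c.hW d hd h3
        · exact h4 d hd (Equiv.Perm.SameCycle.refl _ _)
  have e3 : ncycOn S'.s (Zs S H) = ncycOn S.s (Zs S H) := fb_agree fun d hd e _ => zs_same c hd
  have e4 : ncycOn S.s S.R = ncycOn S.s (Zs S H) + ncycOn S.s (S.R \ Zs S H) := by
    rw [← fb_union]
    · congr 1
      ext d
      constructor
      · intro hd
        by_cases hz : d ∈ Zs S H
        · exact Or.inl hz
        · exact Or.inr ⟨hd, hz⟩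
      · rintro (hd | hd)
        · exact hd.1
        · exact hd.1
    · intro d hd e he h
      exact he.2 (zs_closed c hd h)
  have e5 : ncycOn S.s (S.R \ Zs S H) = ncycOn S.s H := by
    apply fb_eq
    · rintro d ⟨hd, hz⟩
      by_contra hcon
      push Not at hcon
      exact hz ⟨hd, hcon⟩
    · intro d hd
      refine ⟨d, ⟨B_sub_R S (c.hH hd), ?_⟩, Equiv.Perm.SameCycle.refl _ _⟩
      rintro ⟨h3, h4⟩
      exact h4 d hd (Equiv.Perm.SameCycle.refl _ _)
  have e6 : ncycOn S.s S.B = ncycOn S.s (S.B \ H) + ncycOn S.s H := by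
    rw [← fb_union]
    · congr 1
      ext d
      constructor
      · intro hd
        by_cases hz : d ∈ H
        · exact Or.inr hz
        · exact Or.inl ⟨hd, hz⟩
      · rintro (hd | hd)
        · exact hd.1
        · exact c.hH hd
    · intro d hd e he h
      exact hd.2 (hun e he d hd.1 h.symm)
  have hBZ : ∀ d ∈ S.B \ H, d ∈ Zs S H := by
    rintro d ⟨hd, hH⟩
    refine ⟨B_sub_R S hd, fun z hz h => hH (hun z hz d hd h.symm)⟩
  have e7 : ncycOn S'.s S'.B = ncycOn S.s (S.B \ H) := by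
    rw [cor_B c]
    exact fb_agree fun d hd e _ => zs_same c (hBZ d hd)
  omega

private theorem cor_V (c : Cor S S' W H f α) (hnx : ∀ d, S.nx d ∈ H ↔ d ∈ H) :
    ncycOn S'.s (W ∪ H) = ncycOn (f * restr S.nx H hnx * α) (W ∪ H) := by
  rw [← ncycOn_ret]
  symm
  apply ncycOn_congr
  · intro d
    by_cases hd : d ∈ W ∪ H
    · obtain ⟨j, h1, h2, h3⟩ := ret_spec S'.s hd
      exact ⟨fun _ => hd, fun _ => h2⟩
    · rw [ret_not_mem S'.s hd]
  · intro d hd
    exact (cor_ret c hnx hd).symm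

private theorem cor_conn (c : Cor S S' W H f α) (hnx : ∀ d, S.nx d ∈ H ↔ d ∈ H) {Z : Set D} (hZ : Z ⊆ W ∪ H) :
    (∀ d ∈ Z, S'.a d ∈ Z ∧ (d ∉ S.R → S'.f d ∈ Z) ∧ (d ∈ S.B → S.nx d ∈ Z)) ↔
      ∀ d ∈ Z, α d ∈ Z ∧ f d ∈ Z ∧ restr S.nx H hnx d ∈ Z := by
  refine forall_congr' fun d => forall_congr' fun hd => ?_
  rw [ca_Y c (hZ hd)]
  refine and_congr_right fun _ => ?_
  rcases hZ hd with h | h
  · have h1 : d ∉ S.R := c.hW d h
    have h2 : d ∉ S.B := fun h' => h1 (B_sub_R S h')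
    have h3 : d ∉ H := fun h' => h2 (c.hH h')
    rw [restr_not_mem S.nx hnx h3, cf_W c h]
    exact ⟨fun h' => ⟨h'.1 h1, hd⟩, fun h' => ⟨fun _ => h'.1, fun h4 => absurd h4 h2⟩⟩
  · have h2 : d ∈ S.B := c.hH h
    have h1 : d ∈ S.R := B_sub_R S h2
    rw [restr_mem S.nx hnx h, c.f_off d (cor_nW c h1)]
    exact ⟨fun h' => ⟨hd, h'.2 h2⟩, fun h' => ⟨fun h4 => absurd h1 h4, fun _ => h'.2⟩⟩

end

/-- from a part to a pair -/
private theorem cor_of {S S' : Part D} {W H : Set D} (hH : H ⊆ S.B) (hW : ∀ d ∈ W, d ∉ S.R) (hs : S.Sub S')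
    (hB : S'.B = S.B \ H) (hR : S'.R \ S.R = W) :
    Cor S S' W H (S.f⁻¹ * S'.f) (S.a⁻¹ * S'.a) ∧ ∀ d, (S.f⁻¹ * S'.f) ((S.f⁻¹ * S'.f) ((S.f⁻¹ * S'.f) d)) = d := by
  have hR' : ∀ d, S'.f d ∈ S.R ↔ d ∈ S.R := by
    intro d
    constructor
    · intro h
      have h1 : S'.f (S'.f d) = S.f (S'.f d) := hs.1 _ h
      have h2 : S'.f d ∈ S.R := h
      have h3 : S.f (S'.f d) ∈ S.R := (mem_R_f S _).2 h2
      have h4 : S'.f (S.f (S'.f d)) = S.f (S.f (S'.f d)) := hs.1 _ h3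
      have h5 := S'.fff d
      rw [h1, h4] at h5
      rw [← h5]
      exact (mem_R_f S _).2 h3
    · intro h
      rw [hs.1 d h]
      exact (mem_R_f S d).2 h
  -- values of `f`
  have fR : ∀ d ∈ S.R, (S.f⁻¹ * S'.f) d = d := by
    intro d hd
    rw [Equiv.Perm.mul_apply, Equiv.Perm.inv_eq_iff_eq]
    exact hs.1 d hd
  have fnR : ∀ d ∉ S.R, (S.f⁻¹ * S'.f) d = S'.f d := by
    intro d hd
    rw [Equiv.Perm.mul_apply, Equiv.Perm.inv_eq_iff_eq]
    exact (not_not.1 (fun h => hd ((hR' d).1 h))).symm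
  -- `Y` is invariant under `S'.a` and fixed by `S.a`
  have hYf : ∀ d ∈ W ∪ H, S.a d = d := fun d hd => Sa_fix hH hW hd
  have hYne : ∀ d ∈ W ∪ H, S'.a d ≠ d := by
    intro d hd h
    have hdR : d ∈ S'.R := by
      rcases hd with hd | hd
      · rw [← hR] at hd
        exact hd.1
      · exact hs.R_sub (B_sub_R S (hH hd))
    have h1 : d ∈ S'.B := ⟨hdR, h⟩
    rw [hB] at h1
    rcases hd with hd | hd
    · exact hW d hd (B_sub_R S h1.1)
    · exact h1.2 hd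
  have hnY : ∀ d ∉ W ∪ H, S'.a d = S.a d := by
    intro d hd
    by_cases h1 : S.a d = d
    · by_cases h2 : d ∈ S'.R
      · have h3 : d ∈ S.R := by
          by_contra h4
          exact hd (Or.inl (by rw [← hR]; exact ⟨h2, h4⟩))
        have h5 : d ∈ S'.B := by
          rw [hB]
          exact ⟨⟨h3, h1⟩, fun h => hd (Or.inr h)⟩
        rw [h5.2, h1]
      · rw [S'.af d (not_not.1 h2), h1]
    · exact hs.2 d h1
  have hYm : ∀ d ∈ W ∪ H, S'.a d ∈ W ∪ H := by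
    intro d hd
    by_contra h
    have h1 := hnY _ h
    rw [S'.aa] at h1
    have h2 : S.a (S.a (S'.a d)) = S'.a d := S.aa _
    rw [← h1, hYf d hd] at h2
    exact hYne d hd h2.symm
  have aY : ∀ d ∈ W ∪ H, (S.a⁻¹ * S'.a) d = S'.a d := by
    intro d hd
    rw [Equiv.Perm.mul_apply, Equiv.Perm.inv_eq_iff_eq]
    exact (hYf _ (hYm d hd)).symm
  have anY : ∀ d ∉ W ∪ H, (S.a⁻¹ * S'.a) d = d := by
    intro d hd
    rw [Equiv.Perm.mul_apply, Equiv.Perm.inv_eq_iff_eq]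
    exact hnY d hd
  refine ⟨⟨hH, hW, ?_, ?_, ?_, ?_, ?_, ?_, ?_⟩, ?_⟩
  · intro d
    exact (S.f.apply_symm_apply (S'.f d)).symm
  · intro d
    exact (S.a.apply_symm_apply (S'.a d)).symm
  · intro d hd
    by_cases h : d ∈ S.R
    · exact fR d h
    · rw [fnR d h]
      by_contra h1
      exact hd (by rw [← hR]; exact ⟨h1, h⟩)
  · intro d hd
    rw [fnR d (hW d hd)]
    rw [← hR] at hd
    exact hd.1
  · exact anY
  · intro d hd
    rw [aY d hd]
    exact hYne d hd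
  · intro d
    by_cases hd : d ∈ W ∪ H
    · rw [aY d hd, aY _ (hYm d hd), S'.aa]
    · rw [anY d hd, anY d hd]
  · intro d
    by_cases hd : d ∈ S.R
    · rw [fR d hd, fR d hd, fR d hd]
    · have h1 : S'.f d ∉ S.R := fun h => hd ((hR' d).1 h)
      have h2 : S'.f (S'.f d) ∉ S.R := fun h => h1 ((hR' _).1 h)
      rw [fnR d hd, fnR _ h1, fnR _ h2, S'.fff]

private theorem nx_same (S : Part D) {d : D} (hd : d ∈ S.B) : S.nx d ∈ S.B ∧ S.s.SameCycle d (S.nx d) := by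
  have h := nx_pow_same S hd 1
  rw [pow_one] at h
  exact h

end

variable {D : Type} [Finite D] {S S' : Part D} {H : Set D} {F V : ℕ}

theorem ncyc_three {f : Equiv.Perm D} {W : Set D} (hW : ∀ d, f d ∈ W ↔ d ∈ W) (h1 : ∀ d ∈ W, f d ≠ d)
    (h3 : ∀ d, f (f (f d)) = d) : 3 * ncycOn f W = W.ncard := by
  have : Fintype D := Fintype.ofFinite D
  have e1 : ncycOn f W = (W.toFinset.image (Quotient.mk (Equiv.Perm.SameCycle.setoid f))).card := by
    unfold ncycOn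
    rw [← Set.ncard_coe_finset]
    congr 1
    ext q
    simp
  rw [e1, Set.ncard_eq_toFinset_card', Finset.card_eq_sum_card_image (Quotient.mk (Equiv.Perm.SameCycle.setoid f)) W.toFinset,
    Finset.sum_const_nat (m := 3), mul_comm]
  intro b hb
  obtain ⟨d, hd, rfl⟩ := Finset.mem_image.1 hb
  have hd' : d ∈ W := Set.mem_toFinset.1 hd
  have hf1 : f d ∈ W := (hW d).2 hd'
  have hf2 : f (f d) ∈ W := (hW _).2 hf1
  refine Finset.card_eq_three.2 ⟨d, f d, f (f d), (h1 d hd').symm, ?_, (h1 _ hf1).symm, ?_⟩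
  · intro h
    have h2 := congrArg f h
    rw [h3] at h2
    exact h1 d hd' h2
  · ext e
    rw [Finset.mem_filter, Set.mem_toFinset, Finset.mem_insert, Finset.mem_insert, Finset.mem_singleton]
    constructor
    · rintro ⟨-, h⟩
      have h4 : f.SameCycle d e := (Quotient.exact h).symm
      obtain ⟨n, hn⟩ := fb_nat h4
      rw [← hn]
      clear hn
      induction n with
      | zero => exact Or.inl rfl
      | succ n ih =>
        rw [pow_succ', Equiv.Perm.mul_apply]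
        rcases ih with h | h | h
        · rw [h]
          exact Or.inr (Or.inl rfl)
        · rw [h]
          exact Or.inr (Or.inr rfl)
        · rw [h, h3]
          exact Or.inl rfl
    · rintro (h | h | h)
      · rw [h]
        exact ⟨hd', rfl⟩
      · rw [h]
        exact ⟨hf1, Quotient.sound (fb_step d).symm⟩
      · rw [h]
        exact ⟨hf2, Quotient.sound ((fb_step d).trans (fb_step _)).symm⟩

private theorem fv_nx (hH : S.HUn H) (d : D) : S.nx d ∈ H ↔ d ∈ H := by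
  constructor
  · intro h1
    have h2 : d ∈ S.B := (nx_mem S).1 (hH.1 h1)
    exact hH.2 _ h1 d h2 (nx_same S h2).2.symm
  · intro h1
    have h2 := nx_same S (hH.1 h1)
    exact hH.2 _ h1 _ h2.1 h2.2

private theorem fv_cor (hH : S.HUn H) (hf : S.FillBy S' H F V) :
    Cor S S' (S'.R \ S.R) H (S.f⁻¹ * S'.f) (S.a⁻¹ * S'.a) ∧
      ∀ d, (S.f⁻¹ * S'.f) ((S.f⁻¹ * S'.f) ((S.f⁻¹ * S'.f) d)) = d :=
  cor_of hH.1 (fun _ hd => hd.2) hf.sub hf.B rfl

theorem fv_inv (hH : S.HUn H) (hf : S.FillBy S' H F V) : (∀ d, S'.f d ∈ S'.R \ S.R ↔ d ∈ S'.R \ S.R) ∧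
    (∀ d, S.nx d ∈ H ↔ d ∈ H) ∧ (∀ d, S'.a d ∈ (S'.R \ S.R) ∪ H ↔ d ∈ (S'.R \ S.R) ∪ H) ∧
    ∀ d ∈ (S'.R \ S.R) ∪ H, S'.a d ≠ d := by
  obtain ⟨c, hfff⟩ := fv_cor hH hf
  have key1 : ∀ d ∈ S'.R \ S.R, S'.f d ∈ S'.R \ S.R := by
    intro d hd
    rw [cf_W c hd]
    exact perm_mem c.f_off c.f_on hd
  have key2 : ∀ d ∈ (S'.R \ S.R) ∪ H, S'.a d ∈ (S'.R \ S.R) ∪ H := by
    intro d hd
    rw [ca_Y c hd]
    exact perm_mem c.a_off c.a_on hd
  refine ⟨fun d => ⟨fun h => ?_, key1 d⟩, fv_nx hH, fun d => ⟨fun h => ?_, key2 d⟩, fun d hd => ?_⟩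
  · have h1 := key1 _ (key1 _ h)
    rw [S'.fff] at h1
    exact h1
  · have h1 := key2 _ h
    rw [S'.aa] at h1
    exact h1
  · rw [ca_Y c hd]
    exact c.a_on d hd

private theorem fv_f (hH : S.HUn H) (hf : S.FillBy S' H F V) : rs S'.f (S'.R \ S.R) = S.f⁻¹ * S'.f := by
  obtain ⟨c, hfff⟩ := fv_cor hH hf
  apply Equiv.ext
  intro d
  by_cases hd : d ∈ S'.R \ S.R
  · rw [rs_mem (fv_inv hH hf).1 hd, cf_W c hd]
  · rw [rs_not_mem hd, c.f_off d hd]

private theorem fv_a (hH : S.HUn H) (hf : S.FillBy S' H F V) : rs S'.a ((S'.R \ S.R) ∪ H) = S.a⁻¹ * S'.a := by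
  obtain ⟨c, hfff⟩ := fv_cor hH hf
  apply Equiv.ext
  intro d
  by_cases hd : d ∈ (S'.R \ S.R) ∪ H
  · rw [rs_mem (fv_inv hH hf).2.2.1 hd, ca_Y c hd]
  · rw [rs_not_mem hd, c.a_off d hd]

private theorem fv_n (hH : S.HUn H) : rs S.nx H = restr S.nx H (fv_nx hH) := by
  apply Equiv.ext
  intro d
  by_cases hd : d ∈ H
  · rw [rs_mem (fv_nx hH) hd, restr_mem _ _ hd]
  · rw [rs_not_mem hd, restr_not_mem _ _ hd]

theorem fv_V (hH : S.HUn H) (hf : S.FillBy S' H F V) :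
    ncycOn (rs S'.f (S'.R \ S.R) * rs S.nx H * rs S'.a ((S'.R \ S.R) ∪ H)) ((S'.R \ S.R) ∪ H) = V := by
  obtain ⟨c, hfff⟩ := fv_cor hH hf
  rw [fv_f hH hf, fv_a hH hf, fv_n hH, ← cor_V c (fv_nx hH)]
  have h1 := hf.inn
  rw [cor_inn c hH.2] at h1
  exact Nat.add_left_cancel h1

theorem fv_trs (hH : S.HUn H) (hf : S.FillBy S' H F V) :
    Trs ((S'.R \ S.R) ∪ H) (rs S'.f (S'.R \ S.R) * rs S.nx H) (rs S'.a ((S'.R \ S.R) ∪ H)) := by
  obtain ⟨c, hfff⟩ := fv_cor hH hf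
  rw [fv_f hH hf, fv_a hH hf, fv_n hH]
  intro Z hZ hne h
  refine hf.conn Z hZ hne ((cor_conn c (fv_nx hH) hZ).2 fun d hd => ⟨(h d hd).1, ?_⟩)
  have h2 := (h d hd).2
  rw [Equiv.Perm.mul_apply] at h2
  rcases hZ hd with h3 | h3
  · have h4 : d ∉ H := fun h5 => h3.2 (B_sub_R S (hH.1 h5))
    rw [restr_not_mem _ _ h4] at h2 ⊢
    exact ⟨h2, hd⟩
  · have h4 : ∀ e ∈ H, e ∉ S'.R \ S.R := fun e he h5 => h5.2 (B_sub_R S (hH.1 he))
    rw [restr_mem _ _ h3, c.f_off _ (h4 _ ((fv_nx hH d).2 h3))] at h2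
    rw [restr_mem _ _ h3, c.f_off _ (h4 d h3)]
    exact ⟨hd, h2⟩

theorem fv_card (hf : S.FillBy S' H F V) : (S'.R \ S.R).ncard = 3 * F := by
  have h1 := Set.ncard_sdiff_add_ncard_of_subset hf.sub.R_sub (Set.toFinite S'.R)
  have h2 := hf.R
  omega

end Part
end SYS
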