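import Pool.Agent.SYS.LT.TwoA
import Pool.Agent.SYS.LT.FillV
import Pool.Agent.SYS.BD.Mg
import Pool.Agent.SYS.SH.Defs

/-!
# SYS-LT-TwoB: number of triangulations with given swaps and two hidden components, none of them a disc

Sum of `two_count` over the numbers of triangles and the genera of the two components (Euler relations).
-/

namespace SYS
namespace Part

open Classical SST Vm

private theorem twoB_clo {D : Type} [Finite D] {σ : Equiv.Perm D} {Z : Set D} (h : ∀ d ∈ Z, σ d ∈ Z) (d : D) :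
    σ d ∈ Z ↔ d ∈ Z := by
  refine ⟨fun hd => ?_, h d⟩
  have hs : σ.SameCycle (σ d) d := Equiv.Perm.SameCycle.symm ⟨1, by rw [zpow_one]⟩
  obtain ⟨n, -, hn⟩ := hs.exists_pow_eq'
  rw [← hn]
  clear hn
  induction n with
  | zero => exact hd
  | succ n ih =>
    rw [pow_succ', Equiv.Perm.mul_apply]
    exact h _ ih

private theorem twoB_inv {D : Type} [Finite D] {σ : Equiv.Perm D} {Z : Set D} (h : ∀ d, σ d ∈ Z ↔ d ∈ Z) {x y : D}
    (hs : σ.SameCycle x y) (hx : x ∈ Z) : y ∈ Z := by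
  obtain ⟨n, -, hn⟩ := hs.exists_pow_eq'
  rw [← hn]
  clear hn
  induction n with
  | zero => exact hx
  | succ n ih =>
    rw [pow_succ', Equiv.Perm.mul_apply]
    exact (h _).2 ih

private theorem twoB_add {D : Type} [Finite D] {σ : Equiv.Perm D} {A X : Set D} (hA : ∀ d, σ d ∈ A ↔ d ∈ A)
    (hAX : A ⊆ X) : ncycOn σ X = ncycOn σ A + ncycOn σ (X \ A) := by
  unfold ncycOn
  rw [← Set.ncard_union_eq ?_ (Set.toFinite _) (Set.toFinite _)]
  · congr 1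
    ext q
    constructor
    · rintro ⟨d, hd, rfl⟩
      by_cases hdA : d ∈ A
      · exact Or.inl ⟨d, hdA, rfl⟩
      · exact Or.inr ⟨d, ⟨hd, hdA⟩, rfl⟩
    · rintro (⟨d, hd, rfl⟩ | ⟨d, hd, rfl⟩)
      · exact ⟨d, hAX hd, rfl⟩
      · exact ⟨d, hd.1, rfl⟩
  · rw [Set.disjoint_left]
    rintro q ⟨d, hd, rfl⟩ ⟨e, he, h⟩
    have hs : σ.SameCycle e d := Quotient.exact h
    exact he.2 (twoB_inv hA hs.symm hd)

private theorem twoB_one {D : Type} [Finite D] {σ : Equiv.Perm D} {A : Set D} {b : D} (hb : b ∈ A)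
    (h : ncycOn σ A = 1) : ∀ e ∈ A, σ.SameCycle b e := by
  intro e he
  unfold ncycOn at h
  rw [Set.ncard_eq_one] at h
  obtain ⟨q, hq⟩ := h
  have h1 : (Quotient.mk (Equiv.Perm.SameCycle.setoid σ) b) ∈
      {q : Quotient (Equiv.Perm.SameCycle.setoid σ) | ∃ d ∈ A, Quotient.mk _ d = q} := ⟨b, hb, rfl⟩
  have h2 : (Quotient.mk (Equiv.Perm.SameCycle.setoid σ) e) ∈
      {q : Quotient (Equiv.Perm.SameCycle.setoid σ) | ∃ d ∈ A, Quotient.mk _ d = q} := ⟨e, he, rfl⟩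
  rw [hq, Set.mem_singleton_iff] at h1 h2
  exact Quotient.exact (h1.trans h2.symm)

private theorem twoB_pos {D : Type} [Finite D] {σ : Equiv.Perm D} {A : Set D} (hA : A.Nonempty) :
    0 < ncycOn σ A := by
  obtain ⟨b, hb⟩ := hA
  unfold ncycOn
  rw [Set.ncard_pos (Set.toFinite _)]
  exact ⟨_, b, hb, rfl⟩

/-- one component: faces and darts -/
private theorem twoB_comp {D : Type} [Finite D] {S : Part D} {T : Tri D} {ν : Equiv.Perm D} (h : S.Le T)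
    (hν : ∀ d ∉ S.B, ν d = d) {A H : Set D} (hA : S.Cmp T ν A) (hH : A ∩ S.B = H) (hνH : ∀ d, ν d ∈ H ↔ d ∈ H) :
    ∃ F : ℕ, (A \ S.B).ncard = 3 * F ∧ ncycOn (S.vphi T ν) A = F + ncycOn ν H ∧
      A.ncard = 3 * F + H.ncard := by
  have hBR : ∀ d ∈ S.B, d ∈ S.R := fun d hd => hd.1
  have hR : ∀ d ∈ A \ S.B, d ∉ S.R := fun d hd => by
    rcases hA.sub hd.1 with h1 | h1
    · exact h1
    · exact absurd h1 hd.2
  have hW : ∀ d, T.f d ∈ A \ S.B ↔ d ∈ A \ S.B := by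
    refine twoB_clo fun d hd => ?_
    have h1 : S.vphi T ν d = T.f d := vphi_R h hν (hR d hd)
    refine ⟨h1 ▸ hA.f d hd.1, fun h2 => hR d hd ?_⟩
    exact (le_f_mem h d).1 (hBR _ h2)
  have h3 := ncyc_three (f := T.f) hW (fun d _ => T.fne d) T.fff
  have hHA : H ⊆ A := by
    rw [← hH]
    exact Set.inter_subset_left
  have hHB : H ⊆ S.B := by
    rw [← hH]
    exact Set.inter_subset_right
  have hdiff : A \ H = A \ S.B := by
    ext d
    constructor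
    · rintro ⟨h1, h2⟩
      refine ⟨h1, fun h4 => h2 ?_⟩
      rw [← hH]
      exact ⟨h1, h4⟩
    · rintro ⟨h1, h2⟩
      exact ⟨h1, fun h4 => h2 (hHB h4)⟩
  have hvH : ∀ d, S.vphi T ν d ∈ H ↔ d ∈ H := by
    refine twoB_clo fun d hd => ?_
    rw [vphi_B hν (hHB hd)]
    exact (hνH d).2 hd
  refine ⟨ncycOn T.f (A \ S.B), h3.symm, ?_, ?_⟩
  · rw [twoB_add hvH hHA, hdiff]
    have e1 : ncycOn (S.vphi T ν) H = ncycOn ν H :=
      ncycOn_congr hνH fun d hd => vphi_B hν (hHB hd)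
    have e2 : ncycOn (S.vphi T ν) (A \ S.B) = ncycOn T.f (A \ S.B) :=
      ncycOn_congr hW fun d hd => vphi_R h hν (hR d hd)
    rw [e1, e2, add_comm]
  · have h5 := Set.ncard_sdiff_add_ncard_of_subset hHA (Set.toFinite A)
    rw [hdiff] at h5
    rw [h3]
    exact h5.symm

/-- no disc -/
private theorem twoB_disc {D : Type} [Finite D] {S : Part D} {T : Tri D} {ν : Equiv.Perm D} (h : S.Le T)
    (hν : ∀ d ∉ S.B, ν d = d) {A H : Set D} (hA : S.Cmp T ν A) (hH : A ∩ S.B = H) (hνH : ∀ d, ν d ∈ H ↔ d ∈ H)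
    (hne : H.Nonempty) (hAX : A ≠ S.X) (hnd : S.NoDisc T ν) {a e F : ℕ} (ha : a ≤ 2)
    (hF : (A \ S.B).ncard = 3 * F)
    (hE : 2 * ncycOn (S.vs T ν) A + 4 * e + 2 * Multiset.card (hls ν H) = 4 + F + (hls ν H).sum)
    (ha1 : 2 ≤ Multiset.card (hls ν H) → a + 1 ≤ Multiset.card (hls ν H)) :
    a + 1 ≤ Multiset.card (hls ν H) + 2 * e := by
  have hpos : 0 < Multiset.card (hls ν H) := by
    rw [hls_card]
    exact twoB_pos hne
  by_cases h2 : 2 ≤ Multiset.card (hls ν H)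
  · have := ha1 h2
    omega
  · have hc1 : Multiset.card (hls ν H) = 1 := by omega
    obtain ⟨b, hb⟩ := hne
    have hs := twoB_one hb (by rw [← hls_card]; exact hc1)
    have h3 := hnd A hA hAX ⟨b, by rw [hH]; exact hb, fun x hx => hs x (by rw [← hH]; exact hx)⟩
    obtain ⟨F', hF', hφ, hcard⟩ := twoB_comp h hν hA hH hνH
    rw [← hls_card (ν := ν), hc1] at hφ
    rw [hls_sum hνH] at hE
    have : e ≠ 0 := by
      intro he
      apply h3
      rw [hφ, hcard]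
      rw [hc1, he] at hE
      omega
    omega

theorem vir_two {n g h F κ a : ℕ} {S : Part (Fin (6 * n))} {l : List (Fin (6 * n))} {P : List ℕ} (hS : S.Typ l P F κ)
    {ps : List (Fin (6 * n) × Fin (6 * n))} (hps : ∀ p ∈ ps, p.1 ∈ S.B ∧ p.2 ∈ S.B) {H1 : Set (Fin (6 * n))} (h1 : H1 ⊆ S.B)
    (hν1 : ∀ d, S.nuL ps d ∈ H1 ↔ d ∈ H1) (hn1 : H1.Nonempty) (hn2 : (S.B \ H1).Nonempty)
    (hh : 2 * h + 2 * κ + ps.length + Multiset.card (hls (S.nuL ps) S.B) = 2 * g + P.length + 2) (ha : a ≤ 2)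
    (ha1 : 2 ≤ Multiset.card (hls (S.nuL ps) H1) → a + 1 ≤ Multiset.card (hls (S.nuL ps) H1))
    (ha2 : 2 ≤ Multiset.card (hls (S.nuL ps) (S.B \ H1)) → a + 1 ≤ Multiset.card (hls (S.nuL ps) (S.B \ H1))) :
    (({T | T ∈ S.Ext g ∧ S.Vir T ps ∧ S.NoDisc T (S.nuL ps) ∧ ∃ A : Set (Fin (6 * n)), S.Cmp T (S.nuL ps) A ∧
        S.Cmp T (S.nuL ps) (S.X \ A) ∧ A ∩ S.B = H1}.ncard : ℕ) : ℝ) ≤
      ((3 * F).factorial : ℝ) * Num.LL a (hls (S.nuL ps) H1) (hls (S.nuL ps) (S.B \ H1)) F h := by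
  -- elementary facts
  have hνoff : ∀ d ∉ S.B, S.nuL ps d = d := nuL_off hps
  have hνB : ∀ d, S.nuL ps d ∈ S.B ↔ d ∈ S.B := fun d => nuL_mem hps
  have hν2 : ∀ d, S.nuL ps d ∈ S.B \ H1 ↔ d ∈ S.B \ H1 := fun d => by
    rw [Set.mem_sdiff, Set.mem_sdiff, hνB d, hν1 d]
  have hvol : S.R.ncard + 3 * F = 6 * n := by
    have := hS.vol
    rwa [Nat.card_fin] at this
  have heul := hS.eul
  have hlen : l.length = P.length := by rw [← hS.per, List.length_map]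
  have hPsum : P.sum = S.B.ncard := by
    have e1 := hls_nx hS
    have e2 : ∀ d, S.nx d ∈ S.B ↔ d ∈ S.B := fun d =>
      nuL_mem (ps := []) (fun p hp => absurd hp List.not_mem_nil)
    have e3 := hls_sum e2
    rw [e1, Multiset.sum_coe] at e3
    exact e3
  have hBsum : H1.ncard + (S.B \ H1).ncard = S.B.ncard := by
    rw [add_comm]
    exact Set.ncard_sdiff_add_ncard_of_subset h1 (Set.toFinite _)
  have hcadd : Multiset.card (hls (S.nuL ps) S.B) =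
      Multiset.card (hls (S.nuL ps) H1) + Multiset.card (hls (S.nuL ps) (S.B \ H1)) := by
    rw [hls_card, hls_card, hls_card]
    exact twoB_add hν1 h1
  have hs1 := hls_sum hν1
  have hs2 := hls_sum hν2
  obtain ⟨r1, p1, c1, hp1, hc1, hr1, hcν1, hM1⟩ := exists_enum hν1
  obtain ⟨r2, p2, c2, hp2, hc2, hr2, hcν2, hM2⟩ := exists_enum hν2
  have hne1 : Nonempty (Fin r1) := by
    obtain ⟨b, hb⟩ := hn1
    rw [← hr1] at hb
    obtain ⟨z, -⟩ := hb
    exact ⟨z.1⟩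
  have hne2 : Nonempty (Fin r2) := by
    obtain ⟨b, hb⟩ := hn2
    rw [← hr2] at hb
    obtain ⟨z, -⟩ := hb
    exact ⟨z.1⟩
  have hcard1 : Multiset.card (hls (S.nuL ps) H1) = Fintype.card (Fin r1) := by
    rw [← hM1, Multiset.card_map]
    rfl
  have hcard2 : Multiset.card (hls (S.nuL ps) (S.B \ H1)) = Fintype.card (Fin r2) := by
    rw [← hM2, Multiset.card_map]
    rfl
  have hsum1 : (hls (S.nuL ps) H1).sum = ∑ i, p1 i := by
    rw [← hM1]
    rfl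
  have hsum2 : (hls (S.nuL ps) (S.B \ H1)).sum = ∑ i, p2 i := by
    rw [← hM2]
    rfl
  set ν := S.nuL ps with hνdef
  set M1 := hls ν H1 with hM1def
  set M2 := hls ν (S.B \ H1) with hM2def
  -- the pieces
  let Y : (ℕ × ℕ) × (ℕ × ℕ) → Set (Tri (Fin (6 * n))) := fun x =>
    {T | T ∈ S.Ext g ∧ S.Vir T ps ∧ (a + 1 ≤ Multiset.card M1 + 2 * x.2.1 ∧ a + 1 ≤ Multiset.card M2 + 2 * x.2.2) ∧
      ∃ V1 V2 : ℕ, (2 * V1 + 4 * x.2.1 + 2 * Multiset.card M1 = 4 + x.1.1 + M1.sum) ∧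
        (2 * V2 + 4 * x.2.2 + 2 * Multiset.card M2 = 4 + x.1.2 + M2.sum) ∧
        ∃ A : Set (Fin (6 * n)), S.Cmp T ν A ∧ S.Cmp T ν (S.X \ A) ∧ A ∩ S.B = H1 ∧
          (A \ S.B).ncard = 3 * x.1.1 ∧ ncycOn (S.vs T ν) A = V1}
  have hbound : ∀ x ∈ (Finset.HasAntidiagonal.antidiagonal F) ×ˢ (Finset.HasAntidiagonal.antidiagonal h), (((Y x).ncard : ℕ) : ℝ) ≤
      ((3 * F).factorial : ℝ) * (if a + 1 ≤ Multiset.card M1 + 2 * x.2.1 ∧ a + 1 ≤ Multiset.card M2 + 2 * x.2.2 then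
        Num.muG M1 x.1.1 x.2.1 * Num.muG M2 x.1.2 x.2.2 else 0) := by
    rintro ⟨⟨F1, F2⟩, ⟨e1, e2⟩⟩ hx
    rw [Finset.mem_product, Finset.HasAntidiagonal.mem_antidiagonal, Finset.HasAntidiagonal.mem_antidiagonal] at hx
    obtain ⟨hxF, hxh⟩ := hx
    dsimp only at hxF hxh
    have hnn : 0 ≤ ((3 * F).factorial : ℝ) * (if a + 1 ≤ Multiset.card M1 + 2 * e1 ∧ a + 1 ≤ Multiset.card M2 + 2 * e2 then
        Num.muG M1 F1 e1 * Num.muG M2 F2 e2 else 0) := by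
      refine mul_nonneg (by positivity) ?_
      split_ifs
      · exact mul_nonneg (Num.muG_nonneg _ _ _) (Num.muG_nonneg _ _ _)
      · exact le_rfl
    rcases Set.eq_empty_or_nonempty (Y ((F1, F2), (e1, e2))) with hemp | ⟨T0, hT0⟩
    · rw [hemp, Set.ncard_empty, Nat.cast_zero]
      exact hnn
    · obtain ⟨-, -, hcond, V1, V2, hE1, hE2, -⟩ := hT0
      dsimp only at hcond hE1 hE2
      dsimp only
      rw [if_pos hcond]
      have hV : V1 + V2 + S.inn + 2 * g = n + 2 + ps.length := by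
        omega
      have htc := two_count (n := n) (g := g) (F1 := F1) (F2 := F2) (V1 := V1) (V2 := V2) S hps h1 hν1
        (by rw [hxF]; exact hvol) hV p1 hp1 c1 hc1 hr1 hcν1 p2 hp2 c2 hc2 hr2 hcν2
      have hm1 : Num.muG M1 F1 e1 = ((mu p1 F1 V1 : ℚ) : ℝ) := by
        rw [← hM1]
        exact Num.muG_mu p1 (Or.inl hne1) (by rw [← hcard1, ← hsum1]; exact hE1)
      have hm2 : Num.muG M2 F2 e2 = ((mu p2 F2 V2 : ℚ) : ℝ) := by
        rw [← hM2]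
        exact Num.muG_mu p2 (Or.inl hne2) (by rw [← hcard2, ← hsum2]; exact hE2)
      have hsub : Y ((F1, F2), (e1, e2)) ⊆ {T | T ∈ S.Ext g ∧ S.Vir T ps ∧ ∃ A : Set (Fin (6 * n)), S.Cmp T (S.nuL ps) A ∧
          S.Cmp T (S.nuL ps) (S.X \ A) ∧ A ∩ S.B = H1 ∧ (A \ S.B).ncard = 3 * F1 ∧ ncycOn (S.vs T (S.nuL ps)) A = V1} := by
        rintro T ⟨hT1, hT2, -, V1', V2', hE1', -, A, hA1, hA2, hA3, hA4, hA5⟩
        dsimp only at hE1'
        refine ⟨hT1, hT2, A, hA1, hA2, hA3, hA4, ?_⟩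
        have : V1' = V1 := by omega
        rw [← this]
        exact hA5
      have hle := Set.ncard_le_ncard hsub (Set.toFinite _)
      rw [hm1, hm2]
      rw [hxF] at htc
      have htc' : (({T | T ∈ S.Ext g ∧ S.Vir T ps ∧ ∃ A : Set (Fin (6 * n)), S.Cmp T (S.nuL ps) A ∧
          S.Cmp T (S.nuL ps) (S.X \ A) ∧ A ∩ S.B = H1 ∧ (A \ S.B).ncard = 3 * F1 ∧
            ncycOn (S.vs T (S.nuL ps)) A = V1}.ncard : ℕ) : ℝ) ≤
          ((3 * F).factorial : ℝ) * (((mu p1 F1 V1 : ℚ) : ℝ) * ((mu p2 F2 V2 : ℚ) : ℝ)) := by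
        exact_mod_cast htc
      refine le_trans ?_ htc'
      exact_mod_cast hle
  have hcover : {T | T ∈ S.Ext g ∧ S.Vir T ps ∧ S.NoDisc T ν ∧ ∃ A : Set (Fin (6 * n)), S.Cmp T ν A ∧
        S.Cmp T ν (S.X \ A) ∧ A ∩ S.B = H1} ⊆
      ⋃ x ∈ (Finset.HasAntidiagonal.antidiagonal F) ×ˢ (Finset.HasAntidiagonal.antidiagonal h), Y x := by
    rintro T ⟨hT, hvir, hnd, A, hA1, hA2, hA3⟩
    have hle : S.Le T := hT.2
    have hBX : ∀ d ∈ S.B, d ∈ S.X := fun d hd => Or.inr hd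
    have hA3' : (S.X \ A) ∩ S.B = S.B \ H1 := by
      ext d
      constructor
      · rintro ⟨⟨-, hd2⟩, hd3⟩
        refine ⟨hd3, fun hd4 => hd2 ?_⟩
        rw [← hA3] at hd4
        exact hd4.1
      · rintro ⟨hd1, hd2⟩
        refine ⟨⟨hBX d hd1, fun hd3 => hd2 ?_⟩, hd1⟩
        rw [← hA3]
        exact ⟨hd3, hd1⟩
    obtain ⟨F1, hF1, hφ1, hcA1⟩ := twoB_comp hle hνoff hA1 hA3 hν1
    obtain ⟨F2, hF2, hφ2, hcA2⟩ := twoB_comp hle hνoff hA2 hA3' hν2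
    -- the volumes
    have hX1 : S.X.ncard = A.ncard + (S.X \ A).ncard := by
      rw [add_comm]
      exact (Set.ncard_sdiff_add_ncard_of_subset hA1.sub (Set.toFinite _)).symm
    have hX2 : S.X.ncard = S.Rᶜ.ncard + S.B.ncard := by
      have e1 : S.X = S.Rᶜ ∪ S.B := by
        ext d
        rfl
      rw [e1]
      refine Set.ncard_union_eq ?_ (Set.toFinite _) (Set.toFinite _)
      rw [Set.disjoint_left]
      intro d hd hd2
      exact hd hd2.1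
    have hX3 : S.R.ncard + S.Rᶜ.ncard = 6 * n := by
      rw [Set.ncard_add_ncard_compl, Nat.card_fin]
    have hFF : F1 + F2 = F := by omega
    -- the vertices
    have hvsA : ∀ d, S.vs T ν d ∈ A ↔ d ∈ A := by
      refine twoB_clo fun d hd => ?_
      show S.vphi T ν (S.valp T d) ∈ A
      rw [valp_X hle (hA1.sub hd)]
      exact hA1.f _ (hA1.a d hd)
    have hVadd := twoB_add hvsA hA1.sub
    have hVV := vir_V hT hvir
    rw [← hνdef, hVadd] at hVV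
    have hV : ncycOn (S.vs T ν) A + ncycOn (S.vs T ν) (S.X \ A) + S.inn + 2 * g = n + 2 + ps.length := hVV
    have htc := two_count (n := n) (g := g) (F1 := F1) (F2 := F2) (V1 := ncycOn (S.vs T ν) A)
      (V2 := ncycOn (S.vs T ν) (S.X \ A)) S hps h1 hν1
      (by rw [hFF]; exact hvol) hV p1 hp1 c1 hc1 hr1 hcν1 p2 hp2 c2 hc2 hr2 hcν2
    have hmem : 0 < {T' | T' ∈ S.Ext g ∧ S.Vir T' ps ∧ ∃ A' : Set (Fin (6 * n)), S.Cmp T' (S.nuL ps) A' ∧
          S.Cmp T' (S.nuL ps) (S.X \ A') ∧ A' ∩ S.B = H1 ∧ (A' \ S.B).ncard = 3 * F1 ∧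
            ncycOn (S.vs T' (S.nuL ps)) A' = ncycOn (S.vs T ν) A}.ncard := by
      rw [Set.ncard_pos (Set.toFinite _)]
      exact ⟨T, hT, hvir, A, hA1, hA2, hA3, hF1, rfl⟩
    have hq : (0 : ℚ) < ((3 * (F1 + F2)).factorial : ℚ) * (mu p1 F1 (ncycOn (S.vs T ν) A) *
        mu p2 F2 (ncycOn (S.vs T ν) (S.X \ A))) := lt_of_lt_of_le (Nat.cast_pos.2 hmem) htc
    have hq1 : mu p1 F1 (ncycOn (S.vs T ν) A) ≠ 0 := fun h0 => by
      rw [h0, zero_mul, mul_zero] at hq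
      exact lt_irrefl _ hq
    have hq2 : mu p2 F2 (ncycOn (S.vs T ν) (S.X \ A)) ≠ 0 := fun h0 => by
      rw [h0, mul_zero, mul_zero] at hq
      exact lt_irrefl _ hq
    rw [SYS.A.mu_eq p1 F1 _ (Or.inl hne1), hM1] at hq1
    rw [SYS.A.mu_eq p2 F2 _ (Or.inl hne2), hM2] at hq2
    obtain ⟨e1, he1⟩ := SYS.A.muP_euler hq1
    obtain ⟨e2, he2⟩ := SYS.A.muP_euler hq2
    have hee : e1 + e2 = h := by omega
    have hAX : A ≠ S.X := fun h0 => by
      have h2 := hA2.ne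
      rw [h0, Set.sdiff_self] at h2
      exact Set.not_nonempty_empty h2
    have hAX' : S.X \ A ≠ S.X := fun h0 => by
      obtain ⟨d, hd⟩ := hA1.ne
      have h2 : d ∈ S.X \ A := by
        rw [h0]
        exact hA1.sub hd
      exact h2.2 hd
    have hc1' := twoB_disc hle hνoff hA1 hA3 hν1 hn1 hAX hnd ha hF1 he1 ha1
    have hc2' := twoB_disc hle hνoff hA2 hA3' hν2 hn2 hAX' hnd ha hF2 he2 ha2
    rw [Set.mem_iUnion₂]
    refine ⟨((F1, F2), (e1, e2)), ?_, hT, hvir, ⟨hc1', hc2'⟩, _, _, he1, he2, A, hA1, hA2, hA3, hF1, rfl⟩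
    rw [Finset.mem_product, Finset.HasAntidiagonal.mem_antidiagonal, Finset.HasAntidiagonal.mem_antidiagonal]
    exact ⟨hFF, hee⟩
  have hle1 := Set.ncard_le_ncard hcover (Set.toFinite _)
  have hle2 := Finset.set_ncard_biUnion_le
    ((Finset.HasAntidiagonal.antidiagonal F) ×ˢ (Finset.HasAntidiagonal.antidiagonal h)) Y
  have hle3 : (({T | T ∈ S.Ext g ∧ S.Vir T ps ∧ S.NoDisc T ν ∧ ∃ A : Set (Fin (6 * n)), S.Cmp T ν A ∧
        S.Cmp T ν (S.X \ A) ∧ A ∩ S.B = H1}.ncard : ℕ) : ℝ) ≤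
      ∑ x ∈ (Finset.HasAntidiagonal.antidiagonal F) ×ˢ (Finset.HasAntidiagonal.antidiagonal h), (((Y x).ncard : ℕ) : ℝ) := by
    exact_mod_cast hle1.trans hle2
  refine hle3.trans ((Finset.sum_le_sum hbound).trans (le_of_eq ?_))
  unfold Num.LL
  rw [Finset.sum_product, Finset.mul_sum]
  refine Finset.sum_congr rfl fun f _ => ?_
  rw [Finset.mul_sum]

end Part
end SYS
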