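import Pool.Agent.SYS.LT.Basic
import Pool.Agent.SYS.LT.SwapL

/-!
# SYS-LT-Cnc: connectivity of the virtual hidden map and swaps

PLAN.  Write `φ := vphi T ν`, `φ' := vphi T (swap b b' * ν) = swap b b' * φ` (`vphi_swap`).  On `B`, `φ = ν` (`vphi_B`), and both preserve `B`, so for `b, e ∈ B`: `φ.SameCycle b e` iff
`ν.SameCycle b e` (`vphi_same`).
* `vconn_merge`: let `Z ⊆ X` be nonempty and closed under `T.a` (`valp`) and `φ'`.  `Z` is closed under `φ'.SameCycle` (finite), the cycles of `φ'` are unions of cycles of `φ`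
  (`swapL_diff`), so `Z` is closed under `φ`.
* `vconn_split`: if `b, b' ∉ Z` then for `d ∈ Z`: `φ' d ∈ Z`, so `φ' d ≠ b, b'` and `φ d = φ' d`; so `Z` is closed under `φ`, `Z = X ∋ b`.
* `vconn_both`: if `b, b' ∈ Z` then `φ d = swap b b' (φ' d) ∈ Z`.
* `cmp_meets`: a closed `Z` without boundary darts consists of hidden darts, `φ = T.f` on it, so it is `univ` by `T.Conn`; but `b ∈ B`.
* `vconn_emp`: `X = univ`, `vphi = T.f`, `valp = T.a`.
-/

namespace SYS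
namespace Part

open Classical SST Vm

variable {D : Type} [Finite D] {S : Part D} {T : Tri D} {ν : Equiv.Perm D}

private theorem cnc_clo {σ : Equiv.Perm D} {Z : Set D} (h : ∀ d ∈ Z, σ d ∈ Z) {x y : D} (hx : x ∈ Z)
    (hs : σ.SameCycle x y) : y ∈ Z := by
  obtain ⟨n, -, hn⟩ := hs.exists_pow_eq'
  rw [← hn]
  clear hn
  induction n with
  | zero => exact hx
  | succ n ih =>
    rw [pow_succ', Equiv.Perm.mul_apply]
    exact h _ ih

private theorem cnc_BX {d : D} (hd : d ∈ S.B) : d ∈ S.X := Or.inr hd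

theorem vphi_same (hν : ∀ d ∉ S.B, ν d = d) {b e : D} (hb : b ∈ S.B) :
    (S.vphi T ν).SameCycle b e ↔ ν.SameCycle b e := by
  have key : ∀ n : ℕ, ((S.vphi T ν) ^ n) b = (ν ^ n) b ∧ (ν ^ n) b ∈ S.B := by
    intro n
    induction n with
    | zero => exact ⟨rfl, hb⟩
    | succ n ih =>
      have e1 : ((S.vphi T ν) ^ (n + 1)) b = S.vphi T ν (((S.vphi T ν) ^ n) b) := by
        rw [pow_succ', Equiv.Perm.mul_apply]
      have e2 : (ν ^ (n + 1)) b = ν ((ν ^ n) b) := by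
        rw [pow_succ', Equiv.Perm.mul_apply]
      rw [e1, e2, ih.1, vphi_B hν ih.2]
      exact ⟨rfl, (nu_mem hν).2 ih.2⟩
  constructor
  · intro h
    obtain ⟨n, -, hn⟩ := h.exists_pow_eq'
    rw [(key n).1] at hn
    exact ⟨(n : ℤ), by rw [zpow_natCast]; exact hn⟩
  · intro h
    obtain ⟨n, -, hn⟩ := h.exists_pow_eq'
    rw [← (key n).1] at hn
    exact ⟨(n : ℤ), by rw [zpow_natCast]; exact hn⟩

theorem vconn_merge (h : S.Le T) (hν : ∀ d ∉ S.B, ν d = d) {b b' : D} (hb : b ∈ S.B) (hb' : b' ∈ S.B)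
    (hc : S.VConn T ν) (hn : ¬ ν.SameCycle b b') : S.VConn T (Equiv.swap b b' * ν) := by
  intro Z hZ hne hcl
  rw [vphi_swap hb hb'] at hcl
  have hn' : ¬ (S.vphi T ν).SameCycle b b' := fun h1 => hn ((vphi_same hν hb).1 h1)
  refine hc Z hZ hne fun d hd => ⟨(hcl d hd).1, ?_⟩
  refine cnc_clo (fun e he => (hcl e he).2) hd ?_
  rw [swapL_diff _ hn']
  exact Or.inl ⟨1, by rw [zpow_one]⟩

theorem vconn_split (h : S.Le T) (hν : ∀ d ∉ S.B, ν d = d) {b b' : D} (hb : b ∈ S.B) (hb' : b' ∈ S.B)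
    (hc : S.VConn T ν) {Z : Set D} (hZ : Z ⊆ S.X) (hne : Z.Nonempty)
    (hcl : ∀ d ∈ Z, T.a d ∈ Z ∧ S.vphi T (Equiv.swap b b' * ν) d ∈ Z) : b ∈ Z ∨ b' ∈ Z := by
  by_contra hcon
  rw [not_or] at hcon
  rw [vphi_swap hb hb'] at hcl
  have h1 : Z = S.X := by
    refine hc Z hZ hne fun d hd => ⟨?_, ?_⟩
    · rw [valp_X h (hZ hd)]
      exact (hcl d hd).1
    · have h2 := (hcl d hd).2
      rw [Equiv.Perm.mul_apply] at h2
      by_cases e1 : S.vphi T ν d = b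
      · rw [e1, Equiv.swap_apply_left] at h2
        exact absurd h2 hcon.2
      · by_cases e2 : S.vphi T ν d = b'
        · rw [e2, Equiv.swap_apply_right] at h2
          exact absurd h2 hcon.1
        · rwa [Equiv.swap_apply_of_ne_of_ne e1 e2] at h2
  exact hcon.1 (h1 ▸ cnc_BX hb)

theorem vconn_both (h : S.Le T) (hν : ∀ d ∉ S.B, ν d = d) {b b' : D} (hb : b ∈ S.B) (hb' : b' ∈ S.B)
    (hc : S.VConn T ν) {Z : Set D} (hZ : Z ⊆ S.X) (hcl : ∀ d ∈ Z, T.a d ∈ Z ∧ S.vphi T (Equiv.swap b b' * ν) d ∈ Z)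
    (h1 : b ∈ Z) (h2 : b' ∈ Z) : Z = S.X := by
  rw [vphi_swap hb hb'] at hcl
  refine hc Z hZ ⟨b, h1⟩ fun d hd => ⟨?_, ?_⟩
  · rw [valp_X h (hZ hd)]
    exact (hcl d hd).1
  · have h3 := (hcl d hd).2
    rw [Equiv.Perm.mul_apply] at h3
    by_cases e1 : S.vphi T ν d = b
    · rw [e1]
      exact h1
    · by_cases e2 : S.vphi T ν d = b'
      · rw [e2]
        exact h2
      · rwa [Equiv.swap_apply_of_ne_of_ne e1 e2] at h3

theorem cmp_meets (h : S.Le T) (hT : T.Conn) (hν : ∀ d ∉ S.B, ν d = d) (hB : S.B.Nonempty) {Z : Set D} (hZ : Z ⊆ S.X)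
    (hne : Z.Nonempty) (hcl : ∀ d ∈ Z, T.a d ∈ Z ∧ S.vphi T ν d ∈ Z) : (Z ∩ S.B).Nonempty := by
  by_contra hcon
  rw [Set.not_nonempty_iff_eq_empty] at hcon
  have hno : ∀ d ∈ Z, d ∉ S.B := by
    intro d hd hd'
    have h1 : d ∈ Z ∩ S.B := ⟨hd, hd'⟩
    rw [hcon] at h1
    exact h1
  have h1 : Z = Set.univ := by
    refine hT Z hne fun d hd => ⟨(hcl d hd).1, ?_⟩
    have h2 := (hcl d hd).2
    have h3 : d ∉ S.R := by
      rcases hZ hd with h4 | h4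
      · exact h4
      · exact absurd h4 (hno d hd)
    rwa [vphi_R h hν h3] at h2
  obtain ⟨b, hb⟩ := hB
  exact hno b (h1 ▸ Set.mem_univ b) hb

theorem vconn_emp (hT : T.Conn) : (emp : Part D).VConn T ((emp : Part D).nuL []) := by
  have hR : ∀ d : D, d ∉ (emp : Part D).R := fun d hd => hd rfl
  have hX : ∀ d : D, d ∈ (emp : Part D).X := fun d => Or.inl (hR d)
  have hL : (emp : Part D).Le T := ⟨fun d hd => absurd rfl hd, fun d hd => absurd rfl hd⟩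
  have hν : ∀ d ∉ (emp : Part D).B, (emp : Part D).nuL [] d = d :=
    nuL_off (fun p hp => absurd hp List.not_mem_nil)
  intro Z hZ hne hcl
  have h1 : Z = Set.univ := by
    refine hT Z hne fun d hd => ?_
    have h2 := hcl d hd
    rwa [valp_X hL (hX d), vphi_R hL hν (hR d)] at h2
  rw [h1]
  exact (Set.eq_univ_of_forall hX).symm

private theorem cnc_cmp (h : S.Le T) (hν : ∀ d ∉ S.B, ν d = d) {b b' : D} (hb : b ∈ S.B) (hb' : b' ∈ S.B)
    (hc : S.VConn T ν) {A : Set D} (hA : A ⊆ S.X) (hne : A.Nonempty)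
    (hcl : ∀ d ∈ A, T.a d ∈ A ∧ S.vphi T (Equiv.swap b b' * ν) d ∈ A) (hnb : ¬ (b ∈ A ∧ b' ∈ A)) :
    S.Cmp T (Equiv.swap b b' * ν) A := by
  refine ⟨hA, hne, fun d hd => (hcl d hd).1, fun d hd => (hcl d hd).2, ?_⟩
  intro W hW hWne hWcl
  by_contra hcon
  have hne2 : (A \ W).Nonempty := by
    by_contra h1
    rw [Set.not_nonempty_iff_eq_empty, Set.diff_eq_empty] at h1
    exact hcon (Set.Subset.antisymm hW h1)
  have hcl2 : ∀ d ∈ A \ W, T.a d ∈ A \ W ∧ S.vphi T (Equiv.swap b b' * ν) d ∈ A \ W := by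
    intro d hd
    refine ⟨⟨(hcl d hd.1).1, fun h1 => hd.2 ?_⟩, ⟨(hcl d hd.1).2, fun h1 => hd.2 ?_⟩⟩
    · have h2 := (hWcl _ h1).1
      rwa [T.aa] at h2
    · refine cnc_clo (fun e he => (hWcl e he).2) h1 ?_
      exact Equiv.Perm.SameCycle.symm ⟨1, by rw [zpow_one]⟩
  have h1 := vconn_split h hν hb hb' hc (hW.trans hA) hWne hWcl
  have h2 := vconn_split h hν hb hb' hc (Set.diff_subset.trans hA) hne2 hcl2
  rcases h1 with h1 | h1 <;> rcases h2 with h2 | h2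
  · exact h2.2 h1
  · exact hnb ⟨hW h1, h2.1⟩
  · exact hnb ⟨h2.1, hW h1⟩
  · exact h2.2 h1

/-- Either connected or there is a component which contains `b` and not `b'`, and its complement is a component. -/
theorem vconn_two (h : S.Le T) (hν : ∀ d ∉ S.B, ν d = d) {b b' : D} (hb : b ∈ S.B) (hb' : b' ∈ S.B)
    (hc : S.VConn T ν) : S.VConn T (Equiv.swap b b' * ν) ∨
      ∃ A : Set D, S.Cmp T (Equiv.swap b b' * ν) A ∧ S.Cmp T (Equiv.swap b b' * ν) (S.X \ A) ∧ b ∈ A ∧ b' ∉ A := by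
  by_cases hcc : S.VConn T (Equiv.swap b b' * ν)
  · exact Or.inl hcc
  right
  have hex : ∃ Z : Set D, Z ⊆ S.X ∧ Z.Nonempty ∧
      (∀ d ∈ Z, T.a d ∈ Z ∧ S.vphi T (Equiv.swap b b' * ν) d ∈ Z) ∧ Z ≠ S.X := by
    by_contra hno
    apply hcc
    intro Z hZ hne hcl
    by_contra hZX
    refine hno ⟨Z, hZ, hne, fun d hd => ⟨?_, (hcl d hd).2⟩, hZX⟩
    have h1 := (hcl d hd).1
    rwa [valp_X h (hZ hd)] at h1
  obtain ⟨Z, hZ, hne, hcl, hZX⟩ := hex
  have hνs : ∀ d ∉ S.B, (Equiv.swap b b' * ν) d = d := by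
    intro d hd
    rw [Equiv.Perm.mul_apply, hν d hd]
    exact Equiv.swap_apply_of_ne_of_ne (fun h1 => hd (h1 ▸ hb)) (fun h1 => hd (h1 ▸ hb'))
  have hM := vmp (T := T) h hνs
  have hco : ∀ Y : Set D, Y ⊆ S.X → (∀ d ∈ Y, T.a d ∈ Y ∧ S.vphi T (Equiv.swap b b' * ν) d ∈ Y) →
      ∀ d ∈ S.X \ Y, T.a d ∈ S.X \ Y ∧ S.vphi T (Equiv.swap b b' * ν) d ∈ S.X \ Y := by
    intro Y hY hYc d hd
    refine ⟨⟨(X_a h d).2 hd.1, fun h1 => hd.2 ?_⟩, ⟨(mp_f hM).2 hd.1, fun h1 => hd.2 ?_⟩⟩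
    · have h2 := (hYc _ h1).1
      rwa [T.aa] at h2
    · refine cnc_clo (fun e he => (hYc e he).2) h1 ?_
      exact Equiv.Perm.SameCycle.symm ⟨1, by rw [zpow_one]⟩
  have hnb : ¬ (b ∈ Z ∧ b' ∈ Z) := fun h1 => hZX (vconn_both h hν hb hb' hc hZ hcl h1.1 h1.2)
  have hne' : (S.X \ Z).Nonempty := by
    by_contra h1
    rw [Set.not_nonempty_iff_eq_empty, Set.diff_eq_empty] at h1
    exact hZX (Set.Subset.antisymm hZ h1)
  have hdd : S.X \ (S.X \ Z) = Z := by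
    rw [Set.diff_diff_cancel_left hZ]
  have hs := vconn_split h hν hb hb' hc hZ hne hcl
  have hnb' : ¬ (b ∈ S.X \ Z ∧ b' ∈ S.X \ Z) := by
    rintro ⟨h1, h2⟩
    rcases hs with h3 | h3
    · exact h1.2 h3
    · exact h2.2 h3
  have hCZ := cnc_cmp h hν hb hb' hc hZ hne hcl hnb
  have hCZ' := cnc_cmp h hν hb hb' hc Set.diff_subset hne' (hco Z hZ hcl) hnb'
  by_cases hbZ : b ∈ Z
  · exact ⟨Z, hCZ, hCZ', hbZ, fun h1 => hnb ⟨hbZ, h1⟩⟩
  · refine ⟨S.X \ Z, hCZ', ?_, ⟨cnc_BX hb, hbZ⟩, fun h1 => ?_⟩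
    · rw [hdd]
      exact hCZ
    · rcases hs with h3 | h3
      · exact hbZ h3
      · exact h1.2 h3

end Part
end SYS
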