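import Pool.Agent.SYS.LT.AddA
import Pool.Agent.SYS.LT.Cnc

/-!
# SYS-LT-AddB: new islands, connectivity, attachment, gauge
-/

namespace SYS
namespace Part

open Classical SST Vm

variable {D : Type} [Finite D] {S S' : Part D} {T : Tri D}

private theorem ab_clo {σ : Equiv.Perm D} {Z : Set D} (h : ∀ d ∈ Z, σ d ∈ Z) {x y : D} (hx : x ∈ Z)
    (hs : σ.SameCycle x y) : y ∈ Z := by
  obtain ⟨n, -, hn⟩ := hs.exists_pow_eq'
  rw [← hn]
  clear hn
  induction n with
  | zero => exact hx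
  | succ n ih =>
    rw [pow_succ', Equiv.Perm.mul_apply]
    exact h _ ih

private theorem ab_agree {σ τ : Equiv.Perm D} {Y : Set D} (hY : ∀ d ∈ Y, σ d ∈ Y)
    (h : ∀ d ∈ Y, τ d = σ d) {x y : D} (hx : x ∈ Y) (hs : σ.SameCycle x y) : τ.SameCycle x y := by
  obtain ⟨n, -, hn⟩ := hs.exists_pow_eq'
  have key : ∀ n : ℕ, (τ ^ n) x = (σ ^ n) x ∧ (σ ^ n) x ∈ Y := by
    intro n
    induction n with
    | zero => exact ⟨rfl, hx⟩
    | succ n ih =>
      rw [pow_succ', pow_succ', Equiv.Perm.mul_apply, Equiv.Perm.mul_apply, ih.1]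
      exact ⟨h _ ih.2, hY _ ih.2⟩
  refine ⟨(n : ℤ), ?_⟩
  rw [zpow_natCast, (key n).1, hn]

private theorem ab_psB (hA : S.Add S') {ps : List (D × D)} (hps : ∀ p ∈ ps, p.1 ∈ S.B ∧ p.2 ∈ S.B) :
    ∀ p ∈ ps, p.1 ∈ S'.B ∧ p.2 ∈ S'.B := fun p hp => ⟨hA.B (hps p hp).1, hA.B (hps p hp).2⟩

/-- `S'.a` maps new darts to new darts -/
private theorem ab_a (hA : S.Add S') {d : D} : S'.a d ∈ S.R ↔ d ∈ S.R := by
  constructor
  · intro h
    have h1 := (add_old hA h).1
    rw [S'.aa] at h1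
    rw [h1]
    exact (mem_R_a S _).2 h
  · intro h
    rw [(add_old hA h).1]
    exact (mem_R_a S _).2 h

private theorem ab_not (hA : S.Add S') {ps : List (D × D)} (hps : ∀ p ∈ ps, p.1 ∈ S.B ∧ p.2 ∈ S.B)
    {b c' : D} (hb : b ∈ S.B) (hc' : c' ∈ S'.B \ S.B) : ¬ (S'.nuL ps).SameCycle b c' := by
  intro h
  refine hc'.2 (ab_clo (Z := S.B) (fun d hd => ?_) hb h)
  rw [(add_nuL hA hps).1 d hd]
  exact (nuL_mem hps).2 hd

private theorem ab_cn (h : S.Sub S') {d e : D} (h' : S.Cn d e) : S'.Cn d e := by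
  unfold Cn at h'
  induction h' with
  | rel a b hab =>
    rcases hab with rfl | rfl
    · by_cases h1 : S.a a = a
      · rw [h1]
        exact cn_refl S' a
      · rw [← h.2 a h1]
        exact cn_a S' a
    · by_cases h1 : S.f a = a
      · rw [h1]
        exact cn_refl S' a
      · rw [← h.1 a h1]
        exact cn_f S' a
  | refl a => exact cn_refl S' a
  | symm a b _ ih => exact cn_symm ih
  | trans a b c _ _ ih1 ih2 => exact cn_trans ih1 ih2

theorem add_conn (hA : S.Add S') (h' : S'.Le T) {ps : List (D × D)} (hps : ∀ p ∈ ps, p.1 ∈ S.B ∧ p.2 ∈ S.B)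
    (hc : S.VConn T (S.nuL ps)) {z : D} (hz : z ∈ S'.B \ S.B) (h1 : ∀ e ∈ S'.B \ S.B, S'.nx.SameCycle z e) :
    S'.VConn T (S'.nuL ps) := by
  have h : S.Le T := sub_le hA.sub h'
  have hoff := nuL_off hps
  have hoff' := nuL_off (ab_psB hA hps)
  intro Z hZ hne hcl
  by_cases hex : ∃ e ∈ Z, e ∈ S'.B \ S.B
  · obtain ⟨e0, he0, he1⟩ := hex
    have hnew : ∀ e ∈ S'.B \ S.B, e ∈ Z := by
      intro e he
      have h2 : S'.nx.SameCycle e0 e := (h1 e0 he1).symm.trans (h1 e he)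
      have h3 : e ∈ Z ∩ (S'.B \ S.B) := by
        refine ab_clo (Z := Z ∩ (S'.B \ S.B)) (fun d hd => ⟨?_, add_new hA hd.2⟩) ⟨he0, he1⟩ h2
        have h4 := (hcl d hd.1).2
        rw [vphi_B hoff' hd.2.1, (add_nuL hA hps).2 d hd.2] at h4
        exact h4
      exact h3.1
    have hnB : ∀ d ∈ S'.B, d ∉ S.R → d ∈ Z := fun d hd hd' => hnew d ⟨hd, fun hb => hd' hb.1⟩
    have h5 : Z ∪ (S'.R \ S.R) = S.X := by
      refine hc _ ?_ (hne.mono Set.subset_union_left) ?_
      · rintro d (hd | hd)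
        · exact add_X hA (hZ hd)
        · exact Or.inl hd.2
      · have hX : ∀ d ∈ Z ∪ (S'.R \ S.R), d ∈ S.X := by
          rintro d (hd | hd)
          · exact add_X hA (hZ hd)
          · exact Or.inl hd.2
        intro d hd
        rw [valp_X h (hX d hd)]
        constructor
        · by_cases hdZ : d ∈ Z
          · have h6 := (hcl d hdZ).1
            rw [valp_X h' (hZ hdZ)] at h6
            exact Or.inl h6
          · have hd2 : d ∈ S'.R \ S.R := hd.resolve_left hdZ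
            have hdB : d ∉ S'.B := fun hb => hdZ (hnB d hb hd2.2)
            have ha : S'.a d ≠ d := fun hh => hdB ⟨hd2.1, hh⟩
            rw [h'.2 d ha]
            exact Or.inr ⟨(mem_R_a S' d).2 hd2.1, fun hh => hd2.2 ((ab_a hA).1 hh)⟩
        · by_cases hdR : d ∈ S.R
          · have hdZ : d ∈ Z := hd.resolve_right fun hh => hh.2 hdR
            have hdB : d ∈ S.B := (hX d hd).resolve_left fun hh => hh hdR
            have h6 := (hcl d hdZ).2
            rw [vphi_B hoff' (hA.B hdB), (add_nuL hA hps).1 d hdB] at h6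
            rw [vphi_B hoff hdB]
            exact Or.inl h6
          · rw [vphi_R h hoff hdR]
            by_cases hdR' : d ∈ S'.R
            · exact Or.inr ⟨(le_f_mem h' d).2 hdR', fun hh => hdR ((le_f_mem h d).1 hh)⟩
            · have hdZ : d ∈ Z := hd.resolve_right fun hh => hdR' hh.1
              have h6 := (hcl d hdZ).2
              rw [vphi_R h' hoff' hdR'] at h6
              exact Or.inl h6
    refine Set.Subset.antisymm hZ fun d hd => ?_
    have h6 : d ∈ Z ∪ (S'.R \ S.R) := by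
      rw [h5]
      exact add_X hA hd
    rcases h6 with h6 | h6
    · exact h6
    · exact hnB d (hd.resolve_left fun hh => hh h6.1) h6.2
  · exfalso
    have hno : ∀ e ∈ Z, e ∈ S'.B → e ∈ S.B := by
      intro e he he'
      by_contra h2
      exact hex ⟨e, he, he', h2⟩
    have h2 : Z = S.X := by
      refine hc Z (hZ.trans (add_X hA)) hne fun d hd => ?_
      obtain ⟨h3, h4⟩ := hcl d hd
      have h5 := hZ hd
      rw [valp_X h' h5] at h3
      rw [valp_X h (add_X hA h5)]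
      refine ⟨h3, ?_⟩
      by_cases hdR : d ∈ S'.R
      · have hdB : d ∈ S'.B := h5.resolve_left fun hh => hh hdR
        have hdB' := hno d hd hdB
        rw [vphi_B hoff' hdB, (add_nuL hA hps).1 d hdB'] at h4
        rw [vphi_B hoff hdB']
        exact h4
      · rw [vphi_R h' hoff' hdR] at h4
        rw [vphi_R h hoff fun hh => hdR (hA.sub.R_sub hh)]
        exact h4
    apply hex
    refine ⟨z, ?_, hz⟩
    rw [h2]
    exact Or.inl (add_X' hA hz)

/-- A new island at the vertex of `c` can be attached to a dart of this vertex which is `c` or in an earlier swap. -/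
theorem attach (hA : S.Add S') (h' : S'.Le T) {ps : List (D × D)} (hV : S.Vir T ps) {c c' : D} (hc : c ∈ S.B)
    (hc' : c' ∈ S'.B \ S.B) (htl : T.tl c = T.tl c') :
    ∃ b ∈ S.B, (b = c ∨ ∃ p ∈ ps, b = p.1 ∨ b = p.2) ∧ T.tl b = T.tl c ∧ S'.Vir T ((b, c') :: ps) := by
  have hps := vir_B hV
  obtain ⟨b, h1, h2, h3⟩ := vs_near h' (add_vir hA h' hV) (d := c) (e := c') (Or.inr (hA.B hc))
    (Or.inr hc'.1) htl (fun p hp => ⟨fun hh => hc'.2 (hh ▸ (hps p hp).1), fun hh => hc'.2 (hh ▸ (hps p hp).2)⟩)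
  have hb : b ∈ S.B := by
    rcases h1 with h1 | ⟨p, hp, h1 | h1⟩
    · rw [h1]
      exact hc
    · rw [h1]
      exact (hps p hp).1
    · rw [h1]
      exact (hps p hp).2
  have hne : b ≠ c' := fun hh => hc'.2 (hh ▸ hb)
  exact ⟨b, hb, h1, h2, add_vir hA h' hV, hA.B hb, hc'.1, hne, h3⟩

theorem attach_conn (hA : S.Add S') (h' : S'.Le T) {ps : List (D × D)} (hps : ∀ p ∈ ps, p.1 ∈ S.B ∧ p.2 ∈ S.B)
    (hc : S'.VConn T (S'.nuL ps)) {b c' : D} (hb : b ∈ S.B) (hc' : c' ∈ S'.B \ S.B) :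
    S'.VConn T (S'.nuL ((b, c') :: ps)) := by
  exact vconn_merge h' (nuL_off (ab_psB hA hps)) (hA.B hb) hc'.1 hc (ab_not hA hps hb hc')

theorem add_gau {G : Type} [Group G] {l k' : D → G} (hA : S.Add S') (h' : S'.Le T) (hk : S'.Gau T l k') (g : G) :
    ∃ k'' : D → G, S'.Gau T l k'' ∧ (∀ d ∈ S.R, k'' d = k' d) ∧ ∀ d ∉ S.R, k'' d = g * k' d := by
  have h : S.Le T := sub_le hA.sub h'
  refine ⟨fun d => if d ∈ S.R then k' d else g * k' d, ⟨fun d hd => ?_, fun d hd hd' => ?_⟩,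
    fun d hd => if_pos hd, fun d hd => if_neg hd⟩
  · have h1 := hk.f d hd
    by_cases hdR : d ∈ S.R
    · show (if T.f d ∈ S.R then k' (T.f d) else g * k' (T.f d)) =
        (if d ∈ S.R then k' d else g * k' d) * l d
      rw [if_pos ((le_f_mem h d).2 hdR), if_pos hdR, h1]
    · show (if T.f d ∈ S.R then k' (T.f d) else g * k' (T.f d)) =
        (if d ∈ S.R then k' d else g * k' d) * l d
      rw [if_neg (fun hh => hdR ((le_f_mem h d).1 hh)), if_neg hdR, h1, mul_assoc]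
  · have h1 := hk.a d hd hd'
    have ha : S'.a d ≠ d := fun hh => hd' ⟨hd, hh⟩
    have h2 : T.a d ∈ S.R ↔ d ∈ S.R := by
      rw [h'.2 d ha]
      exact ab_a hA
    by_cases hdR : d ∈ S.R
    · show (if T.a d ∈ S.R then k' (T.a d) else g * k' (T.a d)) =
        (if d ∈ S.R then k' d else g * k' d) * l d
      rw [if_pos (h2.2 hdR), if_pos hdR, h1]
    · show (if T.a d ∈ S.R then k' (T.a d) else g * k' (T.a d)) =
        (if d ∈ S.R then k' d else g * k' d) * l d
      rw [if_neg (fun hh => hdR (h2.1 hh)), if_neg hdR, h1, mul_assoc]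

theorem add_cls (hA : S.Add S') {ps : List (D × D)} (hcl : ∀ d ∈ S.R, ∀ e ∈ S.R, S.Cls ps d e)
    (hn : ∀ d ∈ S'.R \ S.R, ∀ e ∈ S'.R \ S.R, S'.Cn d e) {b c' : D} (hb : b ∈ S.B) (hc' : c' ∈ S'.B \ S.B) :
    ∀ d ∈ S'.R, ∀ e ∈ S'.R, S'.Cls ((b, c') :: ps) d e := by
  have key : ∀ x y : D, S.Cls ps x y → S'.Cls ((b, c') :: ps) x y := by
    intro x y hxy
    unfold Cls at hxy
    induction hxy with
    | rel u v huv =>
      rcases huv with huv | huv
      · exact Relation.EqvGen.rel _ _ (Or.inl (ab_cn hA.sub huv))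
      · exact Relation.EqvGen.rel _ _ (Or.inr (List.mem_cons_of_mem _ huv))
    | refl u => exact Relation.EqvGen.refl u
    | symm u v _ ih => exact Relation.EqvGen.symm _ _ ih
    | trans u v w _ _ ih1 ih2 => exact Relation.EqvGen.trans _ _ _ ih1 ih2
  have hroot : ∀ d ∈ S'.R, S'.Cls ((b, c') :: ps) d b := by
    intro d hd
    by_cases hdR : d ∈ S.R
    · exact key d b (hcl d hdR b hb.1)
    · have h1 : S'.Cls ((b, c') :: ps) d c' :=
        Relation.EqvGen.rel _ _ (Or.inl (hn d ⟨hd, hdR⟩ c' ⟨hc'.1.1, add_X' hA hc'⟩))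
      have h2 : S'.Cls ((b, c') :: ps) b c' :=
        Relation.EqvGen.rel _ _ (Or.inr List.mem_cons_self)
      exact Relation.EqvGen.trans _ _ _ h1 (Relation.EqvGen.symm _ _ h2)
  intro d hd e he
  exact Relation.EqvGen.trans _ _ _ (hroot d hd) (Relation.EqvGen.symm _ _ (hroot e he))

theorem add_one (hA : S.Add S') {ps : List (D × D)} (hps : ∀ p ∈ ps, p.1 ∈ S.B ∧ p.2 ∈ S.B)
    (h1 : ∀ b ∈ S.B, ∀ b' ∈ S.B, (S.nuL ps).SameCycle b b') (h2 : ∀ b ∈ S'.B \ S.B, ∀ b' ∈ S'.B \ S.B, S'.nx.SameCycle b b')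
    {b c' : D} (hb : b ∈ S.B) (hc' : c' ∈ S'.B \ S.B) :
    ∀ e ∈ S'.B, ∀ e' ∈ S'.B, (S'.nuL ((b, c') :: ps)).SameCycle e e' := by
  have hnot := ab_not hA hps hb hc'
  have key : ∀ e ∈ S'.B, (S'.nuL ps).SameCycle b e ∨ (S'.nuL ps).SameCycle c' e := by
    intro e he
    by_cases heB : e ∈ S.B
    · left
      exact ab_agree (Y := S.B) (fun d hd => (nuL_mem hps).2 hd)
        (fun d hd => (add_nuL hA hps).1 d hd) hb (h1 b hb e heB)
    · right
      exact ab_agree (Y := S'.B \ S.B) (fun d hd => add_new hA hd)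
        (fun d hd => (add_nuL hA hps).2 d hd) hc' (h2 c' hc' e ⟨he, heB⟩)
  intro e he e' he'
  show (Equiv.swap b c' * S'.nuL ps).SameCycle e e'
  rw [swapL_diff _ hnot]
  exact Or.inr ⟨key e he, key e' he'⟩

end Part
end SYS
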