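import Pool.Agent.SYS.LT.StG

/-!
# SYS-LT-RchG: the gauge of an explored word

Along the chain of `S.nx` the gauge is multiplied by the labels; the swallowed word has trivial holonomy.
-/

namespace SYS
namespace Part

open Classical SST Vm

variable {D : Type} [Finite D] {S S' : Part D} {T : Tri D} {G : Type} [Group G] {l k : D → G}

private theorem chain_k (h : S.Le T) (hl : Flat T l) (hk : S.Gau T l k) : ∀ (u : List D) (d y : D),
    List.IsChain (fun d e => S.nx d = e) (d :: (u ++ [y])) → (∀ e ∈ d :: u, e ∈ S.B) →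
      k y = k d * l d * hol l u := by
  intro u
  induction u with
  | nil =>
    intro d y hc hB
    have h1 : S.nx d = y := (List.isChain_cons_cons.1 hc).1
    rw [hol_nil, mul_one, ← h1]
    exact gau_nx h hl hk (hB d List.mem_cons_self)
  | cons e u ih =>
    intro d y hc hB
    have h0 := List.isChain_cons_cons.1 hc
    have h1 : S.nx d = e := h0.1
    have h2 := ih e y h0.2 fun e' he' => hB e' (List.mem_cons_of_mem _ he')
    have h3 := gau_nx h hl hk (hB d List.mem_cons_self)
    rw [h1] at h3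
    rw [h2, h3, hol_cons]
    group

private theorem df_sub {S1 S' : Part D} {u : List D} {a : ℕ} (h : S1.DiscFill S' u a) : S1.Sub S' := by
  rcases h with ⟨_, _, h⟩ | ⟨_, V, _, h⟩
  · rw [h]
    exact sub_refl S1
  · exact h.sub

private theorem wfacts {x y : D} (hx : x ∈ S.B) (hy : y ∈ S.B) {u v : List D}
    (hw : S.hw x = x :: (u ++ y :: v)) : x ≠ y ∧ ∀ d, d ∈ u ∨ d ∈ v → d ∈ (S.glue x y hx hy).B := by
  have hn := hw_nodup S hx
  rw [hw, List.nodup_cons] at hn
  obtain ⟨hn1, hn2⟩ := hn
  have hxy : x ≠ y := by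
    rintro rfl
    exact hn1 (by simp)
  have hn3 := List.nodup_middle.1 hn2
  rw [List.nodup_cons] at hn3
  refine ⟨hxy, fun d hd => ?_⟩
  have hd1 : d ∈ S.hw x := by
    rw [hw]
    rcases hd with hd | hd
    · simp [hd]
    · simp [hd]
  rw [glue_B S hx hy hxy]
  refine ⟨((mem_hw S hx).1 hd1).1, ?_⟩
  rintro (rfl | h)
  · apply hn1
    rcases hd with hd | hd
    · simp [hd]
    · simp [hd]
  · have hdy : d = y := h
    subst hdy
    apply hn3.1
    rcases hd with hd | hd
    · simp [hd]
    · simp [hd]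

theorem st_gau (hl : Flat T l) (hk : S.Gau T l k) {x z : D} {s : Stp} (hs : S.St x s S' z) (h' : S'.Le T) :
    ∃ k' : D → G, S'.Gau T l k' ∧ ∀ d ∈ S.R, k' d = k d := by
  have hS : S.Le T := sub_le (st_sub hs).1 h'
  have hBw : ∀ {x : D}, x ∈ S.B → ∀ d ∈ S.hw x, d ∈ S.B := fun hx d hd => ((mem_hw S hx).1 hd).1
  cases s with
  | T =>
    obtain ⟨t0, t1, t2, hx, h0, h1, h2, h01, h12, h20, rfl, -⟩ := hs
    exact face_gau hl hk hx h0 h1 h2 h01 h12 h20 h'
  | R n a =>
    obtain ⟨y, u, v, w, hx, hy, hw, -, -, hd⟩ := hs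
    obtain ⟨hxy, hB1⟩ := wfacts hx hy hw
    have hle : (S.glue x y hx hy).Le T := sub_le (df_sub hd) h'
    have hu : u = [] ∨ ∃ z ∈ (S.glue x y hx hy).B, (S.glue x y hx hy).hw z = u := by
      cases u with
      | nil => exact Or.inl rfl
      | cons z0 w0 =>
        exact Or.inr ⟨z0, hB1 z0 (Or.inl List.mem_cons_self), hw_glue_split_left S hx hy hw rfl⟩
    have hhol := df_hol hl hu hd h'
    have hc := hw_chain S hx
    rw [hw, show x :: (u ++ y :: v) = (x :: u) ++ y :: v from rfl] at hc
    have hc1 := (List.isChain_split.mp hc).1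
    have hk1 : k y = k x * l x := by
      have h1 := chain_k hS hl hk u x y hc1 fun e he => hBw hx e (by
        rw [hw, show x :: (u ++ y :: v) = (x :: u) ++ y :: v from rfl]
        exact List.mem_append_left _ he)
      rw [hhol, mul_one] at h1
      exact h1
    exact df_gau (S := S.glue x y hx hy) hl (glue_gau hl hk hx hy hxy hle hk1) hu hd h'
  | L n a =>
    obtain ⟨y, u, v, w, hx, hy, hw, -, -, hd⟩ := hs
    obtain ⟨hxy, hB1⟩ := wfacts hx hy hw
    have hle : (S.glue x y hx hy).Le T := sub_le (df_sub hd) h'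
    have hu : v = [] ∨ ∃ z ∈ (S.glue x y hx hy).B, (S.glue x y hx hy).hw z = v := by
      cases v with
      | nil => exact Or.inl rfl
      | cons z0 w0 =>
        exact Or.inr ⟨z0, hB1 z0 (Or.inr List.mem_cons_self), hw_glue_split_right S hx hy hw rfl⟩
    have hhol := df_hol hl hu hd h'
    have hr : S.hw y = y :: (v ++ (x :: u)) := hw_rot S hx (u := x :: u) (v := v) hw
    have hc := hw_chain S hy
    rw [hr, show y :: (v ++ x :: u) = (y :: v) ++ x :: u from rfl] at hc
    have hc1 := (List.isChain_split.mp hc).1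
    have hTa : T.a x = y := by
      have h1 : (S.glue x y hx hy).a x = y := by
        show (S.a * Equiv.swap x y) x = y
        rw [Equiv.Perm.mul_apply, Equiv.swap_apply_left, hy.2]
      rw [hle.2 x (by rw [h1]; exact hxy.symm), h1]
    have hly : l y = (l x)⁻¹ := by
      rw [← hTa]
      exact hl.inv x
    have hk1 : k y = k x * l x := by
      have h1 := chain_k hS hl hk v y x hc1 fun e he => hBw hy e (by
        rw [hr, show y :: (v ++ x :: u) = (y :: v) ++ x :: u from rfl]
        exact List.mem_append_left _ he)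
      rw [hhol, mul_one, hly] at h1
      rw [h1]
      group
    exact df_gau (S := S.glue x y hx hy) hl (glue_gau hl hk hx hy hxy hle hk1) hu hd h'

theorem rch_gau (hl : Flat T l) (hk : S.Gau T l k) {ρ : List Stp → ℕ} {hs w : List Stp} {x x' : D}
    (hr : Rch ρ hs S x w S' x') (h' : S'.Le T) : ∃ k' : D → G, S'.Gau T l k' ∧ ∀ d ∈ S.R, k' d = k d := by
  induction w generalizing hs S x k with
  | nil =>
    obtain ⟨rfl, -⟩ := hr
    exact ⟨k, hk, fun _ _ => rfl⟩
  | cons s w ih =>
    obtain ⟨S₁, z, hst, hr⟩ := hr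
    obtain ⟨k1, hk1, h1⟩ := st_gau hl hk hst (sub_le (rch_sub hr) h')
    obtain ⟨k', hk', h2⟩ := ih hk1 hr
    refine ⟨k', hk', fun d hd => ?_⟩
    have h3 : d ∈ S₁.R := by
      have h4 := (st_sub hst).1.1 d hd
      show S₁.f d ≠ d
      rw [h4]
      exact hd
    rw [h2 d h3, h1 d hd]

end Part
end SYS
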