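import Pool.Agent.SYS.LT.FillG

/-!
# SYS-LT-StG: the gauge after one elementary change of the region

PLAN.
* `emp_gau`: `R = ∅`.
* `tri_gau`: `k' t0 := g`, `k' t1 := g * l t0`, `k' t2 := g * l t0 * l t1`, `k' d := k d` otherwise; `T.f t0 = t1` etc. from `S'.Le T` (`S'.f t0 = t1`); `k' (T.f t2) = g = k' t2 * l t2` by `Flat.face`.
  `a`: the new darts are in `B'`; old ones: `T.a d = S.a d ∈ S.R`.
* `glue_gau`: `S.f`, `R` are the same; `B' = B \ {x, y}` (`glue_B`): for `x`: `T.a x = y`, `hxy`; for `y`: `T.a y = x`, `k x = k y * l y` since `l y = (l x)⁻¹` (`Flat.inv`); `T.a x = y` from `h'` (`S'.a x = y ≠ x`).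
* `face_gau`: `face_eq`: `tri_gau` with `g := k x * l x`, then `glue_gau` for `x` and `t0`.
* `df_gau`: `DiscFill`: `u = []`: nothing; otherwise `fill_gau` (`u` is the hole word of its first dart).
-/

namespace SYS
namespace Part

open Classical SST Vm

variable {D : Type} [Finite D] {S S' : Part D} {T : Tri D} {G : Type} [Group G] {l k : D → G}

private theorem stg_c0 {t0 t1 t2 : D} (h01 : t0 ≠ t1) (h20 : t2 ≠ t0) : cyc3 t0 t1 t2 t0 = t1 := by
  unfold cyc3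
  rw [Equiv.Perm.mul_apply, Equiv.swap_apply_of_ne_of_ne h01 h20.symm, Equiv.swap_apply_left]

private theorem stg_c1 {t0 t1 t2 : D} (h12 : t1 ≠ t2) (h20 : t2 ≠ t0) : cyc3 t0 t1 t2 t1 = t2 := by
  unfold cyc3
  rw [Equiv.Perm.mul_apply, Equiv.swap_apply_left, Equiv.swap_apply_of_ne_of_ne h20 h12.symm]

private theorem stg_c2 {t0 t1 t2 : D} : cyc3 t0 t1 t2 t2 = t0 := by
  unfold cyc3
  rw [Equiv.Perm.mul_apply, Equiv.swap_apply_right, Equiv.swap_apply_right]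

omit [Finite D] in
theorem emp_gau (T : Tri D) (l k : D → G) : (emp : Part D).Gau T l k := by
  exact ⟨fun d hd => absurd rfl hd, fun d hd => absurd rfl hd⟩

theorem tri_gau (hl : Flat T l) (hk : S.Gau T l k) {t0 t1 t2 : D} (h0 : t0 ∉ S.R) (h1 : t1 ∉ S.R) (h2 : t2 ∉ S.R) (h01 : t0 ≠ t1)
    (h12 : t1 ≠ t2) (h20 : t2 ≠ t0) (h' : (S.newTri t0 t1 t2 h0 h1 h2 h01 h12 h20).Le T) (g : G) :
    ∃ k' : D → G, (S.newTri t0 t1 t2 h0 h1 h2 h01 h12 h20).Gau T l k' ∧ (∀ d ∈ S.R, k' d = k d) ∧ k' t0 = g := by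
  have hS : S.Le T := sub_le (newTri_sub S h0 h1 h2 h01 h12 h20) h'
  have hf0 : S.f t0 = t0 := not_not.1 h0
  have hf1 : S.f t1 = t1 := not_not.1 h1
  have hf2 : S.f t2 = t2 := not_not.1 h2
  have e0 : (S.newTri t0 t1 t2 h0 h1 h2 h01 h12 h20).f t0 = t1 := by
    show S.f (cyc3 t0 t1 t2 t0) = t1
    rw [stg_c0 h01 h20, hf1]
  have e1 : (S.newTri t0 t1 t2 h0 h1 h2 h01 h12 h20).f t1 = t2 := by
    show S.f (cyc3 t0 t1 t2 t1) = t2
    rw [stg_c1 h12 h20, hf2]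
  have e2 : (S.newTri t0 t1 t2 h0 h1 h2 h01 h12 h20).f t2 = t0 := by
    show S.f (cyc3 t0 t1 t2 t2) = t0
    rw [stg_c2, hf0]
  have T0 : T.f t0 = t1 := by rw [h'.1 t0 (by rw [e0]; exact h01.symm), e0]
  have T1 : T.f t1 = t2 := by rw [h'.1 t1 (by rw [e1]; exact h12.symm), e1]
  have T2 : T.f t2 = t0 := by rw [h'.1 t2 (by rw [e2]; exact h20.symm), e2]
  set k' : D → G := fun d => if d = t0 then g else if d = t1 then g * l t0 else if d = t2 then g * l t0 * l t1 else k d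
    with hk'
  have k0 : k' t0 = g := if_pos rfl
  have k1 : k' t1 = g * l t0 := by
    rw [hk']
    dsimp only
    rw [if_neg h01.symm, if_pos rfl]
  have k2 : k' t2 = g * l t0 * l t1 := by
    rw [hk']
    dsimp only
    rw [if_neg h20, if_neg h12.symm, if_pos rfl]
  have kR : ∀ d ∈ S.R, k' d = k d := by
    intro d hd
    rw [hk']
    dsimp only
    rw [if_neg, if_neg, if_neg]
    · rintro rfl
      exact h2 hd
    · rintro rfl
      exact h1 hd
    · rintro rfl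
      exact h0 hd
  refine ⟨k', ⟨fun d hd => ?_, fun d hd hd' => ?_⟩, kR, k0⟩
  · rw [newTri_R] at hd
    rcases hd with hd | hd | hd | hd
    · rw [kR d hd, kR _ ((le_f_mem hS d).2 hd), hk.f d hd]
    · rw [hd, T0, k0, k1]
    · rw [hd, T1, k1, k2]
    · have hd2 : d = t2 := hd
      rw [hd2, T2, k0, k2]
      have h3 := hl.face t0
      rw [T0, T1] at h3
      rw [mul_assoc, mul_assoc, ← mul_assoc (l t0), h3, mul_one]
  · rw [newTri_B] at hd'
    rw [newTri_R] at hd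
    rcases hd with hd | hd
    · have hB : d ∉ S.B := fun h => hd' (Or.inl h)
      have h3 : S.a d ≠ d := fun e => hB ⟨hd, e⟩
      have h4 : T.a d = S.a d := hS.2 d h3
      have h5 : T.a d ∈ S.R := by
        rw [h4]
        exact (mem_R_a S d).2 hd
      rw [kR d hd, kR _ h5, hk.a d hd hB]
    · exact absurd (Or.inr hd) hd'

theorem glue_gau (hl : Flat T l) (hk : S.Gau T l k) {x y : D} (hx : x ∈ S.B) (hy : y ∈ S.B) (hne : x ≠ y)
    (h' : (S.glue x y hx hy).Le T) (hxy : k y = k x * l x) : (S.glue x y hx hy).Gau T l k := by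
  have e1 : (S.glue x y hx hy).a x = y := by
    show (S.a * Equiv.swap x y) x = y
    rw [Equiv.Perm.mul_apply, Equiv.swap_apply_left, hy.2]
  have e2 : T.a x = y := by rw [h'.2 x (by rw [e1]; exact hne.symm), e1]
  refine ⟨fun d hd => hk.f d hd, fun d hd hd' => ?_⟩
  rw [glue_B S hx hy hne] at hd'
  by_cases hB : d ∈ S.B
  · have h3 : d = x ∨ d = y := by
      by_contra h4
      exact hd' ⟨hB, h4⟩
    rcases h3 with rfl | rfl
    · rw [e2, hxy]
    · have h4 : T.a d = x := by rw [← e2, T.aa]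
      have h5 : l d = (l x)⁻¹ := by rw [← e2, hl.inv]
      rw [h4, h5, hxy, mul_inv_cancel_right]
  · exact hk.a d hd hB

theorem face_gau (hl : Flat T l) (hk : S.Gau T l k) {x t0 t1 t2 : D} (hx : x ∈ S.B) (h0 : t0 ∉ S.R) (h1 : t1 ∉ S.R) (h2 : t2 ∉ S.R)
    (h01 : t0 ≠ t1) (h12 : t1 ≠ t2) (h20 : t2 ≠ t0) (h' : (S.face x t0 t1 t2 hx h0 h1 h2 h01 h12 h20).Le T) :
    ∃ k' : D → G, (S.face x t0 t1 t2 hx h0 h1 h2 h01 h12 h20).Gau T l k' ∧ ∀ d ∈ S.R, k' d = k d := by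
  have hx1 : x ∈ (S.newTri t0 t1 t2 h0 h1 h2 h01 h12 h20).B := by rw [newTri_B]; exact Or.inl hx
  have ht1 : t0 ∈ (S.newTri t0 t1 t2 h0 h1 h2 h01 h12 h20).B := by rw [newTri_B]; exact Or.inr (Or.inl rfl)
  have hne : x ≠ t0 := by
    rintro rfl
    exact h0 hx.1
  rw [face_eq] at h' ⊢
  have h3 : (S.newTri t0 t1 t2 h0 h1 h2 h01 h12 h20).Le T := sub_le (glue_sub _ hx1 ht1) h'
  obtain ⟨k', hk1, hk2, hk3⟩ := tri_gau hl hk h0 h1 h2 h01 h12 h20 h3 (k x * l x)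
  refine ⟨k', glue_gau hl hk1 hx1 ht1 hne h' ?_, hk2⟩
  rw [hk3, hk2 x hx.1]

theorem df_gau (hl : Flat T l) (hk : S.Gau T l k) {u : List D} (hu : u = [] ∨ ∃ z ∈ S.B, S.hw z = u) {a : ℕ}
    (hd : S.DiscFill S' u a) (h' : S'.Le T) : ∃ k' : D → G, S'.Gau T l k' ∧ ∀ d ∈ S.R, k' d = k d := by
  rcases hd with ⟨_, _, rfl⟩ | ⟨hne, V, hV, hf⟩
  · exact ⟨k, hk, fun _ _ => rfl⟩
  · rcases hu with h1 | ⟨z, hz, rfl⟩
    · exact absurd h1 hne
    · exact fill_gau h' hl hk hz hV hf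

/-- The word of a hole which is filled by a disc is trivial (no gauge is needed). -/
theorem df_hol (hl : Flat T l) {u : List D} (hu : u = [] ∨ ∃ z ∈ S.B, S.hw z = u) {a : ℕ}
    (hd : S.DiscFill S' u a) (h' : S'.Le T) : hol l u = 1 := by
  rcases hd with ⟨rfl, _, _⟩ | ⟨hne, V, hV, hf⟩
  · exact hol_nil l
  · rcases hu with h1 | ⟨z, hz, rfl⟩
    · exact absurd h1 hne
    · exact fill_hol h' hl hz hV hf

end Part
end SYS
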