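import Pool.Agent.SYS.LT.Vert

/-!
# SYS-LT-AddA: new islands, the vertex permutation

`S'` = `S` with new islands: `S.Sub S'`, `S.B ⊆ S'.B` (`S.Add S'`).  The hidden darts of `S'` are the hidden darts of `S` without the darts of the new islands which are not on their boundary; the
vertex permutation of the virtual hidden map of `S'` is the first return of that of `S`.
-/

namespace SYS
namespace Part

open Classical SST Vm

variable {D : Type} [Finite D] {S S' : Part D} {T : Tri D}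

theorem add_old (hA : S.Add S') {d : D} (hd : d ∈ S.R) : S'.a d = S.a d ∧ S'.f d = S.f d ∧ S'.s d = S.s d := by
  have key : ∀ d, d ∈ S.R → S'.a d = S.a d := by
    intro d hd
    by_cases ha : S.a d = d
    · have h1 : d ∈ S'.B := hA.B ⟨hd, ha⟩
      rw [h1.2, ha]
    · exact hA.sub.2 d ha
  have key' : ∀ d, d ∈ S.R → S'.f d = S.f d := fun d hd => hA.sub.1 d hd
  refine ⟨key d hd, key' d hd, ?_⟩
  rw [s_apply, s_apply, key d hd]
  exact key' _ ((mem_R_a S d).2 hd)

private theorem add_B (hA : S.Add S') {z : D} (hz : z ∈ S.R) : z ∈ S'.B ↔ z ∈ S.B := by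
  obtain ⟨h1, _, _⟩ := add_old hA hz
  constructor
  · intro h
    refine ⟨hz, ?_⟩
    rw [← h1]
    exact h.2
  · exact fun h => hA.B h

theorem add_nx (hA : S.Add S') {d : D} (hd : d ∈ S.B) : S'.nx d = S.nx d := by
  obtain ⟨j, h1, h2, h3⟩ := ret_spec S.s hd
  have key : ∀ i, (S'.s ^ i) d = (S.s ^ i) d ∧ (S.s ^ i) d ∈ S.R := by
    intro i
    induction i with
    | zero => exact ⟨rfl, hd.1⟩
    | succ i ih =>
      rw [pow_succ', pow_succ', Equiv.Perm.mul_apply, Equiv.Perm.mul_apply, ih.1]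
      exact ⟨(add_old hA ih.2).2.2, (mem_R_s S _).2 ih.2⟩
  have h4 : S.nx d = (S.s ^ (j + 1)) d := h1
  have h5 : (S.s ^ (j + 1)) d ∈ S.B := by
    rw [← h1]
    exact h2
  rw [h4, ← (key (j + 1)).1]
  refine ret_eq S'.s (hA.B hd) ?_ ?_
  · rw [(key (j + 1)).1]
    exact hA.B h5
  · intro i hi hB
    rw [(key (i + 1)).1] at hB
    exact h3 i hi ((add_B hA (key (i + 1)).2).1 hB)

theorem add_new (hA : S.Add S') {d : D} (hd : d ∈ S'.B \ S.B) : S'.nx d ∈ S'.B \ S.B := by
  refine ⟨(S'.nx_mem).2 hd.1, fun h => hd.2 ?_⟩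
  have h1 : S.nx (S.nx.symm (S'.nx d)) = S'.nx d := Equiv.apply_symm_apply _ _
  have h2 : S.nx.symm (S'.nx d) ∈ S.B := by
    rw [← S.nx_mem, h1]
    exact h
  have h3 := add_nx hA h2
  rw [h1] at h3
  have h4 := S'.nx.injective h3
  rw [← h4]
  exact h2

theorem add_X (hA : S.Add S') : S'.X ⊆ S.X := by
  intro d hd
  rcases hd with hd | hd
  · exact Or.inl fun h => hd (hA.sub.R_sub h)
  · by_cases h : d ∈ S.R
    · exact Or.inr ((add_B hA h).1 hd)
    · exact Or.inl h

theorem add_X' (hA : S.Add S') {d : D} (hd : d ∈ S'.B \ S.B) : d ∉ S.R := by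
  exact fun h => hd.2 ((add_B hA h).1 hd.1)

theorem add_nuL (hA : S.Add S') {ps : List (D × D)} (hps : ∀ p ∈ ps, p.1 ∈ S.B ∧ p.2 ∈ S.B) :
    (∀ d ∈ S.B, S'.nuL ps d = S.nuL ps d) ∧ ∀ d ∈ S'.B \ S.B, S'.nuL ps d = S'.nx d := by
  induction ps with
  | nil => exact ⟨fun d hd => add_nx hA hd, fun d _ => rfl⟩
  | cons p ps ih =>
    obtain ⟨h1, h2⟩ := ih fun q hq => hps q (List.mem_cons_of_mem _ hq)
    have h3 := hps p List.mem_cons_self
    constructor
    · intro d hd
      show Equiv.swap p.1 p.2 (S'.nuL ps d) = Equiv.swap p.1 p.2 (S.nuL ps d)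
      rw [h1 d hd]
    · intro d hd
      show Equiv.swap p.1 p.2 (S'.nuL ps d) = S'.nx d
      rw [h2 d hd]
      have h4 := add_new hA hd
      refine Equiv.swap_apply_of_ne_of_ne (fun h => h4.2 ?_) fun h => h4.2 ?_
      · rw [h]
        exact h3.1
      · rw [h]
        exact h3.2

private theorem add_psB (hA : S.Add S') {ps : List (D × D)} (hps : ∀ p ∈ ps, p.1 ∈ S.B ∧ p.2 ∈ S.B) :
    ∀ p ∈ ps, p.1 ∈ S'.B ∧ p.2 ∈ S'.B := fun p hp => ⟨hA.B (hps p hp).1, hA.B (hps p hp).2⟩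

private theorem ret_one {σ : Equiv.Perm D} {Y : Set D} {d e : D} (hd : d ∈ Y) (he : e ∈ Y) (h : σ d = e) :
    e = ret σ Y d := by
  have h3 : (σ ^ (0 + 1)) d = e := by rw [zero_add, pow_one, h]
  rw [← h3]
  refine (ret_eq σ hd ?_ (fun i hi => absurd hi (Nat.not_lt_zero i))).symm
  rw [h3]
  exact he

theorem add_vs (hA : S.Add S') (h' : S'.Le T) {ps : List (D × D)} (hps : ∀ p ∈ ps, p.1 ∈ S.B ∧ p.2 ∈ S.B) {d : D} (hd : d ∈ S'.X) :
    S'.vs T (S'.nuL ps) d = ret (S.vs T (S.nuL ps)) S'.X d := by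
  have h : S.Le T := sub_le hA.sub h'
  have hoff := nuL_off hps
  have hoff' := nuL_off (add_psB hA hps)
  obtain ⟨σ, hσ⟩ : ∃ σ, σ = S.vs T (S.nuL ps) := ⟨_, rfl⟩
  rw [← hσ]
  obtain ⟨e, he⟩ : ∃ e, e = T.a d := ⟨_, rfl⟩
  have heX : e ∈ S'.X := by
    rw [he]
    exact (X_a h' d).2 hd
  have h1 : S'.vs T (S'.nuL ps) d = S'.vphi T (S'.nuL ps) e := by
    show S'.vphi T (S'.nuL ps) (S'.valp T d) = _
    rw [valp_X h' hd, he]
  have h2 : σ d = S.vphi T (S.nuL ps) e := by
    rw [hσ]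
    show S.vphi T (S.nuL ps) (S.valp T d) = _
    rw [valp_X h (add_X hA hd), he]
  by_cases heR : e ∈ S'.R
  · have heB : e ∈ S'.B := heX.resolve_left fun hh => hh heR
    by_cases heS : e ∈ S.B
    · -- an old boundary dart
      rw [h1, vphi_B hoff' heB, (add_nuL hA hps).1 e heS]
      rw [vphi_B hoff heS] at h2
      refine ret_one hd ?_ h2
      exact Or.inr (hA.B ((nuL_mem hps).2 heS))
    · -- a new boundary dart
      have heSR : e ∉ S.R := add_X' hA ⟨heB, heS⟩
      rw [h1, vphi_B hoff' heB, (add_nuL hA hps).2 e ⟨heB, heS⟩]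
      rw [vphi_R h hoff heSR] at h2
      have h0 : S'.s e = T.f e := by
        rw [s_apply, heB.2]
        exact (h'.1 e heR).symm
      obtain ⟨j, h3, h4, h5⟩ := ret_spec S'.s heB
      have key : ∀ i ≤ j, (σ ^ (i + 1)) d = (S'.s ^ (i + 1)) e ∧ (S'.s ^ (i + 1)) e ∈ S'.R ∧
          (S'.s ^ (i + 1)) e ∉ S.R := by
        intro i
        induction i with
        | zero =>
          intro _
          rw [zero_add, pow_one, pow_one]
          refine ⟨by rw [h2, h0], (mem_R_s S' e).2 heR, ?_⟩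
          rw [h0, le_f_mem h]
          exact heSR
        | succ i ih =>
          intro hi
          obtain ⟨h6, h7, h8⟩ := ih (by omega)
          have h9 := h5 i (by omega)
          have e1 : (S'.s ^ (i + 1 + 1)) e = S'.s ((S'.s ^ (i + 1)) e) := by
            rw [pow_succ', Equiv.Perm.mul_apply]
          have e2 : (σ ^ (i + 1 + 1)) d = σ ((σ ^ (i + 1)) d) := by
            rw [pow_succ', Equiv.Perm.mul_apply]
          rw [e1, e2, h6]
          obtain ⟨z, hz⟩ : ∃ z, z = (S'.s ^ (i + 1)) e := ⟨_, rfl⟩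
          rw [← hz] at h7 h8 h9 ⊢
          have ha : S'.a z ≠ z := fun hh => h9 ⟨h7, hh⟩
          have hTa : T.a z = S'.a z := h'.2 z ha
          have hwR : S'.a z ∈ S'.R := (mem_R_a S' z).2 h7
          have hwS : S'.a z ∉ S.R := by
            intro hw
            apply h8
            have hw1 := (add_old hA hw).1
            rw [S'.aa] at hw1
            rw [hw1]
            exact (mem_R_a S _).2 hw
          have hσz : σ z = S'.s z := by
            rw [hσ]
            show S.vphi T (S.nuL ps) (S.valp T z) = _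
            rw [valp_X h (Or.inl h8), hTa, vphi_R h hoff hwS, s_apply]
            exact h'.1 _ hwR
          refine ⟨hσz, (mem_R_s S' z).2 h7, ?_⟩
          rw [s_apply, ← h'.1 _ hwR, le_f_mem h]
          exact hwS
      have h6 : S'.nx e = (σ ^ (j + 1)) d := h3.trans (key j le_rfl).1.symm
      rw [h6]
      refine (ret_eq σ hd ?_ ?_).symm
      · rw [← h6]
        exact Or.inr h4
      · intro i hi hX
        obtain ⟨h7, h8, _⟩ := key i (by omega)
        rw [h7] at hX
        exact h5 i hi (hX.resolve_left fun hh => hh h8)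
  · rw [h1, vphi_R h' hoff' heR]
    rw [vphi_R h hoff fun hh => heR (hA.sub.R_sub hh)] at h2
    refine ret_one hd ?_ h2
    exact Or.inl fun hh => heR ((le_f_mem h' e).1 hh)

theorem add_same (hA : S.Add S') (h' : S'.Le T) {ps : List (D × D)} (hps : ∀ p ∈ ps, p.1 ∈ S.B ∧ p.2 ∈ S.B) {d e : D}
    (hd : d ∈ S'.X) (he : e ∈ S'.X) : (S'.vs T (S'.nuL ps)).SameCycle d e ↔ (S.vs T (S.nuL ps)).SameCycle d e := by
  have h1 : S'.vs T (S'.nuL ps) = ret (S.vs T (S.nuL ps)) S'.X := by
    apply Equiv.ext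
    intro z
    by_cases hz : z ∈ S'.X
    · exact add_vs hA h' hps hz
    · rw [ret_not_mem _ hz]
      show S'.vphi T (S'.nuL ps) (S'.valp T z) = z
      rw [valp_off hz, vphi_off (nuL_off (add_psB hA hps)) hz]
  rw [h1]
  exact ret_same _ hd he

theorem add_vir (hA : S.Add S') (h' : S'.Le T) {ps : List (D × D)} (hV : S.Vir T ps) : S'.Vir T ps := by
  induction ps with
  | nil => exact trivial
  | cons p ps ih =>
    obtain ⟨h1, h2, h3, h4, h5⟩ := hV
    exact ⟨ih h1, hA.B h2, hA.B h3, h4,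
      (add_same hA h' (vir_B h1) (Or.inr (hA.B h2)) (Or.inr (hA.B h3))).2 h5⟩

end Part
end SYS
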