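import Pool.Agent.SYS.LT.Rem

/-!
# SYS-LT-Basic: elementary facts on the virtual hidden map

PLAN.  `S.Rᶜ` is invariant under `T.f` (`le_f_mem` in `Lib/WordB`), `S.X` under `T.a` (`X_a` in `Lib/HidA`), `B ⊆ R`, `X = Rᶜ ∪ B`.  A permutation which is the identity off `B` preserves
`B`.
* `vphi_R`: `ν d = d` since `d ∉ B` (`B ⊆ R`), then `rs_mem`.  `vphi_B`: `ν d ∈ B ⊆ R`, so `rs_not_mem`.  `vphi_off`: `d ∉ X` means `d ∈ R`, `d ∉ B`.
* `vmp`: `valp d = T.a d ≠ d` on `X` (`T.ane`), `T.aa`.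
* `vphi_swap`: `rs T.f S.Rᶜ` fixes `b`, `b'` (`rs_not_mem`), hence commutes with the transposition (check by cases on `d`, or
  `Equiv.swap_apply_of_ne_of_ne`; or `Equiv.mul_swap_eq_swap_mul`).  `vs_swap` follows (`mul_assoc`).
* `nuL_off`, `nuL_mem`: induction on `ps`; `nx` is the identity off `B` (`ret_not_mem`).
-/

namespace SYS
namespace Part

open Classical SST Vm

variable {D : Type} [Finite D] {S : Part D} {T : Tri D} {ν : Equiv.Perm D}

private theorem basic_BR {d : D} (hd : d ∈ S.B) : d ∈ S.R := hd.1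

theorem nu_mem (hν : ∀ d ∉ S.B, ν d = d) {d : D} : ν d ∈ S.B ↔ d ∈ S.B := by
  constructor
  · intro h
    by_contra hd
    rw [hν d hd] at h
    exact hd h
  · intro hd
    by_contra h
    have h1 : ν d = d := ν.injective (hν _ h)
    rw [h1] at h
    exact h hd

theorem vphi_R (h : S.Le T) (hν : ∀ d ∉ S.B, ν d = d) {d : D} (hd : d ∉ S.R) : S.vphi T ν d = T.f d := by
  have h1 : ν d = d := hν d fun hB => hd (basic_BR hB)
  unfold vphi
  rw [Equiv.Perm.mul_apply, h1]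
  refine rs_mem (fun e => ?_) hd
  rw [Set.mem_compl_iff, Set.mem_compl_iff, le_f_mem h e]

theorem vphi_B (hν : ∀ d ∉ S.B, ν d = d) {d : D} (hd : d ∈ S.B) : S.vphi T ν d = ν d := by
  have h1 : ν d ∉ S.Rᶜ := fun h => h (basic_BR ((nu_mem hν).2 hd))
  unfold vphi
  rw [Equiv.Perm.mul_apply]
  exact rs_not_mem h1

theorem vphi_off (hν : ∀ d ∉ S.B, ν d = d) {d : D} (hd : d ∉ S.X) : S.vphi T ν d = d := by
  have h1 : ν d = d := hν d fun hB => hd (Or.inr hB)
  have h2 : d ∉ S.Rᶜ := fun h => hd (Or.inl h)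
  unfold vphi
  rw [Equiv.Perm.mul_apply, h1]
  exact rs_not_mem h2

theorem valp_X (h : S.Le T) {d : D} (hd : d ∈ S.X) : S.valp T d = T.a d := by
  exact rs_mem (X_a h) hd

theorem valp_off {d : D} (hd : d ∉ S.X) : S.valp T d = d := by
  exact rs_not_mem hd

theorem vmp (h : S.Le T) (hν : ∀ d ∉ S.B, ν d = d) : Mp S.X (S.vphi T ν) (S.valp T) := by
  refine ⟨fun d hd => vphi_off hν hd, fun d hd => valp_off hd, fun d hd => ?_, fun d => ?_⟩
  · rw [valp_X h hd]
    exact T.ane d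
  · by_cases hd : d ∈ S.X
    · rw [valp_X h hd, valp_X h ((X_a h d).2 hd), T.aa]
    · rw [valp_off hd, valp_off hd]

theorem vphi_swap {b b' : D} (hb : b ∈ S.B) (hb' : b' ∈ S.B) (ν : Equiv.Perm D) :
    S.vphi T (Equiv.swap b b' * ν) = Equiv.swap b b' * S.vphi T ν := by
  have h1 : rs T.f S.Rᶜ b = b := rs_not_mem fun h => h (basic_BR hb)
  have h2 : rs T.f S.Rᶜ b' = b' := rs_not_mem fun h => h (basic_BR hb')
  unfold vphi
  rw [← mul_assoc, ← mul_assoc, Equiv.mul_swap_eq_swap_mul, h1, h2]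

theorem vs_swap {b b' : D} (hb : b ∈ S.B) (hb' : b' ∈ S.B) (ν : Equiv.Perm D) :
    S.vs T (Equiv.swap b b' * ν) = Equiv.swap b b' * S.vs T ν := by
  unfold vs
  rw [vphi_swap hb hb', mul_assoc]

theorem vir_B {ps : List (D × D)} (h : S.Vir T ps) : ∀ p ∈ ps, p.1 ∈ S.B ∧ p.2 ∈ S.B := by
  induction ps with
  | nil => exact fun p hp => absurd hp List.not_mem_nil
  | cons q ps ih =>
    intro p hp
    rcases List.mem_cons.1 hp with h1 | h1
    · rw [h1]
      exact ⟨h.2.1, h.2.2.1⟩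
    · exact ih h.1 p h1

theorem nuL_off {ps : List (D × D)} (h : ∀ p ∈ ps, p.1 ∈ S.B ∧ p.2 ∈ S.B) : ∀ d ∉ S.B, S.nuL ps d = d := by
  induction ps with
  | nil => exact fun d hd => ret_not_mem S.s hd
  | cons q ps ih =>
    intro d hd
    have h1 := ih (fun p hp => h p (List.mem_cons_of_mem _ hp)) d hd
    have h2 := h q List.mem_cons_self
    show (Equiv.swap q.1 q.2 * S.nuL ps) d = d
    rw [Equiv.Perm.mul_apply, h1]
    refine Equiv.swap_apply_of_ne_of_ne (fun h3 => hd ?_) fun h3 => hd ?_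
    · rw [h3]
      exact h2.1
    · rw [h3]
      exact h2.2

theorem nuL_mem {ps : List (D × D)} (h : ∀ p ∈ ps, p.1 ∈ S.B ∧ p.2 ∈ S.B) {d : D} : S.nuL ps d ∈ S.B ↔ d ∈ S.B := by
  exact nu_mem (nuL_off h)

end Part
end SYS
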