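import Pool.Agent.SYS.LT.Rem

/-!
# SYS-LT-CaseA: removal of an edge between two different faces

PLAN.  Let `τ := φ * swap d (α d)`; `sameCycle_swap_diff φ h u v`: `τ.SameCycle u v` iff `φ.SameCycle u v` or both `u`, `v` are in the union of the `φ`-cycles of `d` and
`α d`.
* (`ca_fix`) if `φ d ∈ {d, α d}` then `φ d = d` (different cycles); same for `α d`.  If `φ d = d` and `φ (α d) = α d` then `{d, α d}` is closed, so it is `X` by `hT`, and
  `rX` is empty, contradiction.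
* `ca_meet_v`: for `e ∈ X`: if `e ∈ rX` take `y = e`.  `e = d`: `(φ * α) d = φ (α d)`; it is not `d` (different cycles); if it is not `α d` take it (it is in `X`);
  if `φ (α d) = α d` then `(φ * α) (α d) = φ d` is not `d` by `ca_fix` and not `α d`, take it.  `e = α d`: symmetric.
* `ca_meet_f`: one of `φ d`, `φ (α d)` is in `rX` by `ca_fix`.
* `ca_V`: `ncycOn_meet`.  `ca_F`: `ncycOn τ rX = ncycOn τ X` by `ncycOn_meet` (`τ d = φ (α d)`, `τ (α d) = φ d`; both `d` and `α d` are in the `τ`-cycle of the element of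
  `ca_meet_f`); `ncyc_split` for `τ` and `φ` with the invariant set `X` (off `X` both are the identity: `ncycOn_fix`), and `ncyc_swap_diff φ h` (look at its statement in
  `Pool/Agent/SST/S/NCyc.lean`).
* `ca_T`: let `Z ⊆ rX` be nonempty and closed under `α' = α`, `φ'`.  Let `M` = union of the `φ`-cycles of `d` and `α d`.  The elements of `M ∩ rX` form one cycle of `φ'`
  (`ret_same` and `sameCycle_swap_diff`); for `e ∈ rX \ M`, `φ' e = φ e` (`τ e = φ e ∈ rX`, `ret_eq` with `j = 0`).  If `Z ∩ M = ∅` then `Z` is closed under `φ`, `α`, so `Z = X ∋ d`,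
  contradiction.  Otherwise `M ∩ rX ⊆ Z` and `Z ∪ {d, α d}` is closed under `α` and `φ` (`φ` maps `M` to `M`), so it is `X`, and `Z = rX`.
* `ca_other`: for `e ∈ rX` with `¬ φ'.SameCycle y e`, `y ∈ M ∩ rX`: then `e ∉ M`, `φ' e = φ e`, and `e` is in neither `φ`-cycle.
-/

namespace SYS
namespace Vm

open Classical SST

variable {D : Type} [Finite D] {X : Set D} {φ α : Equiv.Perm D}

private theorem ca_mem1 (hM : Mp X φ α) {d : D} (hd : d ∈ X) (h : ¬ φ.SameCycle d (α d)) :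
    φ d ∈ rX X α d ∨ φ d = d := by
  by_cases h1 : φ d = d
  · exact Or.inr h1
  · left
    refine ⟨(mp_f hM).2 hd, ?_⟩
    rintro (h2 | h2)
    · exact h1 h2
    · exact h ⟨1, by rw [zpow_one]; exact h2⟩

private theorem ca_mem2 (hM : Mp X φ α) {d : D} (hd : d ∈ X) (h : ¬ φ.SameCycle d (α d)) :
    φ (α d) ∈ rX X α d ∨ φ (α d) = α d := by
  by_cases h1 : φ (α d) = α d
  · exact Or.inr h1
  · left
    refine ⟨(mp_f hM).2 ((mp_a hM).2 hd), ?_⟩
    rintro (h2 | h2)
    · exact h (Equiv.Perm.SameCycle.symm ⟨1, by rw [zpow_one]; exact h2⟩)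
    · exact h1 h2

private theorem ca_nofix (hM : Mp X φ α) (hT : Trs X φ α) {d : D} (hd : d ∈ X)
    (hX : (rX X α d).Nonempty) (h1 : φ d = d) (h2 : φ (α d) = α d) : False := by
  have hsub : ({d, α d} : Set D) ⊆ X := by
    rintro e (rfl | rfl)
    · exact hd
    · exact (mp_a hM).2 hd
  have := hT {d, α d} hsub ⟨d, Or.inl rfl⟩ (by
    rintro e (rfl | rfl)
    · exact ⟨Or.inr rfl, Or.inl h1⟩
    · exact ⟨Or.inl (hM.aa d), Or.inr h2⟩)
  obtain ⟨e, he1, he2⟩ := hX
  rw [← this] at he1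
  exact he2 he1

private theorem ca_step {σ : Equiv.Perm D} (u : D) : σ.SameCycle u (σ u) := ⟨1, by rw [zpow_one]⟩

/-- Common part of the two statements on the classes. -/
private theorem ca_meet (hM : Mp X φ α) (hT : Trs X φ α) {d : D} (hd : d ∈ X)
    (h : ¬ φ.SameCycle d (α d)) (hX : (rX X α d).Nonempty) {τ : Equiv.Perm D}
    (h1 : τ d = φ (α d)) (h2 : τ (α d) = φ d) {e : D} (he : e ∈ X) :
    ∃ y ∈ rX X α d, τ.SameCycle e y := by
  by_cases he' : e ∈ rX X α d
  · exact ⟨e, he', Equiv.Perm.SameCycle.refl _ _⟩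
  have hA : τ.SameCycle d (φ (α d)) := by rw [← h1]; exact ca_step d
  have hB : τ.SameCycle (α d) (φ d) := by rw [← h2]; exact ca_step (α d)
  have hcase : e = d ∨ e = α d := by
    by_contra hcon
    exact he' ⟨he, hcon⟩
  rcases hcase with rfl | rfl
  · rcases ca_mem2 hM hd h with h3 | h3
    · exact ⟨_, h3, hA⟩
    · rcases ca_mem1 hM hd h with h4 | h4
      · refine ⟨_, h4, ?_⟩
        rw [h3] at hA
        exact hA.trans hB
      · exact absurd (ca_nofix hM hT hd hX h4 h3) id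
  · rcases ca_mem1 hM hd h with h4 | h4
    · exact ⟨_, h4, hB⟩
    · rcases ca_mem2 hM hd h with h3 | h3
      · refine ⟨_, h3, ?_⟩
        rw [h4] at hB
        exact hB.trans hA
      · exact absurd (ca_nofix hM hT hd hX h4 h3) id

/-- The union of the two faces of the edge. -/
private def ca_M (φ α : Equiv.Perm D) (d e : D) : Prop := φ.SameCycle d e ∨ φ.SameCycle (α d) e

private theorem ca_eq (hM : Mp X φ α) {d : D} {e : D} (he : e ∈ rX X α d)
    (hm : ¬ ca_M φ α d e) : rF X φ α d e = φ e := by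
  have h1 : (φ * Equiv.swap d (α d)) e = φ e := by
    rw [Equiv.Perm.mul_apply, Equiv.swap_apply_of_ne_of_ne]
    · intro h; exact he.2 (Or.inl h)
    · intro h; exact he.2 (Or.inr h)
  have h2 : φ e ∈ rX X α d := by
    refine ⟨(mp_f hM).2 he.1, ?_⟩
    rintro (h3 | h3)
    · exact hm (Or.inl (Equiv.Perm.SameCycle.symm ⟨1, by rw [zpow_one]; exact h3⟩))
    · exact hm (Or.inr (Equiv.Perm.SameCycle.symm ⟨1, by rw [zpow_one]; exact h3⟩))
  have h3 : ((φ * Equiv.swap d (α d)) ^ (0 + 1)) e = φ e := by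
    rw [zero_add, pow_one, h1]
  have h4 := ret_eq (φ * Equiv.swap d (α d)) he (j := 0) (by rw [h3]; exact h2)
    (fun i hi => absurd hi (Nat.not_lt_zero i))
  rw [h3] at h4
  exact h4

private theorem ca_same {d : D} (h : ¬ φ.SameCycle d (α d)) {y e : D} (hy : y ∈ rX X α d)
    (he : e ∈ rX X α d) (hy' : ca_M φ α d y) (he' : ca_M φ α d e) :
    (rF X φ α d).SameCycle y e :=
  (ret_same (φ * Equiv.swap d (α d)) hy he).2 ((sameCycle_swap_diff φ h y e).2 (Or.inr ⟨hy', he'⟩))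

private theorem ca_closed {σ : Equiv.Perm D} {Z : Set D} (h : ∀ e ∈ Z, σ e ∈ Z) {u v : D}
    (huv : σ.SameCycle u v) (hu : u ∈ Z) : v ∈ Z := by
  obtain ⟨n, -, hn⟩ := huv.exists_pow_eq'
  rw [← hn]
  clear hn
  induction n with
  | zero => exact hu
  | succ n ih =>
    rw [pow_succ', Equiv.Perm.mul_apply]
    exact h _ ih

theorem ca_meet_f (hM : Mp X φ α) (hT : Trs X φ α) {d : D} (hd : d ∈ X) (h : ¬ φ.SameCycle d (α d)) (hX : (rX X α d).Nonempty) :
    ∃ y ∈ rX X α d, φ.SameCycle d y ∨ φ.SameCycle (α d) y := by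
  rcases ca_mem1 hM hd h with h1 | h1
  · exact ⟨_, h1, Or.inl (ca_step d)⟩
  · rcases ca_mem2 hM hd h with h2 | h2
    · exact ⟨_, h2, Or.inr (ca_step (α d))⟩
    · exact absurd (ca_nofix hM hT hd hX h1 h2) id

theorem ca_meet_v (hM : Mp X φ α) (hT : Trs X φ α) {d : D} (hd : d ∈ X) (h : ¬ φ.SameCycle d (α d)) (hX : (rX X α d).Nonempty)
    {e : D} (he : e ∈ X) : ∃ y ∈ rX X α d, (φ * α).SameCycle e y :=
  ca_meet hM hT hd h hX (τ := φ * α) rfl (by rw [Equiv.Perm.mul_apply, hM.aa]) he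

theorem ca_V (hM : Mp X φ α) (hT : Trs X φ α) {d : D} (hd : d ∈ X) (h : ¬ φ.SameCycle d (α d)) (hX : (rX X α d).Nonempty) :
    ncycOn (φ * α) (rX X α d) = ncycOn (φ * α) X :=
  (ncycOn_meet (fun _ he => he.1) (fun _ he => ca_meet_v hM hT hd h hX he)).symm

theorem ca_F (hM : Mp X φ α) (hT : Trs X φ α) {d : D} (hd : d ∈ X) (h : ¬ φ.SameCycle d (α d)) (hX : (rX X α d).Nonempty) :
    ncycOn (φ * Equiv.swap d (α d)) (rX X α d) + 1 = ncycOn φ X := by
  have hτ1 : (φ * Equiv.swap d (α d)) d = φ (α d) := by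
    rw [Equiv.Perm.mul_apply, Equiv.swap_apply_left]
  have hτ2 : (φ * Equiv.swap d (α d)) (α d) = φ d := by
    rw [Equiv.Perm.mul_apply, Equiv.swap_apply_right]
  have h1 : ncycOn (φ * Equiv.swap d (α d)) X = ncycOn (φ * Equiv.swap d (α d)) (rX X α d) :=
    ncycOn_meet (fun _ he => he.1) (fun _ he => ca_meet hM hT hd h hX hτ1 hτ2 he)
  have hoff : ∀ e ∉ X, (φ * Equiv.swap d (α d)) e = e := by
    intro e he
    rw [Equiv.Perm.mul_apply, Equiv.swap_apply_of_ne_of_ne, hM.f_off e he]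
    · intro h'; rw [h'] at he; exact he hd
    · intro h'; rw [h'] at he; exact he ((mp_a hM).2 hd)
  have h2 : ncyc (φ * Equiv.swap d (α d)) = ncycOn (φ * Equiv.swap d (α d)) X +
      ncycOn (φ * Equiv.swap d (α d)) Xᶜ := by
    refine ncyc_split _ ?_
    intro e
    by_cases he : e ∈ X
    · refine ⟨fun _ => he, fun _ => ?_⟩
      rw [Equiv.Perm.mul_apply]
      refine (mp_f hM).2 ?_
      by_cases h3 : e = d
      · rw [h3, Equiv.swap_apply_left]
        exact (mp_a hM).2 hd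
      · by_cases h4 : e = α d
        · rw [h4, Equiv.swap_apply_right]
          exact hd
        · rw [Equiv.swap_apply_of_ne_of_ne h3 h4]
          exact he
    · rw [hoff e he]
  have h3 : ncyc φ = ncycOn φ X + ncycOn φ Xᶜ := ncyc_split φ (fun e => mp_f hM)
  have h4 : ncycOn (φ * Equiv.swap d (α d)) Xᶜ = Xᶜ.ncard := ncycOn_fix _ (fun e he => hoff e he)
  have h5 : ncycOn φ Xᶜ = Xᶜ.ncard := ncycOn_fix _ (fun e he => hM.f_off e he)
  have h6 := ncyc_swap_diff φ h
  omega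

theorem ca_T (hM : Mp X φ α) (hT : Trs X φ α) {d : D} (hd : d ∈ X) (h : ¬ φ.SameCycle d (α d)) (hX : (rX X α d).Nonempty) :
    Trs (rX X α d) (rF X φ α d) (rA X α d) := by
  intro Z hZ hne hcl
  have hclα : ∀ e ∈ Z, α e ∈ Z := by
    intro e he
    have := (hcl e he).1
    rwa [rA_mem hM d (hZ he)] at this
  by_cases hc : ∃ e ∈ Z, ca_M φ α d e
  · obtain ⟨e₀, he₀, hm₀⟩ := hc
    have hMZ : ∀ e ∈ rX X α d, ca_M φ α d e → e ∈ Z := by
      intro e he hm
      exact ca_closed (fun e he => (hcl e he).2) (ca_same h (hZ he₀) he hm₀ hm) he₀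
    have hin : ∀ e ∈ X, ca_M φ α d e → e ∈ Z ∪ {d, α d} := by
      intro e he hm
      by_cases h1 : e ∈ ({d, α d} : Set D)
      · exact Or.inr h1
      · exact Or.inl (hMZ e ⟨he, h1⟩ hm)
    have hMφ : ∀ e, ca_M φ α d e → ca_M φ α d (φ e) := by
      rintro e (h1 | h1)
      · exact Or.inl (h1.trans (ca_step e))
      · exact Or.inr (h1.trans (ca_step e))
    have hall := hT (Z ∪ {d, α d}) (by
      rintro e (he | he | he)
      · exact (hZ he).1
      · rw [he]; exact hd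
      · rw [he]; exact (mp_a hM).2 hd) ⟨d, Or.inr (Or.inl rfl)⟩ (by
      rintro e (he | he | he)
      · refine ⟨Or.inl (hclα e he), ?_⟩
        by_cases hm : ca_M φ α d e
        · exact hin _ ((mp_f hM).2 (hZ he).1) (hMφ e hm)
        · left
          rw [← ca_eq hM (hZ he) hm]
          exact (hcl e he).2
      · rw [he]
        exact ⟨Or.inr (Or.inr rfl), hin _ ((mp_f hM).2 hd)
          (hMφ d (Or.inl (Equiv.Perm.SameCycle.refl _ _)))⟩
      · rw [he]
        refine ⟨Or.inr (Or.inl (hM.aa d)), hin _ ((mp_f hM).2 ((mp_a hM).2 hd))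
          (hMφ (α d) (Or.inr (Equiv.Perm.SameCycle.refl _ _)))⟩)
    refine Set.Subset.antisymm hZ ?_
    intro e he
    have h1 : e ∈ Z ∪ {d, α d} := by rw [hall]; exact he.1
    rcases h1 with h1 | h1
    · exact h1
    · exact absurd h1 he.2
  · exfalso
    have hall := hT Z (fun e he => (hZ he).1) hne (by
      intro e he
      refine ⟨hclα e he, ?_⟩
      have hm : ¬ ca_M φ α d e := fun hm => hc ⟨e, he, hm⟩
      rw [← ca_eq hM (hZ he) hm]
      exact (hcl e he).2)
    have h1 : d ∈ Z := by rw [hall]; exact hd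
    exact (hZ h1).2 (Or.inl rfl)

theorem ca_other (hM : Mp X φ α) {d : D} (hd : d ∈ X) (h : ¬ φ.SameCycle d (α d)) {y : D}
    (hy : y ∈ rX X α d) (hy' : φ.SameCycle d y ∨ φ.SameCycle (α d) y) {e : D} (he : e ∈ rX X α d)
    (hn : ¬ (rF X φ α d).SameCycle y e) : rF X φ α d e = φ e ∧ ¬ φ.SameCycle d e ∧ ¬ φ.SameCycle (α d) e := by
  have hm : ¬ ca_M φ α d e := fun hm => hn (ca_same h hy he hy' hm)
  exact ⟨ca_eq hM he hm, fun h1 => hm (Or.inl h1), fun h1 => hm (Or.inr h1)⟩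

end Vm
end SYS
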