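import Pool.Agent.SYS.Lib.Flat
import Pool.Agent.SYS.Lib.Rch

/-!
# SYS-LT: virtual hidden maps, definitions

`S` explored region of `T`, `X S` hidden darts.  The hidden part is a map: darts `X`, edges `T.a`, faces: the hidden triangles and the cycles of a boundary
permutation `ν` of `B` (`ν = nx`: the holes).  A list `ps` of pairs of boundary darts (last one first) changes the boundary permutation:
`nuL S ps` = product of the transpositions times `nx`.  A swap of two darts of one vertex splits this vertex; it merges two holes or splits one.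
DO NOT CHANGE.
-/

namespace SYS

open Classical SST

namespace Vm

variable {D : Type}

/-- `α` is a gluing of the darts of `X`, `φ` a face permutation of `X`; both are the identity off `X`. -/
structure Mp (X : Set D) (φ α : Equiv.Perm D) : Prop where
  f_off : ∀ d ∉ X, φ d = d
  a_off : ∀ d ∉ X, α d = d
  a_on : ∀ d ∈ X, α d ≠ d
  aa : ∀ d, α (α d) = d

/-- The map with darts `X` is connected. -/
def Trs (X : Set D) (φ α : Equiv.Perm D) : Prop :=
  ∀ Z ⊆ X, Z.Nonempty → (∀ d ∈ Z, α d ∈ Z ∧ φ d ∈ Z) → Z = X

/-- The cycle of `d` as a list which starts with `d`. -/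
noncomputable def cyc (φ : Equiv.Perm D) (d : D) : List D :=
  (List.range (Function.minimalPeriod φ d)).map fun i => (φ ^ i) d

/-- Restriction to an invariant set. -/
noncomputable def rs (σ : Equiv.Perm D) (Y : Set D) : Equiv.Perm D :=
  if h : ∀ d, σ d ∈ Y ↔ d ∈ Y then restr σ Y h else 1

/-- Removal of the edge of `d`: the darts. -/
def rX (X : Set D) (α : Equiv.Perm D) (d : D) : Set D := X \ {d, α d}

/-- Removal of the edge of `d`: the gluing. -/
noncomputable def rA (X : Set D) (α : Equiv.Perm D) (d : D) : Equiv.Perm D := rs α (rX X α d)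

/-- Removal of the edge of `d`: the face permutation. -/
noncomputable def rF [Finite D] (X : Set D) (φ α : Equiv.Perm D) (d : D) : Equiv.Perm D :=
  ret (φ * Equiv.swap d (α d)) (rX X α d)

/-- Gauge of the labelling `l` on the map `X`. -/
def Gg {G : Type} [Group G] (X : Set D) (φ α : Equiv.Perm D) (l k : D → G) : Prop :=
  ∀ d ∈ X, k (φ d) = k d * l d ∧ k (α d) = k d * l d

end Vm

namespace Part

open Vm

variable {D : Type}

/-- Face permutation of the hidden part. -/
noncomputable def vphi (S : Part D) (T : Tri D) (ν : Equiv.Perm D) : Equiv.Perm D := rs T.f S.Rᶜ * ν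

/-- Edges of the hidden part. -/
noncomputable def valp (S : Part D) (T : Tri D) : Equiv.Perm D := rs T.a S.X

/-- Vertex permutation of the hidden part. -/
noncomputable def vs (S : Part D) (T : Tri D) (ν : Equiv.Perm D) : Equiv.Perm D := S.vphi T ν * S.valp T

/-- Connected hidden part. -/
def VConn (S : Part D) (T : Tri D) (ν : Equiv.Perm D) : Prop := Trs S.X (S.vphi T ν) (S.valp T)

/-- `A` is a component of the hidden part. -/
structure Cmp (S : Part D) (T : Tri D) (ν : Equiv.Perm D) (A : Set D) : Prop where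
  sub : A ⊆ S.X
  ne : A.Nonempty
  a : ∀ d ∈ A, T.a d ∈ A
  f : ∀ d ∈ A, S.vphi T ν d ∈ A
  trs : ∀ Z ⊆ A, Z.Nonempty → (∀ d ∈ Z, T.a d ∈ Z ∧ S.vphi T ν d ∈ Z) → Z = A

/-- No component with one hole, other than the whole, is a disc. -/
def NoDisc (S : Part D) (T : Tri D) (ν : Equiv.Perm D) : Prop :=
  ∀ A : Set D, S.Cmp T ν A → A ≠ S.X → (∃ b ∈ A ∩ S.B, ∀ e ∈ A ∩ S.B, ν.SameCycle b e) →
    2 * (ncycOn (S.vs T ν) A + ncycOn (S.vphi T ν) A) ≠ A.ncard + 4

/-- Gauge of the labelling `l` on the revealed faces. -/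
structure Gau {G : Type} [Group G] (S : Part D) (T : Tri D) (l k : D → G) : Prop where
  f : ∀ d ∈ S.R, k (T.f d) = k d * l d
  a : ∀ d ∈ S.R, d ∉ S.B → k (T.a d) = k d * l d

/-- The elements of `G` by which the gauge jumps at the swaps are in `H`. -/
def Clo {G : Type} [Group G] (k : D → G) (H : Subgroup G) (ps : List (D × D)) : Prop :=
  ∀ p ∈ ps, k p.1 * (k p.2)⁻¹ ∈ H

/-- Same island after the swaps. -/
def Cls (S : Part D) (ps : List (D × D)) (d e : D) : Prop :=
  Relation.EqvGen (fun d e => S.Cn d e ∨ (d, e) ∈ ps) d e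

/-- `S'` is `S` and new islands which do not touch the boundary of `S`. -/
structure Add (S S' : Part D) : Prop where
  sub : S.Sub S'
  B : S.B ⊆ S'.B

variable [Finite D]

/-- Boundary permutation after the swaps `ps` (last one first). -/
noncomputable def nuL (S : Part D) : List (D × D) → Equiv.Perm D
  | [] => S.nx
  | p :: ps => Equiv.swap p.1 p.2 * S.nuL ps

/-- Every pair is in one vertex of the hidden part when it is swapped. -/
def Vir (S : Part D) (T : Tri D) : List (D × D) → Prop
  | [] => True
  | p :: ps => S.Vir T ps ∧ p.1 ∈ S.B ∧ p.2 ∈ S.B ∧ p.1 ≠ p.2 ∧ (S.vs T (S.nuL ps)).SameCycle p.1 p.2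

end Part
end SYS
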