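import Pool.Agent.SYS.LT.Vert
import Pool.Agent.SYS.LT.Cnc

/-!
# SYS-LT-Inv: the invariant of a 2-chain whose boundary is carried by the holes (CROSS)

`F` is a 2-chain of `T` (constant on the faces), its boundary is `χ` on the boundary darts: `F d - F (T.a d) = χ d - χ (T.a d)`, `χ = 0` off `B`, and `χ` is constant along the holes of the virtual
hidden map at the end.  Then `F` is constant on the islands joined by swaps; if the hidden map is connected, `χ` is constant.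
-/

namespace SYS
namespace Part

open Classical SST Vm

variable {D : Type} [Finite D] {S : Part D} {T : Tri D}

private theorem inv_BR {d : D} (hd : d ∈ S.B) : d ∈ S.R := hd.1

omit [Finite D] in
private theorem inv_Ta (h : S.Le T) {F χ : D → ℤ}
    (hFχ : ∀ d, F d - F (T.a d) = χ d - χ (T.a d)) (hχ : ∀ d ∉ S.B, χ d = 0) {d : D} (hd : d ∈ S.R)
    (hb : d ∉ S.B) : S.a d = T.a d ∧ F (T.a d) = F d := by
  have h1 : S.a d ≠ d := fun h' => hb ⟨hd, h'⟩
  have h2 : T.a d = S.a d := h.2 d h1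
  have h3 : T.a d ∉ S.B := by
    intro h4
    have h5 : S.a (T.a d) = T.a d := h4.2
    rw [h2, S.aa] at h5
    exact h1 h5.symm
  have h4 := hFχ d
  rw [hχ d hb, hχ _ h3] at h4
  exact ⟨h2.symm, by linarith⟩

omit [Finite D] in
private theorem inv_s (h : S.Le T) {F χ : D → ℤ} (hF : ∀ d, F (T.f d) = F d)
    (hFχ : ∀ d, F d - F (T.a d) = χ d - χ (T.a d)) (hχ : ∀ d ∉ S.B, χ d = 0) {d : D} (hd : d ∈ S.R) :
    F (S.s d) = F d := by
  by_cases hb : d ∈ S.B
  · rw [s_apply, hb.2, ← h.1 d hd, hF]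
  · rw [← le_s h hd hb]
    have h1 : T.s d = T.f (T.a d) := rfl
    rw [h1, hF]
    exact (inv_Ta h hFχ hχ hd hb).2

private theorem inv_nil (h : S.Le T) {F χ : D → ℤ} (hF : ∀ d, F (T.f d) = F d)
    (hFχ : ∀ d, F d - F (T.a d) = χ d - χ (T.a d)) (hχ : ∀ d ∉ S.B, χ d = 0) {b : D} (hb : b ∈ S.B) :
    F (S.nx b) = F b := by
  obtain ⟨j, h1, -, -⟩ := ret_spec S.s hb
  have key : ∀ i : ℕ, (S.s ^ i) b ∈ S.R ∧ F ((S.s ^ i) b) = F b := by
    intro i
    induction i with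
    | zero => exact ⟨inv_BR hb, rfl⟩
    | succ i ih =>
      have e : (S.s ^ (i + 1)) b = S.s ((S.s ^ i) b) := by
        rw [pow_succ', Equiv.Perm.mul_apply]
      rw [e]
      exact ⟨(mem_R_s S _).2 ih.1, by rw [inv_s h hF hFχ hχ ih.1, ih.2]⟩
  have h2 : S.nx b = (S.s ^ (j + 1)) b := h1
  rw [h2]
  exact (key _).2

/-- value of the vertex permutation -/
private theorem inv_vs (h : S.Le T) {ν : Equiv.Perm D} (hν : ∀ d ∉ S.B, ν d = d) {e : D} (he : e ∈ S.X) :
    (T.a e ∉ S.R ∧ S.vs T ν e = T.f (T.a e)) ∨ (T.a e ∈ S.B ∧ S.vs T ν e = ν (T.a e)) := by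
  have h1 : S.vs T ν e = S.vphi T ν (T.a e) := by
    show S.vphi T ν (S.valp T e) = _
    rw [valp_X h he]
  have h2 : T.a e ∈ S.X := (X_a h e).2 he
  rcases h2 with h2 | h2
  · exact Or.inl ⟨h2, by rw [h1, vphi_R h hν h2]⟩
  · exact Or.inr ⟨h2, by rw [h1, vphi_B hν h2]⟩

private theorem inv_top (h : S.Le T) {ν : Equiv.Perm D} (hν : ∀ d ∉ S.B, ν d = d) {χ : D → ℤ}
    (hχ : ∀ d ∉ S.B, χ d = 0) (hχν : ∀ b, χ (ν b) = χ b) :
    ∃ J : D → ℤ, ∀ e ∈ S.X, J (S.vs T ν e) = J e + (χ e - χ (T.a e)) := by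
  refine ⟨fun e => - χ e, fun e he => ?_⟩
  show - χ (S.vs T ν e) = - χ e + (χ e - χ (T.a e))
  rcases inv_vs h hν he with ⟨h1, h2⟩ | ⟨h1, h2⟩
  · rw [h2]
    have h3 : T.f (T.a e) ∉ S.B := fun h4 => h1 ((le_f_mem h _).1 (inv_BR h4))
    have h4 : T.a e ∉ S.B := fun h5 => h1 (inv_BR h5)
    rw [hχ _ h3, hχ _ h4]
    ring
  · rw [h2, hχν]
    ring

private theorem inv_sc {σ : Equiv.Perm D} {u e : D} : σ.SameCycle u (σ e) ↔ σ.SameCycle u e :=
  Equiv.Perm.sameCycle_apply_right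

private theorem inv_down {σ : Equiv.Perm D} {X : Set D} {x y : D} (hne : x ≠ y) (hxy : σ.SameCycle x y)
    {δ J' : D → ℤ} (hJ : ∀ e ∈ X, J' ((Equiv.swap x y * σ) e) = J' e + δ e) :
    ∃ J : D → ℤ, ∀ e ∈ X, J (σ e) = J e + δ e := by
  obtain ⟨σ', hσ'⟩ : ∃ σ', σ' = Equiv.swap x y * σ := ⟨_, rfl⟩
  have hn : ¬ σ'.SameCycle x y := by
    rw [hσ']
    exact swapL_not σ hne hxy
  rw [← hσ'] at hJ
  refine ⟨fun e => if σ'.SameCycle y e then J' e + (J' x - J' y) else J' e, fun e he => ?_⟩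
  show (if σ'.SameCycle y (σ e) then J' (σ e) + (J' x - J' y) else J' (σ e)) =
    (if σ'.SameCycle y e then J' e + (J' x - J' y) else J' e) + δ e
  have h0 : σ e = Equiv.swap x y (σ' e) := by
    rw [hσ', Equiv.Perm.mul_apply, Equiv.swap_apply_self]
  have hx : ¬ σ'.SameCycle y x := fun h1 => hn h1.symm
  have hy : σ'.SameCycle y y := Equiv.Perm.SameCycle.refl _ _
  have h3 := hJ e he
  by_cases h1 : σ' e = x
  · have h2 : ¬ σ'.SameCycle y e := by
      rw [← inv_sc, h1]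
      exact hx
    rw [h0, h1, Equiv.swap_apply_left, if_pos hy, if_neg h2]
    rw [h1] at h3
    linarith
  by_cases h2 : σ' e = y
  · have h4 : σ'.SameCycle y e := by
      rw [← inv_sc, h2]
    rw [h0, h2, Equiv.swap_apply_right, if_neg hx, if_pos h4]
    rw [h2] at h3
    linarith
  · rw [h0, Equiv.swap_apply_of_ne_of_ne h1 h2]
    by_cases h4 : σ'.SameCycle y e
    · rw [if_pos (inv_sc.2 h4), if_pos h4, h3]
      ring
    · rw [if_neg (fun h5 => h4 (inv_sc.1 h5)), if_neg h4, h3]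

private theorem inv_main (h : S.Le T) {F χ : D → ℤ} (hF : ∀ d, F (T.f d) = F d)
    (hFχ : ∀ d, F d - F (T.a d) = χ d - χ (T.a d)) (hχ : ∀ d ∉ S.B, χ d = 0) :
    ∀ ps : List (D × D), S.Vir T ps →
      (∃ J : D → ℤ, ∀ e ∈ S.X, J (S.vs T (S.nuL ps) e) = J e + (χ e - χ (T.a e))) →
      (∀ b ∈ S.B, F (S.nuL ps b) = F b) ∧ ∀ p ∈ ps, F p.1 = F p.2 := by
  intro ps
  induction ps with
  | nil =>
    intro _ _
    exact ⟨fun b hb => inv_nil h hF hFχ hχ hb, fun p hp => absurd hp List.not_mem_nil⟩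
  | cons p ps ih =>
    intro hV hJ
    have hV0 := hV
    obtain ⟨h1, h2, h3, h4, h5⟩ := hV
    obtain ⟨J', hJ'⟩ := hJ
    obtain ⟨ν, hνe⟩ : ∃ ν, ν = S.nuL ps := ⟨_, rfl⟩
    obtain ⟨ν', hνe'⟩ : ∃ ν', ν' = S.nuL (p :: ps) := ⟨_, rfl⟩
    have hνν : ν' = Equiv.swap p.1 p.2 * ν := by rw [hνe', hνe]; rfl
    have hν' : ∀ d ∉ S.B, ν' d = d := by
      rw [hνe']
      exact nuL_off (vir_B hV0)
    rw [← hνe] at h5 ih
    rw [← hνe'] at hJ'
    have h6 : S.vs T ν' = Equiv.swap p.1 p.2 * S.vs T ν := by rw [hνν]; exact vs_swap h2 h3 _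
    have hJ'2 := hJ'
    rw [h6] at hJ'2
    obtain ⟨h7, h8⟩ := ih h1 (inv_down h4 h5 hJ'2)
    have hn : ¬ (S.vs T ν').SameCycle p.1 p.2 := by
      rw [h6]
      exact swapL_not _ h4 h5
    have hXc : ∀ e, S.vs T ν' e ∈ S.X ↔ e ∈ S.X := fun e => vs_X h hν'
    -- the predecessor of `p.1`
    obtain ⟨u, hu⟩ : ∃ u, S.vs T ν' u = p.1 := ⟨(S.vs T ν').symm p.1, Equiv.apply_symm_apply _ _⟩
    have huX : u ∈ S.X := by
      rw [← hXc, hu]
      exact Or.inr h2
    have hup : (S.vs T ν').SameCycle u p.1 := by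
      rw [← hu, inv_sc]
    have hclX : ∀ e, (S.vs T ν').SameCycle u e → e ∈ S.X := by
      intro e he
      obtain ⟨n, -, hn'⟩ := he.exists_pow_eq'
      rw [← hn']
      clear hn'
      induction n with
      | zero => exact huX
      | succ n ih2 =>
        rw [pow_succ', Equiv.Perm.mul_apply, hXc]
        exact ih2
    have hL := cyc_close (S.vs T ν') u (fun e => F e + J' e) (fun e he hne => by
      show F (S.vs T ν' e) + J' (S.vs T ν' e) = F e + J' e
      have heX := hclX e he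
      have h9 := hJ' e heX
      have h10 := hFχ e
      rcases inv_vs h hν' heX with ⟨h11, h12⟩ | ⟨h11, h12⟩
      · have h13 : F (S.vs T ν' e) = F (T.a e) := by rw [h12, hF]
        linarith
      · have h13 : ν (T.a e) ≠ p.2 := by
          intro h14
          apply hne
          apply (S.vs T ν').injective
          rw [hu, h12, hνν, Equiv.Perm.mul_apply, h14, Equiv.swap_apply_right]
        have h14 : ν (T.a e) ≠ p.1 := by
          intro h15
          apply hn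
          have h16 : S.vs T ν' e = p.2 := by
            rw [h12, hνν, Equiv.Perm.mul_apply, h15, Equiv.swap_apply_left]
          have h17 : (S.vs T ν').SameCycle u p.2 := by
            rw [← h16, inv_sc]
            exact he
          exact hup.symm.trans h17
        have h15 : F (S.vs T ν' e) = F (T.a e) := by
          rw [h12, hνν, Equiv.Perm.mul_apply, Equiv.swap_apply_of_ne_of_ne h14 h13, h7 _ h11]
        linarith)
    have hL' : F p.1 + J' p.1 = F u + J' u := by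
      have h9 : F (S.vs T ν' u) + J' (S.vs T ν' u) = F u + J' u := hL
      rw [hu] at h9
      exact h9
    have hpp : F p.1 = F p.2 := by
      have h9 := hJ' u huX
      rw [hu] at h9
      have h10 := hFχ u
      rcases inv_vs h hν' huX with ⟨h11, h12⟩ | ⟨h11, h12⟩
      · exfalso
        rw [hu] at h12
        apply h11
        rw [← le_f_mem h, ← h12]
        exact inv_BR h2
      · rw [hu, hνν, Equiv.Perm.mul_apply] at h12
        have h13 : ν (T.a u) = p.2 := by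
          have h14 := congrArg (Equiv.swap p.1 p.2) h12
          rw [Equiv.swap_apply_left, Equiv.swap_apply_self] at h14
          exact h14.symm
        have h14 := h7 _ h11
        rw [h13] at h14
        linarith
    refine ⟨fun b hb => ?_, fun q hq => ?_⟩
    · rw [← hνe', hνν, Equiv.Perm.mul_apply]
      have h9 := h7 b hb
      by_cases h10 : ν b = p.1
      · rw [h10, Equiv.swap_apply_left, ← hpp, ← h10, h9]
      by_cases h11 : ν b = p.2
      · rw [h11, Equiv.swap_apply_right, hpp, ← h11, h9]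
      · rw [Equiv.swap_apply_of_ne_of_ne h10 h11, h9]
    · rcases List.mem_cons.1 hq with rfl | hq
      · exact hpp
      · exact h8 q hq

theorem inv_swap (h : S.Le T) {ps : List (D × D)} (hV : S.Vir T ps) {F χ : D → ℤ} (hF : ∀ d, F (T.f d) = F d)
    (hFχ : ∀ d, F d - F (T.a d) = χ d - χ (T.a d)) (hχ : ∀ d ∉ S.B, χ d = 0) (hχν : ∀ b, χ (S.nuL ps b) = χ b) :
    (∀ b ∈ S.B, F (S.nuL ps b) = F b) ∧ ∀ p ∈ ps, F p.1 = F p.2 := by
  exact inv_main h hF hFχ hχ ps hV (inv_top h (nuL_off (vir_B hV)) hχ hχν)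

theorem cross (h : S.Le T) {ps : List (D × D)} (hV : S.Vir T ps) (hc : S.VConn T (S.nuL ps))
    (hcl : ∀ d ∈ S.R, ∀ e ∈ S.R, S.Cls ps d e) {F χ : D → ℤ} (hF : ∀ d, F (T.f d) = F d)
    (hFχ : ∀ d, F d - F (T.a d) = χ d - χ (T.a d)) (hχ : ∀ d ∉ S.B, χ d = 0) (hχν : ∀ b, χ (S.nuL ps b) = χ b)
    {b b' : D} (hb : b ∈ S.B) (hb' : b' ∈ S.B) : χ b = χ b' := by
  obtain ⟨h1, h2⟩ := inv_swap h hV hF hFχ hχ hχν
  have hν := nuL_off (S := S) (vir_B hV)
  have hCn : ∀ d e, S.Cn d e → ((d ∈ S.R ↔ e ∈ S.R) ∧ (d ∈ S.R → F d = F e)) := by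
    intro d e hde
    induction hde with
    | rel u v huv =>
      rcases huv with rfl | rfl
      · refine ⟨(mem_R_a S u).symm, fun hu => ?_⟩
        by_cases hub : u ∈ S.B
        · rw [hub.2]
        · obtain ⟨h3, h4⟩ := inv_Ta h hFχ hχ hu hub
          rw [h3, h4]
      · refine ⟨(mem_R_f S u).symm, fun hu => ?_⟩
        rw [← h.1 u hu, hF]
    | refl u => exact ⟨Iff.rfl, fun _ => rfl⟩
    | symm u v _ ih => exact ⟨ih.1.symm, fun hv => (ih.2 (ih.1.2 hv)).symm⟩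
    | trans u v w _ _ ih1 ih2 =>
      exact ⟨ih1.1.trans ih2.1, fun hu => (ih1.2 hu).trans (ih2.2 (ih1.1.1 hu))⟩
  have hCl : ∀ d e, S.Cls ps d e → ((d ∈ S.R ↔ e ∈ S.R) ∧ (d ∈ S.R → F d = F e)) := by
    intro d e hde
    induction hde with
    | rel u v huv =>
      rcases huv with huv | huv
      · exact hCn u v huv
      · have h3 := vir_B hV _ huv
        exact ⟨⟨fun _ => inv_BR h3.2, fun _ => inv_BR h3.1⟩, fun _ => h2 _ huv⟩
    | refl u => exact ⟨Iff.rfl, fun _ => rfl⟩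
    | symm u v _ ih => exact ⟨ih.1.symm, fun hv => (ih.2 (ih.1.2 hv)).symm⟩
    | trans u v w _ _ ih1 ih2 =>
      exact ⟨ih1.1.trans ih2.1, fun hu => (ih1.2 hu).trans (ih2.2 (ih1.1.1 hu))⟩
  have hFb : F b = F b' := (hCl b b' (hcl b (inv_BR hb) b' (inv_BR hb'))).2 (inv_BR hb)
  have hZ := hc {d | d ∈ S.X ∧ F d - χ d = F b - χ b} (fun d hd => hd.1) ⟨b, Or.inr hb, rfl⟩ (by
    intro d hd
    obtain ⟨h3, h4⟩ := hd
    constructor
    · rw [valp_X h h3]
      refine ⟨(X_a h d).2 h3, ?_⟩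
      have h5 := hFχ d
      linarith
    · rcases h3 with h3 | h3
      · rw [vphi_R h hν h3]
        have h5 : T.f d ∉ S.R := fun h6 => h3 ((le_f_mem h d).1 h6)
        refine ⟨Or.inl h5, ?_⟩
        rw [hF, hχ _ (fun h6 => h5 (inv_BR h6)), ← hχ d (fun h6 => h3 (inv_BR h6))]
        exact h4
      · rw [vphi_B hν h3]
        refine ⟨Or.inr ((nu_mem hν).2 h3), ?_⟩
        rw [h1 _ h3, hχν]
        exact h4)
  have h3 : b' ∈ {d | d ∈ S.X ∧ F d - χ d = F b - χ b} := by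
    rw [hZ]
    exact Or.inr hb'
  have h4 := h3.2
  linarith

end Part
end SYS
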