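import Pool.Agent.SYS.LT.AddA

/-!
# SYS-LT-Isl: an island explored from a new triangle

PLAN.  `S1 := S.newTri t0 t1 t2`.
* `S.Add S1`: `newTri_sub`, `newTri_B`.  `S1.Typ (t0 :: l) (3 :: P) F κ`: `typ_newTri` (look at its statement).  `rch_sub`; `S1.B` darts which are not in the hole of `t0` stay in `B` (`rch_other`), and the
  darts of `S.B` are not in the hole of `t0` (`hw_newTri`: `[t0, t1, t2]`, `mem_hw`): `S.Add S'`.
* `rch_typ`: the type of `S'`; `x' ∈ S'.B` (`Typ.hl`), `x' ∉ S.B`: by `rch_other` a dart `d ∈ S.B` has `¬ S'.s.SameCycle x' d`.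
* `e ∈ S'.B \ S.B`: by `Typ.hl` of `S'` it is in the cycle of `x'` or of some `y ∈ l`; for `y ∈ l ⊆ S.B`: `S'.hw y = S1.hw y = S.hw y` (`rch_other`, `hw_newTri_other`), so `e ∈ S.B`, contradiction.
* `Cn`: `Typ.tc` of `S'`: `d ∈ S'.R \ S.R` has `e ∈ S'.B` with `S'.Cn d e`; `S.R` is closed under `S'.a`, `S'.f` (`add_old`), hence also its complement, so `e ∉ S.R`, `e ∈ S'.B \ S.B`,
  `S'.s.SameCycle x' e`, `cn_of_same`.
-/

namespace SYS
namespace Part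

open Classical SST Vm

variable {D : Type} [Finite D] {S S' : Part D} {l : List D} {P : List ℕ} {F κ : ℕ}

private theorem isl_fix {t : D} (h : t ∉ S.R) : S.f t = t := not_not.1 h

private theorem isl_Rf (hA : S.Add S') (d : D) : S'.f d ∈ S.R ↔ d ∈ S.R := by
  have key : ∀ e, e ∈ S.R → S'.f e ∈ S.R := by
    intro e he
    rw [(add_old hA he).2.1, mem_R_f]
    exact he
  constructor
  · intro h
    have h1 := key _ (key _ h)
    rwa [S'.fff] at h1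
  · exact key d

private theorem isl_Ra (hA : S.Add S') (d : D) : S'.a d ∈ S.R ↔ d ∈ S.R := by
  have key : ∀ e, e ∈ S.R → S'.a e ∈ S.R := by
    intro e he
    rw [(add_old hA he).1, mem_R_a]
    exact he
  constructor
  · intro h
    have h1 := key _ h
    rwa [S'.aa] at h1
  · exact key d

private theorem isl_Cn (hA : S.Add S') {d e : D} (h : S'.Cn d e) : d ∈ S.R ↔ e ∈ S.R := by
  unfold Cn at h
  induction h with
  | rel u v huv =>
    rcases huv with rfl | rfl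
    · exact (isl_Ra hA u).symm
    · exact (isl_Rf hA u).symm
  | refl u => exact Iff.rfl
  | symm u v _ ih => exact ih.symm
  | trans u v w _ _ ih1 ih2 => exact ih1.trans ih2

theorem isl_tri (hS : S.Typ l P (F + 1) κ) {t0 t1 t2 : D} (h0 : t0 ∉ S.R) (h1 : t1 ∉ S.R) (h2 : t2 ∉ S.R) (h01 : t0 ≠ t1)
    (h12 : t1 ≠ t2) (h20 : t2 ≠ t0) : S.Add (S.newTri t0 t1 t2 h0 h1 h2 h01 h12 h20) ∧
      (S.newTri t0 t1 t2 h0 h1 h2 h01 h12 h20).Typ (t0 :: l) (3 :: P) F κ := by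
  refine ⟨⟨newTri_sub S h0 h1 h2 h01 h12 h20, ?_⟩, typ_newTri hS h0 h1 h2 h01 h12 h20⟩
  rw [newTri_B]
  exact Set.subset_union_left

theorem isl_add (hS : S.Typ l P (F + 1) κ) {t0 t1 t2 : D} (h0 : t0 ∉ S.R) (h1 : t1 ∉ S.R) (h2 : t2 ∉ S.R) (h01 : t0 ≠ t1)
    (h12 : t1 ≠ t2) (h20 : t2 ≠ t0) {ρ : List Stp → ℕ} {hs w : List Stp} {x' : D}
    (hr : Rch ρ hs (S.newTri t0 t1 t2 h0 h1 h2 h01 h12 h20) t0 w S' x') :
    S.Add S' ∧ x' ∈ S'.B \ S.B ∧ (∀ e ∈ S'.B \ S.B, S'.s.SameCycle x' e) ∧ (∀ e ∈ S'.B \ S.B, S'.nx.SameCycle x' e) ∧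
      (∀ d ∈ S'.R \ S.R, ∀ e ∈ S'.R \ S.R, S'.Cn d e) ∧ WOk 3 w ∧
      ∃ F', F' + wvol w = F ∧ S'.Typ (x' :: l) (wend 3 w :: P) F' κ := by
  obtain ⟨hA1, hT1⟩ := isl_tri hS h0 h1 h2 h01 h12 h20
  have hB1 := newTri_B S h0 h1 h2 h01 h12 h20
  have hw1 := hw_newTri S h0 h1 h2 h01 h12 h20
  have hwo : ∀ z ∈ S.B, (S.newTri t0 t1 t2 h0 h1 h2 h01 h12 h20).hw z = S.hw z :=
    fun z hz => hw_newTri_other S h0 h1 h2 h01 h12 h20 hz
  set S1 := S.newTri t0 t1 t2 h0 h1 h2 h01 h12 h20 with hS1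
  have ht0 : t0 ∈ S1.B := by
    rw [hB1]
    exact Or.inr (Or.inl rfl)
  have hno : ∀ d ∈ S.B, ¬ S1.s.SameCycle t0 d := by
    intro d hd hc
    have h3 : d ∈ S1.hw t0 := (mem_hw S1 ht0).2 ⟨hA1.B hd, hc⟩
    rw [hw1] at h3
    have hdR : d ∈ S.R := hd.1
    simp only [List.mem_cons, List.not_mem_nil, or_false] at h3
    rcases h3 with rfl | rfl | rfl
    · exact h0 hdR
    · exact h1 hdR
    · exact h2 hdR
  have hoth : ∀ d ∈ S.B, d ∈ S'.B ∧ S'.hw d = S.hw d ∧ ¬ S'.s.SameCycle x' d := by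
    intro d hd
    obtain ⟨h3, h4, h5⟩ := rch_other hr (hA1.B hd) (hno d hd)
    exact ⟨h3, h4.trans (hwo d hd), h5⟩
  have hA : S.Add S' := ⟨sub_trans hA1.sub (rch_sub hr), fun d hd => (hoth d hd).1⟩
  obtain ⟨hok, F', hF', hT'⟩ := rch_typ hT1 hr
  have hx' : x' ∈ S'.B := hT'.hl.1 x' List.mem_cons_self
  have hxn : x' ∉ S.B := fun h => (hoth x' h).2.2 (Equiv.Perm.SameCycle.refl _ _)
  have hsame : ∀ e ∈ S'.B \ S.B, S'.s.SameCycle x' e := by
    rintro e ⟨he, hne⟩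
    obtain ⟨y, hy, hye⟩ := hT'.hl.2.2 e he
    rcases List.mem_cons.1 hy with rfl | hy
    · exact hye
    · exfalso
      have hyB : y ∈ S.B := hS.hl.1 y hy
      have h3 : e ∈ S'.hw y := (mem_hw S' (hoth y hyB).1).2 ⟨he, hye⟩
      rw [(hoth y hyB).2.1] at h3
      exact hne ((mem_hw S hyB).1 h3).1
  have hcn : ∀ d ∈ S'.R \ S.R, S'.Cn d x' := by
    rintro d ⟨hd, hdn⟩
    obtain ⟨b, hb, hdb⟩ := hT'.tc d hd
    have hbR : b ∉ S.R := fun h => hdn ((isl_Cn hA hdb).2 h)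
    exact cn_trans hdb (cn_symm (cn_of_same (hsame b ⟨hb, fun h => hbR h.1⟩)))
  exact ⟨hA, ⟨hx', hxn⟩, hsame, fun e he => (ret_same S'.s hx' he.1).2 (hsame e he),
    fun d hd e he => cn_trans (hcn d hd) (cn_symm (hcn e he)), hok, F', hF', hT'⟩

/-- Revealing a new island does not change the swaps. -/
theorem isl_hw (hA : S.Add S') {z : D} (hz : z ∈ S.B) : S'.hw z = S.hw z ∧ S'.per z = S.per z := by
  have hs : ∀ n : ℕ, (S'.s ^ n) z = (S.s ^ n) z ∧ (S.s ^ n) z ∈ S.R := by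
    intro n
    induction n with
    | zero => exact ⟨rfl, hz.1⟩
    | succ n ih =>
      rw [pow_succ', pow_succ', Equiv.Perm.mul_apply, Equiv.Perm.mul_apply, ih.1, (add_old hA ih.2).2.2]
      exact ⟨rfl, (mem_R_s S _).2 ih.2⟩
  have hnx : ∀ n : ℕ, (S'.nx ^ n) z = (S.nx ^ n) z ∧ (S.nx ^ n) z ∈ S.B := by
    intro n
    induction n with
    | zero => exact ⟨rfl, hz⟩
    | succ n ih =>
      rw [pow_succ', pow_succ', Equiv.Perm.mul_apply, Equiv.Perm.mul_apply, ih.1, add_nx hA ih.2]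
      exact ⟨rfl, S.nx_mem.2 ih.2⟩
  have hper : S'.per z = S.per z := by
    unfold per
    congr 1
    ext e
    constructor
    · rintro ⟨h1, h2⟩
      obtain ⟨n, -, hn⟩ := h2.exists_pow_eq'
      obtain ⟨h3, h4⟩ := hs n
      rw [hn] at h3
      rw [← h3] at h4
      refine ⟨⟨h4, ?_⟩, ⟨n, ?_⟩⟩
      · rw [← (add_old hA h4).1]
        exact h1.2
      · rw [zpow_natCast, h3]
    · rintro ⟨h1, h2⟩
      obtain ⟨n, -, hn⟩ := h2.exists_pow_eq'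
      obtain ⟨h3, h4⟩ := hs n
      refine ⟨hA.B h1, ⟨n, ?_⟩⟩
      rw [zpow_natCast, h3, hn]
  refine ⟨?_, hper⟩
  unfold hw
  rw [hper]
  exact List.map_congr_left fun i _ => (hnx i).1

end Part
end SYS
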