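import Pool.Agent.SYS.LT.RetX

/-!
# SYS-LT-Rem: removal of an edge of a map, general facts
-/

namespace SYS
namespace Vm

open Classical SST

variable {D : Type} [Finite D] {X : Set D} {φ α : Equiv.Perm D}

theorem mp_a (hM : Mp X φ α) {d : D} : α d ∈ X ↔ d ∈ X := by
  constructor
  · intro h
    by_contra hd
    rw [hM.a_off d hd] at h
    exact hd h
  · intro h
    by_contra hd
    have h1 := hM.a_off _ hd
    rw [hM.aa] at h1
    exact hM.a_on d h h1.symm

theorem mp_f (hM : Mp X φ α) {d : D} : φ d ∈ X ↔ d ∈ X := by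
  constructor
  · intro h
    by_contra hd
    rw [hM.f_off d hd] at h
    exact hd h
  · intro h
    by_contra hd
    have h1 := φ.injective (hM.f_off _ hd)
    rw [h1] at hd
    exact hd h

theorem rem_a (hM : Mp X φ α) (d : D) {e : D} : α e ∈ rX X α d ↔ e ∈ rX X α d := by
  have e1 : α e = d ↔ e = α d := by
    constructor
    · intro h
      rw [← h, hM.aa]
    · intro h
      rw [h, hM.aa]
  have e2 : α e = α d ↔ e = d := ⟨fun h => α.injective h, fun h => by rw [h]⟩
  unfold rX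
  rw [Set.mem_sdiff, Set.mem_sdiff, mp_a hM, Set.mem_insert_iff, Set.mem_insert_iff, Set.mem_singleton_iff,
    Set.mem_singleton_iff, e1, e2]
  tauto

theorem rA_mem (hM : Mp X φ α) (d : D) {e : D} (he : e ∈ rX X α d) : rA X α d e = α e := by
  exact rs_mem (fun e => rem_a hM d) he

theorem rem_mp (hM : Mp X φ α) {d : D} (hd : d ∈ X) : Mp (rX X α d) (rF X φ α d) (rA X α d) := by
  refine ⟨fun e he => ret_not_mem _ he, fun e he => rs_not_mem he, ?_, ?_⟩
  · intro e he
    rw [rA_mem hM d he]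
    exact hM.a_on e he.1
  · intro e
    by_cases he : e ∈ rX X α d
    · rw [rA_mem hM d he, rA_mem hM d ((rem_a hM d).2 he), hM.aa]
    · have h1 : rA X α d e = e := rs_not_mem he
      rw [h1, h1]

theorem rem_vs (hM : Mp X φ α) {d : D} (hd : d ∈ X) {e : D} (he : e ∈ rX X α d) :
    (rF X φ α d * rA X α d) e = ret (φ * α) (rX X α d) e := by
  have hae : α e ∈ rX X α d := (rem_a hM d).2 he
  rw [Equiv.Perm.mul_apply, rA_mem hM d he]
  refine ret_agree ?_ hae he ?_
  · intro z hz
    show φ (Equiv.swap d (α d) z) = φ (α z)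
    by_cases h1 : z = d
    · rw [h1, Equiv.swap_apply_left]
    by_cases h2 : z = α d
    · rw [h2, Equiv.swap_apply_right, hM.aa]
    rw [Equiv.swap_apply_of_ne_of_ne h1 h2]
    have h3 : z ∉ X := by
      intro h4
      apply hz
      refine ⟨h4, ?_⟩
      rw [Set.mem_insert_iff, Set.mem_singleton_iff]
      tauto
    rw [hM.a_off z h3]
  · show φ (Equiv.swap d (α d) (α e)) = φ (α e)
    have h1 : α e ≠ d := fun h => hae.2 (by rw [h]; exact Set.mem_insert _ _)
    have h2 : α e ≠ α d := fun h => hae.2 (by rw [h]; exact Set.mem_insert_of_mem _ rfl)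
    rw [Equiv.swap_apply_of_ne_of_ne h1 h2]

theorem rem_V (hM : Mp X φ α) {d : D} (hd : d ∈ X) :
    ncycOn (rF X φ α d * rA X α d) (rX X α d) = ncycOn (φ * α) (rX X α d) := by
  rw [← ncycOn_ret (φ * α) (rX X α d)]
  refine ncycOn_congr ?_ fun e he => rem_vs hM hd he
  intro e
  constructor
  · intro h
    by_contra he
    rw [ret_not_mem _ he] at h
    exact he h
  · intro h
    obtain ⟨-, -, h1, -⟩ := ret_spec (φ * α) h
    exact h1

theorem rem_F (X : Set D) (φ α : Equiv.Perm D) (d : D) :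
    ncycOn (rF X φ α d) (rX X α d) = ncycOn (φ * Equiv.swap d (α d)) (rX X α d) := by
  exact ncycOn_ret _ _

theorem rem_card (hM : Mp X φ α) {d : D} (hd : d ∈ X) : (rX X α d).ncard + 2 = X.ncard := by
  have h1 : ({d, α d} : Set D) ⊆ X := by
    intro z hz
    rcases hz with h | h
    · rw [h]; exact hd
    · rw [Set.mem_singleton_iff] at h
      rw [h]; exact (mp_a hM).2 hd
  have h2 : ({d, α d} : Set D).ncard = 2 := Set.ncard_pair (hM.a_on d hd).symm
  have h3 := Set.ncard_sdiff_add_ncard_of_subset h1 (Set.toFinite X)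
  rw [h2] at h3
  exact h3

theorem rem_back (hM : Mp X φ α) {d : D} (hd : d ∈ X) {G : Type} [Group G] {l k' : D → G} (hl : ∀ d ∈ X, l (α d) = (l d)⁻¹)
    (hk : Gg (rX X α d) (rF X φ α d) (rA X α d) l k') :
    ∃ k : D → G, (∀ e, k (φ (α e)) = k e) ∧ ∀ e ∈ rX X α d, k (φ e) = k e * l e ∧ k (α e) = k e * l e := by
  have hinv : ∀ e ∈ rX X α d, k' (ret (φ * α) (rX X α d) e) = k' e := by
    intro e he
    have hae : α e ∈ rX X α d := (rem_a hM d).2 he
    rw [← rem_vs hM hd he, Equiv.Perm.mul_apply, rA_mem hM d he, (hk _ hae).1, ← rA_mem hM d he, (hk _ he).2,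
      rA_mem hM d he, hl e he.1, mul_inv_cancel_right]
  obtain ⟨k, h1, h2⟩ := ext_inv (φ * α) (rX X α d) k' hinv
  refine ⟨k, h2, ?_⟩
  intro e he
  have hae : α e ∈ rX X α d := (rem_a hM d).2 he
  have h3 : k (α e) = k e * l e := by
    rw [h1 _ hae, h1 _ he, ← (hk _ he).2, rA_mem hM d he]
  refine ⟨?_, h3⟩
  have h4 := h2 (α e)
  rw [Equiv.Perm.mul_apply, hM.aa] at h4
  rw [h4, h3]

end Vm
end SYS
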