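import Pool.Agent.SYS.LT.Defs

/-!
# SYS-LT-RetX: first returns and invariant functions (small lemmas)
-/

namespace SYS
namespace Vm

open Classical SST

variable {D : Type} [Finite D]

theorem ret_agree {σ τ : Equiv.Perm D} {Y : Set D} (h : ∀ z ∉ Y, τ z = σ z) {x y : D} (hx : x ∈ Y) (hy : y ∈ Y)
    (hxy : τ x = σ y) : ret τ Y x = ret σ Y y := by
  obtain ⟨j, h1, h2, h3⟩ := ret_spec σ hy
  have key : ∀ i ≤ j, (τ ^ (i + 1)) x = (σ ^ (i + 1)) y := by
    intro i
    induction i with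
    | zero =>
      intro _
      rw [zero_add, pow_one, pow_one]
      exact hxy
    | succ i ih =>
      intro hi
      have h4 := ih (by omega)
      rw [pow_succ' τ (i + 1), pow_succ' σ (i + 1), Equiv.Perm.mul_apply, Equiv.Perm.mul_apply, h4]
      exact h _ (h3 i (by omega))
  rw [h1] at h2
  rw [ret_eq τ hx (j := j) (by rw [key j le_rfl]; exact h2)
    (fun i hi => by rw [key i hi.le]; exact h3 i hi), key j le_rfl, h1]

theorem ext_inv {G : Type} [Group G] (σ : Equiv.Perm D) (Y : Set D) (k' : D → G) (h : ∀ e ∈ Y, k' (ret σ Y e) = k' e) :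
    ∃ k : D → G, (∀ e ∈ Y, k e = k' e) ∧ ∀ e, k (σ e) = k e := by
  have hc : ∀ y ∈ Y, ∀ z ∈ Y, σ.SameCycle y z → k' y = k' z := by
    intro y hy z hz hyz
    have h1 : (ret σ Y).SameCycle y z := (ret_same σ hy hz).2 hyz
    obtain ⟨n, hn⟩ := h1.exists_pow_eq'
    have key : ∀ n : ℕ, ((ret σ Y) ^ n) y ∈ Y ∧ k' (((ret σ Y) ^ n) y) = k' y := by
      intro n
      induction n with
      | zero => exact ⟨hy, rfl⟩
      | succ n ih =>
        rw [pow_succ', Equiv.Perm.mul_apply]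
        obtain ⟨_, _, h2, _⟩ := ret_spec σ ih.1
        exact ⟨h2, (h _ ih.1).trans ih.2⟩
    rw [← hn.2]
    exact (key n).2.symm
  refine ⟨fun e => if hx : ∃ y ∈ Y, σ.SameCycle e y then k' hx.choose else 1, ?_, ?_⟩
  · intro e he
    have hx : ∃ y ∈ Y, σ.SameCycle e y := ⟨e, he, Equiv.Perm.SameCycle.refl _ _⟩
    show (if hx : ∃ y ∈ Y, σ.SameCycle e y then k' hx.choose else 1) = k' e
    rw [dif_pos hx]
    exact (hc e he _ hx.choose_spec.1 hx.choose_spec.2).symm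
  · intro e
    show (if hx : ∃ y ∈ Y, σ.SameCycle (σ e) y then k' hx.choose else 1) =
      (if hx : ∃ y ∈ Y, σ.SameCycle e y then k' hx.choose else 1)
    by_cases hx : ∃ y ∈ Y, σ.SameCycle e y
    · have hx' : ∃ y ∈ Y, σ.SameCycle (σ e) y := by
        obtain ⟨y, hy, h1⟩ := hx
        exact ⟨y, hy, Equiv.Perm.sameCycle_apply_left.2 h1⟩
      rw [dif_pos hx, dif_pos hx']
      refine hc _ hx'.choose_spec.1 _ hx.choose_spec.1 ?_
      exact (Equiv.Perm.sameCycle_apply_left.1 hx'.choose_spec.2).symm.trans hx.choose_spec.2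
    · have hx' : ¬ ∃ y ∈ Y, σ.SameCycle (σ e) y := by
        rintro ⟨y, hy, h1⟩
        exact hx ⟨y, hy, Equiv.Perm.sameCycle_apply_left.1 h1⟩
      rw [dif_neg hx, dif_neg hx']

theorem cyc_close {A : Type} (σ : Equiv.Perm D) (u : D) (c : D → A)
    (h : ∀ e, σ.SameCycle u e → e ≠ u → c (σ e) = c e) : c (σ u) = c u := by
  have hex : ∃ m : ℕ, (σ ^ (m + 1)) u = u := by
    refine ⟨orderOf σ - 1, ?_⟩
    rw [Nat.sub_add_cancel (orderOf_pos σ), pow_orderOf_eq_one]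
    rfl
  have key : ∀ i ≤ Nat.find hex, c ((σ ^ (i + 1)) u) = c (σ u) := by
    intro i
    induction i with
    | zero =>
      intro _
      rw [zero_add, pow_one]
    | succ i ih =>
      intro hi
      have h1 := Nat.find_min hex (m := i) (by omega)
      rw [pow_succ', Equiv.Perm.mul_apply, h _ ⟨((i + 1 : ℕ) : ℤ), by rw [zpow_natCast]⟩ h1]
      exact ih (by omega)
  have h2 := key _ le_rfl
  rw [Nat.find_spec hex] at h2
  exact h2.symm

theorem ncycOn_meet {σ : Equiv.Perm D} {X Y : Set D} (hYX : Y ⊆ X) (h : ∀ d ∈ X, ∃ e ∈ Y, σ.SameCycle d e) :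
    ncycOn σ X = ncycOn σ Y := by
  unfold ncycOn
  congr 1
  ext q
  constructor
  · rintro ⟨d, hd, rfl⟩
    obtain ⟨e, he, hde⟩ := h d hd
    exact ⟨e, he, Quotient.sound hde.symm⟩
  · rintro ⟨d, hd, rfl⟩
    exact ⟨d, hYX hd, rfl⟩

theorem rs_mem {σ : Equiv.Perm D} {Y : Set D} (h : ∀ d, σ d ∈ Y ↔ d ∈ Y) {d : D} (hd : d ∈ Y) : rs σ Y d = σ d := by
  unfold rs
  rw [dif_pos h]
  exact restr_mem σ h hd

theorem rs_not_mem {σ : Equiv.Perm D} {Y : Set D} {d : D} (hd : d ∉ Y) : rs σ Y d = d := by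
  unfold rs
  by_cases h : ∀ d, σ d ∈ Y ↔ d ∈ Y
  · rw [dif_pos h]
    exact restr_not_mem σ h hd
  · rw [dif_neg h]
    rfl

end Vm
end SYS
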