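import Pool.Agent.SYS.LT.Vtx
import Pool.Agent.SYS.LT.Hls
import Pool.Agent.SYS.LT.Cnc

/-!
# SYS-LT-TwoA: number of triangulations with given swaps and two hidden components of given sizes

`A` is the component with the holes `H1`, it has `3 F1` hidden face darts and `V1` vertices.
-/

namespace SYS
namespace Part

open Classical SST Vm

private theorem ta_inv {D : Type} [Finite D] (σ : Equiv.Perm D) {Y : Set D} (h : ∀ d ∈ Y, σ d ∈ Y) (d : D) :
    σ d ∈ Y ↔ d ∈ Y := by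
  refine ⟨fun hd => ?_, h d⟩
  have hs : σ.SameCycle (σ d) d := (Equiv.Perm.sameCycle_apply_left).2 (Equiv.Perm.SameCycle.refl _ _)
  obtain ⟨n, -, hn⟩ := hs.exists_pow_eq'
  rw [← hn]
  clear hn
  induction n with
  | zero => exact hd
  | succ n ih =>
    rw [pow_succ', Equiv.Perm.mul_apply]
    exact h _ ih

private theorem ta_pair {D : Type} [Finite D] {S : Part D} {T : Tri D} {ν : Equiv.Perm D} (h : S.Le T)
    (hν : ∀ d ∉ S.B, ν d = d) {A W H : Set D} (hA : S.Cmp T ν A) (hW : ∀ d, d ∈ W ↔ d ∈ A ∧ d ∉ S.B)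
    (hH : ∀ d, d ∈ H ↔ d ∈ A ∧ d ∈ S.B) {V : ℕ} (hV : ncycOn (S.vs T ν) A = V) :
    PairOn W H (rs ν H) V (rs T.f W) (rs T.a A) := by
  have aInv := ta_inv T.a hA.a
  have hWR : ∀ d ∈ W, d ∉ S.R := by
    intro d hd
    have h1 := (hW d).1 hd
    rcases hA.sub h1.1 with h2 | h2
    · exact h2
    · exact absurd h2 h1.2
  have fW : ∀ d ∈ W, T.f d ∈ W := by
    intro d hd
    have h1 := hA.f d ((hW d).1 hd).1
    rw [vphi_R h hν (hWR d hd)] at h1
    rw [hW]
    exact ⟨h1, fun hB => hWR d hd ((le_f_mem h d).1 (S.B_sub_R hB))⟩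
  have fInv := ta_inv T.f fW
  have nH : ∀ d ∈ H, ν d ∈ H := by
    intro d hd
    have h1 := (hH d).1 hd
    have h2 := hA.f d h1.1
    rw [vphi_B hν h1.2] at h2
    rw [hH]
    exact ⟨h2, (nu_mem hν).2 h1.2⟩
  have nInv := ta_inv ν nH
  have hAeq : W ∪ H = A := by
    ext d
    rw [Set.mem_union, hW, hH]
    constructor
    · rintro (h1 | h1)
      · exact h1.1
      · exact h1.1
    · intro hd
      by_cases hB : d ∈ S.B
      · exact Or.inr ⟨hd, hB⟩
      · exact Or.inl ⟨hd, hB⟩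
  refine ⟨fun d hd => rs_not_mem hd, fun d hd => ?_, fun d => ?_, fun d hd => ?_, fun d hd => ?_, fun d => ?_, ?_, ?_⟩
  · rw [rs_mem fInv hd]
    exact T.fne d
  · by_cases hd : d ∈ W
    · rw [rs_mem fInv hd, rs_mem fInv (fW d hd), rs_mem fInv (fW _ (fW d hd)), T.fff]
    · rw [rs_not_mem hd, rs_not_mem hd, rs_not_mem hd]
  · rw [hAeq] at hd
    exact rs_not_mem hd
  · rw [hAeq] at hd
    rw [rs_mem aInv hd]
    exact T.ane d
  · by_cases hd : d ∈ A
    · rw [rs_mem aInv hd, rs_mem aInv ((aInv d).2 hd), T.aa]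
    · rw [rs_not_mem hd, rs_not_mem hd]
  · rw [hAeq]
    intro Z hZ hne hcl
    refine hA.trs Z hZ hne fun d hd => ?_
    obtain ⟨h1, h2, h3⟩ := hcl d hd
    rw [rs_mem aInv (hZ hd)] at h1
    refine ⟨h1, ?_⟩
    by_cases hB : d ∈ S.B
    · rw [vphi_B hν hB]
      have h4 : d ∈ H := (hH d).2 ⟨hZ hd, hB⟩
      rw [rs_mem nInv h4] at h3
      exact h3
    · have h4 : d ∈ W := (hW d).2 ⟨hZ hd, hB⟩
      rw [vphi_R h hν (hWR d h4)]
      rw [rs_mem fInv h4] at h2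
      exact h2
  · rw [hAeq, ← hV]
    have hvs : ∀ d ∈ A, S.vs T ν d = S.vphi T ν (T.a d) := by
      intro d hd
      unfold vs
      rw [Equiv.Perm.mul_apply, valp_X h (hA.sub hd)]
    refine ncycOn_congr (ta_inv _ fun d hd => ?_) fun d hd => ?_
    · rw [hvs d hd]
      exact hA.f _ (hA.a d hd)
    · rw [hvs d hd, Equiv.Perm.mul_apply, Equiv.Perm.mul_apply, rs_mem aInv hd]
      have h1 := hA.a d hd
      by_cases hB : T.a d ∈ S.B
      · have h4 : T.a d ∈ H := (hH _).2 ⟨h1, hB⟩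
        rw [rs_mem nInv h4, vphi_B hν hB]
        refine rs_not_mem fun h5 => ?_
        exact ((hW _).1 h5).2 ((nu_mem hν).2 hB)
      · have h4 : T.a d ∈ W := (hW _).2 ⟨h1, hB⟩
        have h5 : T.a d ∉ H := fun h6 => hB ((hH _).1 h6).2
        rw [rs_not_mem h5, rs_mem fInv h4, vphi_R h hν (hWR _ h4)]

private theorem ta_union {D : Type} [Finite D] (σ : Equiv.Perm D) {A B : Set D} (hA : ∀ d ∈ A, σ d ∈ A)
    (hd : Disjoint A B) :
    ncycOn σ (A ∪ B) = ncycOn σ A + ncycOn σ B := by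
  show ((Quotient.mk (Equiv.Perm.SameCycle.setoid σ)) '' (A ∪ B)).ncard =
    ((Quotient.mk (Equiv.Perm.SameCycle.setoid σ)) '' A).ncard +
      ((Quotient.mk (Equiv.Perm.SameCycle.setoid σ)) '' B).ncard
  rw [Set.image_union, Set.ncard_union_eq ?_ (Set.toFinite _) (Set.toFinite _)]
  rw [Set.disjoint_left]
  rintro _ ⟨d, hd', rfl⟩ ⟨e, he, h1⟩
  have hs : σ.SameCycle d e := Quotient.exact h1.symm
  obtain ⟨n, -, hn⟩ := hs.exists_pow_eq'
  have key : ∀ n : ℕ, (σ ^ n) d ∈ A := by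
    intro n
    induction n with
    | zero => exact hd'
    | succ n ih =>
      rw [pow_succ', Equiv.Perm.mul_apply]
      exact hA _ ih
  have h2 := key n
  rw [hn] at h2
  exact Set.disjoint_left.1 hd h2 he

theorem two_count {n g F1 F2 V1 V2 : ℕ} (S : Part (Fin (6 * n))) {ps : List (Fin (6 * n) × Fin (6 * n))}
    (hps : ∀ p ∈ ps, p.1 ∈ S.B ∧ p.2 ∈ S.B) {H1 : Set (Fin (6 * n))} (h1 : H1 ⊆ S.B) (hν1 : ∀ d, S.nuL ps d ∈ H1 ↔ d ∈ H1)
    (hF : S.R.ncard + 3 * (F1 + F2) = 6 * n) (hV : V1 + V2 + S.inn + 2 * g = n + 2 + ps.length)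
    {ι1 ι2 : Type} [Fintype ι1] [Fintype ι2] (p1 : ι1 → ℕ) (hp1 : ∀ i, 0 < p1 i) (c1 : (Σ i : ι1, Fin (p1 i)) → Fin (6 * n))
    (hc1 : Function.Injective c1) (hr1 : Set.range c1 = H1) (hcν1 : ∀ i k, S.nuL ps (c1 ⟨i, k⟩) = c1 ⟨i, finRotate (p1 i) k⟩)
    (p2 : ι2 → ℕ) (hp2 : ∀ i, 0 < p2 i) (c2 : (Σ i : ι2, Fin (p2 i)) → Fin (6 * n))
    (hc2 : Function.Injective c2) (hr2 : Set.range c2 = S.B \ H1) (hcν2 : ∀ i k, S.nuL ps (c2 ⟨i, k⟩) = c2 ⟨i, finRotate (p2 i) k⟩) :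
    (({T | T ∈ S.Ext g ∧ S.Vir T ps ∧ ∃ A : Set (Fin (6 * n)), S.Cmp T (S.nuL ps) A ∧ S.Cmp T (S.nuL ps) (S.X \ A) ∧ A ∩ S.B = H1 ∧
        (A \ S.B).ncard = 3 * F1 ∧ ncycOn (S.vs T (S.nuL ps)) A = V1}.ncard : ℕ) : ℚ) ≤
      ((3 * (F1 + F2)).factorial : ℚ) * (mu p1 F1 V1 * mu p2 F2 V2) := by
  set ν := S.nuL ps with hνdef
  have hν : ∀ d ∉ S.B, ν d = d := nuL_off hps
  have hcard : S.R.ncard + S.Rᶜ.ncard = 6 * n := by
    rw [Set.ncard_add_ncard_compl, Nat.card_eq_fintype_card, Fintype.card_fin]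
  have hWc : S.Rᶜ.ncard = 3 * (F1 + F2) := by omega
  set 𝒯 := {T | T ∈ S.Ext g ∧ S.Vir T ps ∧ ∃ A : Set (Fin (6 * n)), S.Cmp T ν A ∧ S.Cmp T ν (S.X \ A) ∧ A ∩ S.B = H1 ∧
        (A \ S.B).ncard = 3 * F1 ∧ ncycOn (S.vs T ν) A = V1} with h𝒯
  have hν2 : ∀ d, ν d ∈ S.B \ H1 ↔ d ∈ S.B \ H1 := by
    intro d
    rw [Set.mem_sdiff, Set.mem_sdiff, nu_mem hν, hν1]
  -- the sets of pairs
  let P1 : Set (Fin (6 * n)) → Set (Equiv.Perm (Fin (6 * n)) × Equiv.Perm (Fin (6 * n))) := fun W =>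
    {q | PairOn W H1 (rs ν H1) V1 q.1 q.2}
  let P2 : Set (Fin (6 * n)) → Set (Equiv.Perm (Fin (6 * n)) × Equiv.Perm (Fin (6 * n))) := fun W =>
    {q | PairOn (S.Rᶜ \ W) (S.B \ H1) (rs ν (S.B \ H1)) V2 q.1 q.2}
  have hP1 : ∀ W : Set (Fin (6 * n)), W ⊆ S.Rᶜ → W.ncard = 3 * F1 →
      ((P1 W).ncard : ℚ) = ((3 * F1).factorial : ℚ) * mu p1 F1 V1 := by
    intro W hW hc
    refine pair_card ?_ hc (fun d hd => rs_not_mem hd) p1 hp1 c1 hc1 hr1 ?_ V1
    · rw [Set.disjoint_left]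
      intro d hd hd'
      exact hW hd (S.B_sub_R (h1 hd'))
    · intro i k
      rw [rs_mem hν1, hcν1]
      rw [← hr1]
      exact ⟨_, rfl⟩
  have hP2 : ∀ W : Set (Fin (6 * n)), W ⊆ S.Rᶜ → W.ncard = 3 * F1 →
      ((P2 W).ncard : ℚ) = ((3 * F2).factorial : ℚ) * mu p2 F2 V2 := by
    intro W hW hc
    refine pair_card ?_ ?_ (fun d hd => rs_not_mem hd) p2 hp2 c2 hc2 hr2 ?_ V2
    · rw [Set.disjoint_left]
      intro d hd hd'
      exact hd.1 (S.B_sub_R hd'.1)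
    · rw [Set.ncard_sdiff hW (Set.toFinite _), hWc, hc]
      omega
    · intro i k
      rw [rs_mem hν2, hcν2]
      rw [← hr2]
      exact ⟨_, rfl⟩
  -- the component
  have hch : ∀ T : Tri (Fin (6 * n)), ∃ A : Set (Fin (6 * n)), T ∈ 𝒯 → S.Cmp T ν A ∧ S.Cmp T ν (S.X \ A) ∧ A ∩ S.B = H1 ∧
        (A \ S.B).ncard = 3 * F1 ∧ ncycOn (S.vs T ν) A = V1 := by
    intro T
    by_cases hT : T ∈ 𝒯
    · obtain ⟨-, -, A, hA⟩ := hT
      exact ⟨A, fun _ => hA⟩
    · exact ⟨∅, fun h => absurd h hT⟩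
  choose cA hcA using hch
  have hsubW : ∀ T ∈ 𝒯, cA T \ S.B ⊆ S.Rᶜ := by
    intro T hT d hd
    rcases (hcA T hT).1.sub hd.1 with h2 | h2
    · exact h2
    · exact absurd h2 hd.2
  let φ : Tri (Fin (6 * n)) → Finset (Fin (6 * n)) := fun T => (Set.toFinite (cA T \ S.B)).toFinset
  let t : Finset (Finset (Fin (6 * n))) := (Set.toFinite S.Rᶜ).toFinset.powersetCard (3 * F1)
  have hφ : ∀ T ∈ (Set.toFinite 𝒯).toFinset, φ T ∈ t := by
    intro T hT
    rw [Set.Finite.mem_toFinset] at hT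
    rw [Finset.mem_powersetCard]
    constructor
    · exact Set.Finite.toFinset_subset_toFinset.2 (hsubW T hT)
    · rw [← Set.ncard_eq_toFinset_card]
      exact (hcA T hT).2.2.2.1
  have hfib : ∀ W ∈ t, (((Set.toFinite 𝒯).toFinset.filter (fun T => φ T = W)).card : ℚ) ≤
      (((3 * F1).factorial : ℚ) * mu p1 F1 V1) * (((3 * F2).factorial : ℚ) * mu p2 F2 V2) := by
    intro W hW
    rw [Finset.mem_powersetCard] at hW
    have hW1 : (W : Set (Fin (6 * n))) ⊆ S.Rᶜ := by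
      intro d hd
      have := hW.1 hd
      rw [Set.Finite.mem_toFinset] at this
      exact this
    have hW2 : (W : Set (Fin (6 * n))).ncard = 3 * F1 := by
      rw [Set.ncard_coe_finset]
      exact hW.2
    rw [← hP1 W hW1 hW2, ← hP2 W hW1 hW2, ← Nat.cast_mul, ← Set.ncard_prod]
    rw [← Set.ncard_coe_finset]
    apply Nat.cast_le.2
    -- the sets
    let X1 : Set (Fin (6 * n)) := W ∪ H1
    let X2 : Set (Fin (6 * n)) := (S.Rᶜ \ W) ∪ (S.B \ H1)
    have key : ∀ T ∈ ((Set.toFinite 𝒯).toFinset.filter (fun T => φ T = W) : Finset (Tri (Fin (6 * n)))),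
        S.Le T ∧ PairOn (W : Set (Fin (6 * n))) H1 (rs ν H1) V1 (rs T.f W) (rs T.a X1) ∧
        PairOn (S.Rᶜ \ W) (S.B \ H1) (rs ν (S.B \ H1)) V2 (rs T.f (S.Rᶜ \ W)) (rs T.a X2) ∧
        (∀ d, T.f d ∈ (W : Set (Fin (6 * n))) ↔ d ∈ (W : Set (Fin (6 * n)))) ∧
        (∀ d, T.a d ∈ X1 ↔ d ∈ X1) := by
      intro T hT
      rw [Finset.mem_filter, Set.Finite.mem_toFinset] at hT
      obtain ⟨hT, hTW⟩ := hT
      have hle : S.Le T := hT.1.2
      obtain ⟨hA, hA', hAB, hAc, hAV⟩ := hcA T hT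
      have hWA : (W : Set (Fin (6 * n))) = cA T \ S.B := by
        rw [← hTW]
        simp only [φ, Set.Finite.coe_toFinset]
      have hX1 : X1 = cA T := by
        show (W : Set (Fin (6 * n))) ∪ H1 = cA T
        rw [hWA, ← hAB]
        exact Set.sdiff_union_inter _ _
      have hX2 : X2 = S.X \ cA T := by
        show (S.Rᶜ \ (W : Set (Fin (6 * n)))) ∪ (S.B \ H1) = S.X \ cA T
        rw [hWA, ← hAB]
        ext d
        simp only [Set.mem_union, Set.mem_sdiff, Set.mem_inter_iff, Set.mem_compl_iff]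
        constructor
        · rintro (⟨hd1, hd2⟩ | ⟨hd1, hd2⟩)
          · exact ⟨Or.inl hd1, fun h3 => hd2 ⟨h3, fun h4 => hd1 (S.B_sub_R h4)⟩⟩
          · exact ⟨Or.inr hd1, fun h3 => hd2 ⟨h3, hd1⟩⟩
        · rintro ⟨hd1 | hd1, hd2⟩
          · exact Or.inl ⟨hd1, fun h3 => hd2 h3.1⟩
          · exact Or.inr ⟨hd1, fun h3 => hd2 h3.1⟩
      have hVT := vir_V hT.1 hT.2.1
      have hsum : ncycOn (S.vs T ν) S.X = ncycOn (S.vs T ν) (cA T) + ncycOn (S.vs T ν) (S.X \ cA T) := by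
        have h3 : S.X = cA T ∪ (S.X \ cA T) := (Set.union_sdiff_cancel hA.sub).symm
        conv_lhs => rw [h3]
        refine ta_union _ (fun d hd => ?_) Set.disjoint_sdiff_right
        unfold vs
        rw [Equiv.Perm.mul_apply, valp_X hle (hA.sub hd)]
        exact hA.f _ (hA.a d hd)
      have hV2 : ncycOn (S.vs T ν) (S.X \ cA T) = V2 := by
        rw [hsum, hAV] at hVT
        omega
      refine ⟨hle, ?_, ?_, ?_, ?_⟩
      · rw [hX1]
        refine ta_pair hle hν hA (fun d => ?_) (fun d => ?_) hAV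
        · rw [hWA]
          exact Iff.rfl
        · rw [← hAB]
          exact Iff.rfl
      · rw [hX2]
        refine ta_pair hle hν hA' (fun d => ?_) (fun d => ?_) hV2
        · rw [← hX2]
          constructor
          · intro hd
            exact ⟨Or.inl hd, fun h4 => hd.1 (S.B_sub_R h4)⟩
          · rintro ⟨hd | hd, hd'⟩
            · exact hd
            · exact absurd hd.1 hd'
        · rw [← hX2]
          constructor
          · intro hd
            exact ⟨Or.inr hd, hd.1⟩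
          · rintro ⟨hd | hd, hd'⟩
            · exact absurd (S.B_sub_R hd') hd.1
            · exact hd
      · refine ta_inv T.f fun d hd => ?_
        rw [hWA] at hd ⊢
        have hdR : d ∉ S.R := hsubW T hT hd
        have h3 := hA.f d hd.1
        rw [vphi_R hle hν hdR] at h3
        exact ⟨h3, fun hB => hdR ((le_f_mem hle d).1 (S.B_sub_R hB))⟩
      · rw [hX1]
        exact ta_inv T.a hA.a
    refine Set.ncard_le_ncard_of_injOn
      (fun T : Tri (Fin (6 * n)) => ((rs T.f (W : Set (Fin (6 * n))), rs T.a X1), (rs T.f (S.Rᶜ \ (W : Set (Fin (6 * n)))), rs T.a X2))) ?_ ?_ (Set.toFinite _)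
    · intro T hT
      obtain ⟨-, k1, k2, -, -⟩ := key T hT
      exact ⟨k1, k2⟩
    · intro T hT T' hT' hTT
      simp only [Prod.mk.injEq] at hTT
      obtain ⟨⟨e1, e2⟩, e3, e4⟩ := hTT
      obtain ⟨hle, -, -, w1, x1⟩ := key T hT
      obtain ⟨hle', -, -, w1', x1'⟩ := key T' hT'
      have w2 : ∀ T : Tri (Fin (6 * n)), S.Le T → (∀ d, T.f d ∈ (W : Set (Fin (6 * n))) ↔ d ∈ (W : Set (Fin (6 * n)))) →
          ∀ d, T.f d ∈ S.Rᶜ \ (W : Set (Fin (6 * n))) ↔ d ∈ S.Rᶜ \ (W : Set (Fin (6 * n))) := by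
        intro T hle hw d
        rw [Set.mem_sdiff, Set.mem_sdiff, hw, Set.mem_compl_iff, Set.mem_compl_iff, le_f_mem hle]
      have hX : S.X = X1 ∪ X2 := by
        ext d
        constructor
        · rintro (hd | hd)
          · by_cases hdW : d ∈ (W : Set (Fin (6 * n)))
            · exact Or.inl (Or.inl hdW)
            · exact Or.inr (Or.inl ⟨hd, hdW⟩)
          · by_cases hdH : d ∈ H1
            · exact Or.inl (Or.inr hdH)
            · exact Or.inr (Or.inr ⟨hd, hdH⟩)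
        · rintro ((hd | hd) | (hd | hd))
          · exact Or.inl (hW1 hd)
          · exact Or.inr (h1 hd)
          · exact Or.inl hd.1
          · exact Or.inr hd.1
      have hX12 : ∀ d, d ∈ X2 ↔ d ∈ S.X ∧ d ∉ X1 := by
        intro d
        constructor
        · rintro (hd | hd)
          · refine ⟨Or.inl hd.1, ?_⟩
            rintro (h3 | h3)
            · exact hd.2 h3
            · exact hd.1 (S.B_sub_R (h1 h3))
          · refine ⟨Or.inr hd.1, ?_⟩
            rintro (h3 | h3)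
            · exact hW1 h3 (S.B_sub_R hd.1)
            · exact hd.2 h3
        · rintro ⟨hd, hd'⟩
          rw [hX] at hd
          exact hd.resolve_left hd'
      have x2 : ∀ T : Tri (Fin (6 * n)), S.Le T → (∀ d, T.a d ∈ X1 ↔ d ∈ X1) → ∀ d, T.a d ∈ X2 ↔ d ∈ X2 := by
        intro T hle hw d
        rw [hX12, hX12, hw, X_a hle]
      apply Tri.ext'
      · ext d
        by_cases hd : d ∈ S.X
        · by_cases hd1 : d ∈ X1
          · rw [← rs_mem x1 hd1, e2, rs_mem x1' hd1]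
          · have hd2 : d ∈ X2 := (hX12 d).2 ⟨hd, hd1⟩
            rw [← rs_mem (x2 T hle x1) hd2, e4, rs_mem (x2 T' hle' x1') hd2]
        · have hd3 : S.a d ≠ d := by
            intro h3
            apply hd
            by_cases hR : d ∈ S.R
            · exact Or.inr ⟨hR, h3⟩
            · exact Or.inl hR
          rw [hle.2 d hd3, hle'.2 d hd3]
      · ext d
        by_cases hR : d ∈ S.R
        · rw [hle.1 d hR, hle'.1 d hR]
        · by_cases hdW : d ∈ (W : Set (Fin (6 * n)))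
          · rw [← rs_mem w1 hdW, e1, rs_mem w1' hdW]
          · have hd2 : d ∈ S.Rᶜ \ (W : Set (Fin (6 * n))) := ⟨hR, hdW⟩
            rw [← rs_mem (w2 T hle w1) hd2, e3, rs_mem (w2 T' hle' w1') hd2]
  have h2 : 𝒯.ncard = (Set.toFinite 𝒯).toFinset.card := Set.ncard_eq_toFinset_card _ _
  rw [h2, Finset.card_eq_sum_card_fiberwise (f := φ) (t := t) hφ]
  push_cast
  refine (Finset.sum_le_sum hfib).trans (le_of_eq ?_)
  rw [Finset.sum_const, nsmul_eq_mul, Finset.card_powersetCard, ← Set.ncard_eq_toFinset_card, hWc]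
  have h3 := Nat.add_choose_mul_factorial_mul_factorial (3 * F1) (3 * F2)
  have h4 : 3 * (F1 + F2) = 3 * F1 + 3 * F2 := by ring
  rw [h4, ← h3, Nat.choose_symm_add]
  push_cast
  ring

end Part
end SYS
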