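import Pool.Agent.SYS.LT.Cnc
import Pool.Agent.SYS.LT.GauW
import Pool.Agent.SYS.LT.Gau0

/-!
# SYS-LT-Vdisc: a component of the virtual hidden map which is a disc has a gauge

PLAN.
* `vdisc`: `gauge0` with `X := A`, `φ := rs (S.vphi T ν) A`, `α := rs T.a A` (`A` is invariant under both: closed and finite), `x := b`, `κ` of `exists_kap`: for `e ∈ A` not in the `φ`-cycle of
  `b`: `e ∉ B` (otherwise `ν.SameCycle b e`, `vphi_same`, and the cycles of `φ` in `A` are those of `vphi`), so `e ∉ R` and `φ e = T.f e`.  `Trs` is `hA.trs`; the numbers of cycles: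
  `ncycOn_congr`.  `hl.inv`.
* `no_disc`: let `A` be a component of the map after the swap, `A ≠ X`, with one hole, a disc.  `vdisc` gives `kA`.  `b ∈ A` or `b' ∈ A` (`vconn_split`), not both (`vconn_both`).  Say `b ∈ A`,
  `b' ∉ A`.  `ν' := swap b b' * ν`, `ν := nuL ps`.  `b`, `b'` are in one `ν`-cycle: otherwise they are in one `ν'`-cycle by `swapL_diff`, but `A` is closed under `ν'`.  `swap_path`: `j > 0` with
  `(ν ^ j) b = b'`, `(ν' ^ i) b = (ν ^ i) b` for `i < j`, `(ν' ^ j) b = b`.  `tele` with `kA` (`vphi = ν'` on `B`; all `(ν' ^ i) b ∈ A ∩ B`): the product `P` of `l` over `(ν ^ i) b`, `i < j`, is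
  `(kA b)⁻¹ * kA b = 1`.  `gau_word` for `ν`: `k b' = g * (k b * P) = g * k b`, `g ∈ H`, so `k b * (k b')⁻¹ = g⁻¹ ∈ H`, contradiction.  The other case is symmetric (`Equiv.swap_comm`).
-/

namespace SYS
namespace Part

open Classical SST Vm

variable {D : Type} [Finite D] {S : Part D} {T : Tri D} {G : Type} [Group G] {l k : D → G}

private theorem vd_clo {σ : Equiv.Perm D} {Z : Set D} (h : ∀ d ∈ Z, σ d ∈ Z) {x y : D} (hx : x ∈ Z)
    (hs : σ.SameCycle x y) : y ∈ Z := by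
  obtain ⟨n, -, hn⟩ := hs.exists_pow_eq'
  rw [← hn]
  clear hn
  induction n with
  | zero => exact hx
  | succ n ih =>
    rw [pow_succ', Equiv.Perm.mul_apply]
    exact h _ ih

private theorem vd_inv {σ : Equiv.Perm D} {Z : Set D} (h : ∀ d ∈ Z, σ d ∈ Z) (d : D) : σ d ∈ Z ↔ d ∈ Z :=
  ⟨fun h1 => vd_clo h h1 (Equiv.Perm.SameCycle.symm ⟨1, by rw [zpow_one]⟩), h d⟩

private theorem vd_rs {σ : Equiv.Perm D} {Z : Set D} (h : ∀ d, σ d ∈ Z ↔ d ∈ Z) {x y : D} (hx : x ∈ Z)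
    (hs : σ.SameCycle x y) : (rs σ Z).SameCycle x y := by
  have key : ∀ n : ℕ, ((rs σ Z) ^ n) x = (σ ^ n) x ∧ (σ ^ n) x ∈ Z := by
    intro n
    induction n with
    | zero => exact ⟨rfl, hx⟩
    | succ n ih =>
      have e1 : ((rs σ Z) ^ (n + 1)) x = rs σ Z (((rs σ Z) ^ n) x) := by
        rw [pow_succ', Equiv.Perm.mul_apply]
      have e2 : (σ ^ (n + 1)) x = σ ((σ ^ n) x) := by
        rw [pow_succ', Equiv.Perm.mul_apply]
      rw [e1, e2, ih.1, rs_mem h ih.2]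
      exact ⟨rfl, (h _).2 ih.2⟩
  obtain ⟨n, -, hn⟩ := hs.exists_pow_eq'
  rw [← (key n).1] at hn
  exact ⟨(n : ℤ), by rw [zpow_natCast]; exact hn⟩

theorem vdisc (h : S.Le T) (hl : Flat T l) {ν : Equiv.Perm D} (hν : ∀ d ∉ S.B, ν d = d) {A : Set D} (hA : S.Cmp T ν A)
    {b : D} (hb : b ∈ A ∩ S.B) (h1 : ∀ e ∈ A ∩ S.B, ν.SameCycle b e)
    (hE : 2 * (ncycOn (S.vs T ν) A + ncycOn (S.vphi T ν) A) = A.ncard + 4) :
    ∃ k : D → G, ∀ d ∈ A, k (S.vphi T ν d) = k d * l d ∧ k (T.a d) = k d * l d := by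
  have hfA : ∀ d, S.vphi T ν d ∈ A ↔ d ∈ A := vd_inv hA.f
  have haA : ∀ d, T.a d ∈ A ↔ d ∈ A := fun d =>
    ⟨fun h2 => by have h3 := hA.a _ h2; rwa [T.aa] at h3, hA.a d⟩
  have hM : Mp A (rs (S.vphi T ν) A) (rs T.a A) := by
    refine ⟨fun d hd => rs_not_mem hd, fun d hd => rs_not_mem hd, fun d hd => ?_, fun d => ?_⟩
    · rw [rs_mem haA hd]
      exact T.ane d
    · by_cases hd : d ∈ A
      · rw [rs_mem haA hd, rs_mem haA ((haA d).2 hd), T.aa]
      · rw [rs_not_mem hd, rs_not_mem hd]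
  have hTr : Trs A (rs (S.vphi T ν) A) (rs T.a A) := by
    intro Z hZ hne hcl
    refine hA.trs Z hZ hne fun d hd => ?_
    have h2 := hcl d hd
    rwa [rs_mem haA (hZ hd), rs_mem hfA (hZ hd)] at h2
  have hvs : ∀ d, S.vs T ν d ∈ A ↔ d ∈ A := by
    intro d
    have e : S.vs T ν d = S.vphi T ν (S.valp T d) := rfl
    rw [e, hfA]
    by_cases hd : d ∈ S.X
    · rw [valp_X h hd]
      exact haA d
    · rw [valp_off hd]
  have hn1 : ncycOn (rs (S.vphi T ν) A * rs T.a A) A = ncycOn (S.vs T ν) A := by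
    refine ncycOn_congr hvs fun d hd => ?_
    have e : S.vs T ν d = S.vphi T ν (S.valp T d) := rfl
    rw [e, valp_X h (hA.sub hd), Equiv.Perm.mul_apply, rs_mem haA hd, rs_mem hfA ((haA d).2 hd)]
  have hn2 : ncycOn (rs (S.vphi T ν) A) A = ncycOn (S.vphi T ν) A :=
    ncycOn_congr hfA fun d hd => rs_mem hfA hd
  obtain ⟨κ, hκ⟩ := exists_kap hl
  obtain ⟨k, hk⟩ := gauge0 (G := G) (l := l) κ hM hTr (by rw [hn1, hn2]; exact hE)
    (fun d hd => by rw [rs_mem haA hd]; exact hl.inv d) hb.1 (by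
      intro e he hne
      have heB : e ∉ S.B := by
        intro heB
        apply hne
        refine vd_rs hfA hb.1 ?_
        rw [vphi_same hν hb.2]
        exact h1 e ⟨he, heB⟩
      have heR : e ∉ S.R := by
        rcases hA.sub he with h2 | h2
        · exact h2
        · exact absurd h2 heB
      rw [rs_mem hfA he, vphi_R h hν heR]
      exact hκ e)
  refine ⟨k, fun d hd => ?_⟩
  have h2 := hk d hd
  rwa [rs_mem hfA hd, rs_mem haA hd] at h2

private theorem vd_core (h : S.Le T) (hl : Flat T l) (hk : S.Gau T l k) {H : Subgroup G} {ps : List (D × D)}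
    (hC : Clo k H ps) (hps : ∀ p ∈ ps, p.1 ∈ S.B ∧ p.2 ∈ S.B) {x y : D} (hx : x ∈ S.B) (hy : y ∈ S.B) (hxy : x ≠ y)
    {A : Set D} (hf : ∀ d ∈ A, S.vphi T (Equiv.swap x y * S.nuL ps) d ∈ A) (hxA : x ∈ A) (hyA : y ∉ A)
    {kA : D → G} (hkA : ∀ d ∈ A, kA (S.vphi T (Equiv.swap x y * S.nuL ps) d) = kA d * l d) :
    k x * (k y)⁻¹ ∈ H := by
  have hν : ∀ d ∉ S.B, S.nuL ps d = d := nuL_off hps
  have hνs : ∀ d ∉ S.B, (Equiv.swap x y * S.nuL ps) d = d := by
    intro d hd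
    rw [Equiv.Perm.mul_apply, hν d hd]
    exact Equiv.swap_apply_of_ne_of_ne (fun h1 => hd (h1 ▸ hx)) (fun h1 => hd (h1 ▸ hy))
  have hsc : (S.nuL ps).SameCycle x y := by
    by_contra hn
    have h1 : (Equiv.swap x y * S.nuL ps).SameCycle x y := by
      rw [swapL_diff _ hn]
      exact Or.inr ⟨Or.inl (Equiv.Perm.SameCycle.refl _ _), Or.inr (Equiv.Perm.SameCycle.refl _ _)⟩
    rw [← vphi_same (T := T) hνs hx] at h1
    exact hyA (vd_clo hf hxA h1)
  obtain ⟨j, hj0, hj, -, hjx, hji, -⟩ := swap_path (S.nuL ps) hxy hsc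
  have hAB : ∀ i : ℕ, ((Equiv.swap x y * S.nuL ps) ^ i) x ∈ A ∧ ((Equiv.swap x y * S.nuL ps) ^ i) x ∈ S.B := by
    intro i
    induction i with
    | zero => exact ⟨hxA, hx⟩
    | succ i ih =>
      have e1 : ((Equiv.swap x y * S.nuL ps) ^ (i + 1)) x =
          (Equiv.swap x y * S.nuL ps) (((Equiv.swap x y * S.nuL ps) ^ i) x) := by
        rw [pow_succ', Equiv.Perm.mul_apply]
      rw [e1]
      refine ⟨?_, (nu_mem hνs).2 ih.2⟩
      have h1 := hf _ ih.1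
      rwa [vphi_B hνs ih.2] at h1
  have ht := tele (l := l) (k := kA) (Equiv.swap x y * S.nuL ps) x j (fun i _ => by
    have h1 := hkA _ (hAB i).1
    rwa [vphi_B hνs (hAB i).2] at h1)
  rw [hjx, inv_mul_cancel] at ht
  have hlist : ((List.range j).map fun i => ((Equiv.swap x y * S.nuL ps) ^ i) x) =
      (List.range j).map fun i => (S.nuL ps ^ i) x :=
    List.map_congr_left fun i hi => hji i (List.mem_range.1 hi)
  rw [hlist] at ht
  obtain ⟨g, hg, hg'⟩ := gau_word h hl hk hps hC hx j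
  rw [ht, mul_one, hj] at hg'
  rw [hg', mul_inv_rev, mul_inv_cancel_left]
  exact H.inv_mem hg

theorem no_disc (h : S.Le T) (hl : Flat T l) (hk : S.Gau T l k) {H : Subgroup G} {ps : List (D × D)} (hC : Clo k H ps)
    (hc : S.VConn T (S.nuL ps)) {b b' : D} (hV : S.Vir T ((b, b') :: ps)) (hj : k b * (k b')⁻¹ ∉ H) :
    S.NoDisc T (S.nuL ((b, b') :: ps)) := by
  have hps := vir_B hV.1
  have hb : b ∈ S.B := hV.2.1
  have hb' : b' ∈ S.B := hV.2.2.1
  have hne : b ≠ b' := hV.2.2.2.1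
  have hν : ∀ d ∉ S.B, S.nuL ps d = d := nuL_off hps
  have hν' : ∀ d ∉ S.B, S.nuL ((b, b') :: ps) d = d := nuL_off (vir_B hV)
  have e0 : S.nuL ((b, b') :: ps) = Equiv.swap b b' * S.nuL ps := rfl
  intro A hA hAX hone hE
  obtain ⟨b₁, hb₁, h1⟩ := hone
  obtain ⟨kA, hkA⟩ := vdisc (G := G) (l := l) h hl hν' hA hb₁ h1 hE
  rw [e0] at hA hkA
  have hcl : ∀ d ∈ A, T.a d ∈ A ∧ S.vphi T (Equiv.swap b b' * S.nuL ps) d ∈ A :=
    fun d hd => ⟨hA.a d hd, hA.f d hd⟩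
  have hor := vconn_split h hν hb hb' hc hA.sub hA.ne hcl
  have hnb : ¬ (b ∈ A ∧ b' ∈ A) := fun h2 => hAX (vconn_both h hν hb hb' hc hA.sub hcl h2.1 h2.2)
  rcases hor with h2 | h2
  · exact hj (vd_core h hl hk hC hps hb hb' hne hA.f h2 (fun h3 => hnb ⟨h2, h3⟩)
      (fun d hd => (hkA d hd).1))
  · apply hj
    have e1 : Equiv.swap b b' = Equiv.swap b' b := Equiv.swap_comm b b'
    rw [e1] at hA hkA
    have h3 := vd_core h hl hk hC hps hb' hb hne.symm hA.f h2 (fun h3 => hnb ⟨h3, h2⟩)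
      (fun d hd => (hkA d hd).1)
    have h4 := H.inv_mem h3
    rwa [mul_inv_rev, inv_inv] at h4

end Part
end SYS
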