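import Pool.Agent.SYS.LT.Vert

/-!
# SYS-LT-Vtx: number of vertices

PLAN.
* `vs_inn`: `Nat.card T.V = ncyc T.s` (definition).  The classes of `T.s` which meet `X`: `ncycOn T.s X = ncycOn (ret T.s X) X` (`ncycOn_ret`) `= ncycOn (vs nx) X` (`vs_eq`).  The classes which do not meet
  `X` are contained in `R \ B` (`X = Rᶜ ∪ B`), there `T.s = S.s` (`le_s`), so they are exactly the classes of `S.s` in `R` without a dart of `B`: `S.inn` (its definition).
* `vir_V`: `vs_card`, `vs_inn`, `T.Genus n g`.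
-/

namespace SYS
namespace Part

open Classical SST Vm

private theorem vtx_closed {D : Type} [Finite D] {τ : Equiv.Perm D} (A : Set D) (hA : ∀ u, τ u ∈ A ↔ u ∈ A) {u v : D}
    (h : τ.SameCycle u v) : u ∈ A ↔ v ∈ A := by
  obtain ⟨n, -, hn⟩ := h.exists_pow_eq'
  have key : ∀ n : ℕ, u ∈ A ↔ (τ ^ n) u ∈ A := by
    intro n
    induction n with
    | zero => exact Iff.rfl
    | succ n ih =>
      rw [pow_succ', Equiv.Perm.mul_apply, hA]
      exact ih
  rw [← hn]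
  exact key n

theorem vs_inn {D : Type} [Finite D] {S : Part D} {T : Tri D} (h : S.Le T) :
    S.inn + ncycOn (S.vs T S.nx) S.X = Nat.card T.V := by
  set W : Set D := {d | ∃ e ∈ S.X, T.s.SameCycle d e} with hW
  have hWinv : ∀ d, T.s d ∈ W ↔ d ∈ W := by
    intro d
    rw [hW, Set.mem_ofPred_eq, Set.mem_ofPred_eq]
    constructor
    · rintro ⟨e, he, hde⟩
      exact ⟨e, he, Equiv.Perm.sameCycle_apply_left.1 hde⟩
    · rintro ⟨e, he, hde⟩
      exact ⟨e, he, Equiv.Perm.sameCycle_apply_left.2 hde⟩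
  have hWc : ∀ d, T.s d ∈ Wᶜ ↔ d ∈ Wᶜ := fun d => by
    rw [Set.mem_compl_iff, Set.mem_compl_iff, hWinv d]
  have hXW : S.X ⊆ W := fun d hd => ⟨d, hd, Equiv.Perm.SameCycle.refl _ _⟩
  have hRB : ∀ d ∈ Wᶜ, d ∈ S.R ∧ d ∉ S.B := by
    intro d hd
    have h1 : d ∉ S.X := fun h2 => hd (hXW h2)
    exact ⟨not_not.1 fun h2 => h1 (Or.inl h2), fun h2 => h1 (Or.inr h2)⟩
  have hs : ∀ d ∈ Wᶜ, S.s d = T.s d := fun d hd => (le_s h (hRB d hd).1 (hRB d hd).2).symm
  have e1 : Nat.card T.V = ncycOn T.s W + ncycOn T.s Wᶜ := ncyc_split T.s hWinv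
  have e2 : ncycOn T.s W = ncycOn (S.vs T S.nx) S.X := by
    rw [vs_eq h, ncycOn_ret]
    unfold ncycOn
    congr 1
    ext q
    constructor
    · rintro ⟨d, ⟨e, he, hde⟩, rfl⟩
      exact ⟨e, he, Quotient.sound hde.symm⟩
    · rintro ⟨d, hd, rfl⟩
      exact ⟨d, hXW hd, rfl⟩
  have e3 : ncycOn T.s Wᶜ = S.inn := by
    rw [← ncycOn_congr hWc hs]
    have hWs : ∀ d, S.s d ∈ Wᶜ ↔ d ∈ Wᶜ := by
      have key : ∀ d ∈ Wᶜ, S.s d ∈ Wᶜ := by
        intro d hd
        rw [hs d hd, hWc]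
        exact hd
      intro d
      refine ⟨fun hd => ?_, key d⟩
      obtain ⟨e, he, hed⟩ := Set.surj_on_of_inj_on_of_ncard_le (s := (Wᶜ : Set D)) (t := (Wᶜ : Set D)) (fun d _ => S.s d) key
        (fun a b _ _ hab => S.s.injective hab) le_rfl (Set.toFinite _) (S.s d) hd
      rwa [S.s.injective hed]
    unfold inn ncycOn
    rw [← Nat.card_coe_set_eq]
    refine congrArg (fun A : Set (Quotient (Equiv.Perm.SameCycle.setoid S.s)) => Nat.card A) ?_
    ext q
    constructor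
    · rintro ⟨d, hd, rfl⟩
      refine ⟨d, rfl, (hRB d hd).1, fun e he => ?_⟩
      exact (hRB e ((vtx_closed Wᶜ hWs he).1 hd)).2
    · rintro ⟨d, rfl, hd, hde⟩
      refine ⟨d, ?_, rfl⟩
      rintro ⟨e, he, hce⟩
      obtain ⟨n, -, hn⟩ := hce.exists_pow_eq'
      have key : ∀ n : ℕ, (T.s ^ n) d = (S.s ^ n) d ∧ (S.s ^ n) d ∈ S.R := by
        intro n
        induction n with
        | zero => exact ⟨rfl, hd⟩
        | succ n ih =>
          have h3 : (S.s ^ n) d ∉ S.B := hde _ ⟨n, by rw [zpow_natCast]⟩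
          rw [pow_succ', pow_succ', Equiv.Perm.mul_apply, Equiv.Perm.mul_apply, ih.1, le_s h ih.2 h3]
          exact ⟨rfl, (mem_R_s S _).2 ih.2⟩
      obtain ⟨h3, h4⟩ := key n
      have h5 : (S.s ^ n) d ∉ S.B := hde _ ⟨n, by rw [zpow_natCast]⟩
      rw [← h3, hn] at h4 h5
      rcases he with h6 | h6
      · exact h6 h4
      · exact h5 h6
  omega

theorem vir_V {n g : ℕ} {S : Part (Fin (6 * n))} {T : Tri (Fin (6 * n))} (hT : T ∈ S.Ext g)
    {ps : List (Fin (6 * n) × Fin (6 * n))} (hV : S.Vir T ps) :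
    ncycOn (S.vs T (S.nuL ps)) S.X + S.inn + 2 * g = n + 2 + ps.length := by
  have h1 := vs_card hT.2 hV
  have h2 := vs_inn hT.2
  have h3 : Nat.card T.V + 2 * g = n + 2 := hT.1.2
  omega

end Part
end SYS
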